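import Pool.Agent.H82.BK.HA

/-!
# Module Loss: the loss term, and the angular integrals by the half angle formula

* `loss_eq`: `kerB = len^γ bcut(cosTh)`, `cosTh v w σ = dot (dirk v w) σ`, `dirk v w = dir (v-w)`; fold
  (`σ → -σ`): `∫ ofReal(bcut(e·σ)) = BB b ε e`. Substitute `w = v - m`.
* `BB_eq`: `half_angle` with `β(x) = ofReal (bt b ε x)` (`bt b ε (-1) = 0` by `bt_neg`), `e = dir m`, `c = co m σ = e·σ`:
  `2^(d-1) c^(d-2) bt(2c²-1) = Kn d γ (bt b ε) c * c^(d+γ)` for `c > 0`; `{0 < dot m σ} = {0 < dot (dir m) σ}`.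
* `slow_integral`: `half_angle` with `β₁(x) = ofReal (bt b ε x * (C_x^r (1 + S_x²)))` and
  `β₂(x) = ofReal (bt b ε (-x) * (C_x^r (1+S_x²)))`, `C_x = sqrt((1+x)/2)`, `S_x² = (1-x)/2`, `r = 2p-d-γ ≥ 4`.
-/

set_option autoImplicit false

open MeasureTheory Set Filter Topology Pool.Agent.H25.Kin
open scoped ENNReal

namespace Pool.Agent.H82.BK

variable {d : ℕ}

private lemma Loss_dot_le (m : Vec d) {σ : Vec d} (hσ : nsq σ = 1) :
    -1 ≤ dot (dir m) σ ∧ dot (dir m) σ ≤ 1 := by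
  by_cases hm : m = 0
  · have : dot (dir m) σ = 0 := by
      unfold dir
      rw [smul_dot, hm]
      have : dot (0 : Vec d) σ = 0 := by simp [dot]
      rw [this, mul_zero]
    rw [this]
    constructor <;> norm_num
  · exact abs_le.1 (dot_le_one (nsq_dir hm) hσ)

private lemma Loss_neg (hd : 2 ≤ d) {F : ℝ → ℝ≥0∞} (hF : Measurable F) (e : Vec d) :
    ∫⁻ σ, F (-(dot e σ)) ∂(surf d) = ∫⁻ σ, F (dot e σ) ∂(surf d) := by
  have h1 := (neg_preserving (d := d) (by omega)).lintegral_comp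
    (f := fun σ => F (dot e σ)) (hF.comp (dot_cont e).measurable)
  rw [← h1]
  refine lintegral_congr fun σ => ?_
  rw [dot_neg]

private lemma Loss_fold (hd : 2 ≤ d) {b : ℝ → ℝ} (hb : Measurable b) {C β : ℝ}
    (hC : AngBound b C β) {ε : ℝ} (hε : 0 < ε) (m : Vec d) :
    ∫⁻ σ, ENNReal.ofReal (bcut b ε (dot (dir m) σ)) ∂(surf d) = BB b ε (dir m) := by
  have hm1 : Measurable fun x : ℝ => ENNReal.ofReal (if 0 < x then bcut b ε x else 0) :=
    (Measurable.ite measurableSet_Ioi (measurable_bcut hb ε) measurable_const).ennreal_ofReal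
  have hm2 : Measurable fun x : ℝ => ENNReal.ofReal (if x ≤ 0 then bcut b ε x else 0) :=
    (Measurable.ite measurableSet_Iic (measurable_bcut hb ε) measurable_const).ennreal_ofReal
  have hdm := (dot_cont (dir m)).measurable
  have hm1' : Measurable fun σ : Vec d => ENNReal.ofReal
      (if 0 < dot (dir m) σ then bcut b ε (dot (dir m) σ) else 0) := hm1.comp hdm
  have e1 : ∀ x : ℝ, ENNReal.ofReal (bcut b ε x) =
      ENNReal.ofReal (if 0 < x then bcut b ε x else 0) +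
        ENNReal.ofReal (if x ≤ 0 then bcut b ε x else 0) := by
    intro x
    rcases lt_or_ge 0 x with h | h
    · rw [if_pos h, if_neg (not_le.2 h), ENNReal.ofReal_zero, add_zero]
    · rw [if_neg (not_lt.2 h), if_pos h, ENNReal.ofReal_zero, zero_add]
  have e2 : ∫⁻ σ, ENNReal.ofReal (bcut b ε (dot (dir m) σ)) ∂(surf d) =
      (∫⁻ σ, ENNReal.ofReal (if 0 < dot (dir m) σ then bcut b ε (dot (dir m) σ) else 0)
        ∂(surf d)) +
      ∫⁻ σ, ENNReal.ofReal (if dot (dir m) σ ≤ 0 then bcut b ε (dot (dir m) σ) else 0)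
        ∂(surf d) := by
    rw [← lintegral_add_left hm1']
    exact lintegral_congr fun σ => e1 _
  rw [e2, ← Loss_neg hd hm2 (dir m), ← lintegral_add_left hm1']
  unfold BB
  refine lintegral_congr_ae ?_
  filter_upwards [surf_ae] with σ hσ
  obtain ⟨h1, h2⟩ := Loss_dot_le m hσ
  have h3 : 0 ≤ (if 0 < dot (dir m) σ then bcut b ε (dot (dir m) σ) else 0) := by
    split_ifs
    · exact bcut_nonneg hC hε h1 h2
    · exact le_refl _
  have h4 : (if -(dot (dir m) σ) ≤ 0 then bcut b ε (-(dot (dir m) σ)) else 0) =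
      (if 0 ≤ dot (dir m) σ then bcut b ε (-(dot (dir m) σ)) else 0) := by
    simp only [Left.neg_nonpos_iff]
  have h5 : 0 ≤ (if 0 ≤ dot (dir m) σ then bcut b ε (-(dot (dir m) σ)) else 0) := by
    split_ifs
    · exact bcut_nonneg hC hε (by linarith) (by linarith)
    · exact le_refl _
  rw [h4, ← ENNReal.ofReal_add h3 h5]
  rfl

theorem loss_eq (hd : 2 ≤ d) (γ : ℝ) {b : ℝ → ℝ} (hb : Measurable b) {C β : ℝ}
    (hC : AngBound b C β) {ε : ℝ} (hε : 0 < ε) {g : Vec d → ℝ} (hg : Measurable g)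
    (hg0 : ∀ u, 0 ≤ g u) (v : Vec d) :
    Ls γ b ε g v = ∫⁻ m, ENNReal.ofReal (len m ^ γ * g (v - m)) *
      (ENNReal.ofReal (g v) * BB b ε (dir m)) := by
  unfold Ls
  rw [← lintegral_sub_left_eq_self _ v]
  refine lintegral_congr fun m => ?_
  rw [← Loss_fold hd hb hC hε m]
  have hmeas : Measurable fun σ : Vec d => ENNReal.ofReal (bcut b ε (dot (dir m) σ)) :=
    ((measurable_bcut hb ε).comp (dot_cont (dir m)).measurable).ennreal_ofReal
  rw [← mul_assoc, ← lintegral_const_mul _ hmeas]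
  refine lintegral_congr fun σ => ?_
  have h1 : kerB γ b ε v (v - m) σ = len m ^ γ * bcut b ε (dot (dir m) σ) := by
    have h2 : cosTh v (v - m) σ = dot (dir m) σ := by
      rw [cosTh_eq]
      unfold dirk dir
      rw [sub_sub_cancel]
    unfold kerB bcut
    rw [h2, sub_sub_cancel]
    split_ifs
    · rfl
    · rw [mul_zero]
  have h3 : 0 ≤ len m ^ γ * g (v - m) := mul_nonneg (Real.rpow_nonneg (len_nonneg m) γ) (hg0 _)
  rw [h1, ← ENNReal.ofReal_mul h3, ← ENNReal.ofReal_mul (mul_nonneg h3 (hg0 v))]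
  congr 1
  ring

private lemma Loss_set {m : Vec d} (hm : m ≠ 0) :
    {σ : Vec d | 0 < dot m σ} = {σ : Vec d | 0 < dot (dir m) σ} := by
  ext σ
  show 0 < dot m σ ↔ 0 < dot (dir m) σ
  rw [← co_eq]
  unfold co
  exact ⟨fun h => div_pos h (len_pos hm), fun h => by
    have := mul_pos h (len_pos hm)
    rwa [div_mul_cancel₀ _ (len_pos hm).ne'] at this⟩

private lemma Loss_pow (hd : 2 ≤ d) {c a : ℝ} (hc : 0 < c) (γ : ℝ) :
    c ^ (-2 - γ) * c ^ (a + (d : ℝ) + γ) = c ^ (d - 2) * c ^ a := by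
  rw [← Real.rpow_natCast c (d - 2), ← Real.rpow_add hc, ← Real.rpow_add hc]
  congr 1
  rw [Nat.cast_sub hd]
  push_cast
  ring

theorem BB_eq (hd : 2 ≤ d) (γ : ℝ) {b : ℝ → ℝ} (hb : Measurable b) (ε : ℝ) {m : Vec d}
    (hm : m ≠ 0) :
    ∫⁻ σ in {σ : Vec d | 0 < dot m σ}, ENNReal.ofReal
      (Kn d γ (bt b ε) (co m σ) * co m σ ^ ((d : ℝ) + γ)) ∂(surf d) = BB b ε (dir m) := by
  have hβ : Measurable fun x : ℝ => ENNReal.ofReal (bt b ε x) := (measurable_bt hb ε).ennreal_ofReal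
  have h1 : ENNReal.ofReal (bt b ε (-1)) = 0 := by
    rw [bt_neg (by norm_num), ENNReal.ofReal_zero]
  unfold BB
  rw [← half_angle hd (nsq_dir hm) hβ h1, Loss_set hm]
  refine setLIntegral_congr_fun (by rw [← Loss_set hm]; exact measurableSet_half m) ?_
  intro σ hσ
  have hc : 0 < dot (dir m) σ := hσ
  simp only
  rw [co_eq]
  set c := dot (dir m) σ with hcdef
  have h2 := Loss_pow (a := 0) hd hc γ
  rw [Real.rpow_zero, mul_one, zero_add] at h2
  have h3 : (0 : ℝ) ≤ 2 ^ (d - 1) * c ^ (d - 2) := by positivity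
  rw [← ENNReal.ofReal_mul h3]
  congr 1
  unfold Kn
  rw [← h2]
  ring

theorem slow_integral (hd : 2 ≤ d) (γ : ℝ) {b : ℝ → ℝ} (hb : Measurable b) {C β : ℝ}
    (hC : AngBound b C β) {ε : ℝ} (hε : 0 < ε) {p : ℕ} (hp : (d : ℝ) + γ + 4 ≤ 2 * p)
    (hpov : ∀ x y r : ℝ, 4 ≤ r → 0 ≤ x → 0 ≤ y → x ^ 2 + y ^ 2 = 1 →
      x ^ r * (1 + y ^ 2) + y ^ r * (1 + x ^ 2) ≤ 1) {m : Vec d} (hm : m ≠ 0) :
    (∫⁻ σ in {σ : Vec d | 0 < dot m σ}, ENNReal.ofReal (Kn d γ (bt b ε) (co m σ) *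
      (co m σ ^ (2 * p) * (1 + (1 - co m σ ^ 2)))) ∂(surf d)) +
    (∫⁻ σ in {σ : Vec d | 0 < dot m σ}, ENNReal.ofReal (Kn d γ (fun x => bt b ε (-x)) (co m σ) *
      (co m σ ^ (2 * p) * (1 + (1 - co m σ ^ 2)))) ∂(surf d)) ≤ BB b ε (dir m) := by
  set r : ℝ := 2 * p - d - γ with hr
  have hr4 : 4 ≤ r := by rw [hr]; linarith
  -- the angular weight
  let A : ℝ → ℝ := fun x => Real.sqrt ((1 + x) / 2) ^ r * (1 + (1 - x) / 2)
  have hA : Measurable A := by
    refine Measurable.mul ?_ ?_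
    · refine Measurable.pow_const ?_ r
      exact (Real.continuous_sqrt.comp (by fun_prop)).measurable
    · exact (by fun_prop : Continuous fun x : ℝ => (1 + (1 - x) / 2)).measurable
  have key : ∀ (B : ℝ → ℝ), Measurable B → B (-1) * A (-1) = 0 →
      ∫⁻ σ in {σ : Vec d | 0 < dot m σ}, ENNReal.ofReal (Kn d γ B (co m σ) *
        (co m σ ^ (2 * p) * (1 + (1 - co m σ ^ 2)))) ∂(surf d) =
      ∫⁻ σ, ENNReal.ofReal (B (dot (dir m) σ) * A (dot (dir m) σ)) ∂(surf d) := by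
    intro B hB hB1
    have hβ : Measurable fun x : ℝ => ENNReal.ofReal (B x * A x) := (hB.mul hA).ennreal_ofReal
    rw [← half_angle hd (nsq_dir hm) hβ (by rw [hB1, ENNReal.ofReal_zero]), Loss_set hm]
    refine setLIntegral_congr_fun (by rw [← Loss_set hm]; exact measurableSet_half m) ?_
    intro σ hσ
    have hc : 0 < dot (dir m) σ := hσ
    simp only
    rw [co_eq]
    set c := dot (dir m) σ with hcdef
    have hAc : A (2 * c ^ 2 - 1) = c ^ r * (1 + (1 - c ^ 2)) := by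
      show Real.sqrt ((1 + (2 * c ^ 2 - 1)) / 2) ^ r * (1 + (1 - (2 * c ^ 2 - 1)) / 2) = _
      have e1 : (1 + (2 * c ^ 2 - 1)) / 2 = c ^ 2 := by ring
      rw [e1, Real.sqrt_sq hc.le]
      ring
    have h2 := Loss_pow (a := r) hd hc γ
    have h3 : (0 : ℝ) ≤ 2 ^ (d - 1) * c ^ (d - 2) := by positivity
    have h4 : c ^ (2 * p) = c ^ (r + (d : ℝ) + γ) := by
      rw [← Real.rpow_natCast c (2 * p)]
      congr 1
      rw [hr]
      push_cast
      ring
    rw [← ENNReal.ofReal_mul h3, hAc]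
    congr 1
    unfold Kn
    rw [h4]
    linear_combination (2 ^ (d - 1) * B (2 * c ^ 2 - 1) * (1 + (1 - c ^ 2))) * h2
  have hA1 : A (-1) = 0 := by
    show Real.sqrt ((1 + (-1)) / 2) ^ r * (1 + (1 - (-1)) / 2) = 0
    have e1 : ((1 : ℝ) + (-1)) / 2 = 0 := by norm_num
    rw [e1, Real.sqrt_zero, Real.zero_rpow (by linarith), zero_mul]
  have hmb := measurable_bt hb ε
  rw [key (bt b ε) hmb (by rw [hA1, mul_zero]),
    key (fun x => bt b ε (-x)) (hmb.comp measurable_neg) (by rw [hA1, mul_zero])]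
  have hdm := (dot_cont (dir m)).measurable
  -- reflection in the second integral
  have hF : Measurable fun x : ℝ => ENNReal.ofReal (bt b ε x * A (-x)) :=
    (hmb.mul (hA.comp measurable_neg)).ennreal_ofReal
  have e2 : ∫⁻ σ, ENNReal.ofReal (bt b ε (-(dot (dir m) σ)) * A (dot (dir m) σ)) ∂(surf d) =
      ∫⁻ σ, ENNReal.ofReal (bt b ε (dot (dir m) σ) * A (-(dot (dir m) σ))) ∂(surf d) := by
    rw [← Loss_neg hd hF (dir m)]
    refine lintegral_congr fun σ => ?_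
    rw [neg_neg]
  have hF' : Measurable fun σ : Vec d => ENNReal.ofReal
      (bt b ε (dot (dir m) σ) * A (-(dot (dir m) σ))) := hF.comp hdm
  rw [e2, ← lintegral_add_right _ hF']
  unfold BB
  refine lintegral_mono_ae ?_
  filter_upwards [surf_ae] with σ hσ
  obtain ⟨h1, h2⟩ := Loss_dot_le m hσ
  set x := dot (dir m) σ with hx
  have hb0 := bt_nonneg (b := b) hC hε h1 h2
  have hX0 : 0 ≤ Real.sqrt ((1 + x) / 2) := Real.sqrt_nonneg _
  have hY0 : 0 ≤ Real.sqrt ((1 + (-x)) / 2) := Real.sqrt_nonneg _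
  have hX2 : Real.sqrt ((1 + x) / 2) ^ 2 = (1 + x) / 2 := Real.sq_sqrt (by linarith)
  have hY2 : Real.sqrt ((1 + (-x)) / 2) ^ 2 = (1 + (-x)) / 2 := Real.sq_sqrt (by linarith)
  have h5 := hpov _ _ r hr4 hX0 hY0 (by rw [hX2, hY2]; ring)
  rw [hX2, hY2] at h5
  have hAx : A x = Real.sqrt ((1 + x) / 2) ^ r * (1 + (1 + (-x)) / 2) := by
    show Real.sqrt ((1 + x) / 2) ^ r * (1 + (1 - x) / 2) = _
    rw [sub_eq_add_neg]
  have hAnx : A (-x) = Real.sqrt ((1 + (-x)) / 2) ^ r * (1 + (1 + x) / 2) := by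
    show Real.sqrt ((1 + (-x)) / 2) ^ r * (1 + (1 - (-x)) / 2) = _
    rw [sub_neg_eq_add]
  have hA0 : 0 ≤ A x := by
    rw [hAx]
    exact mul_nonneg (Real.rpow_nonneg hX0 _) (by linarith)
  have hA0' : 0 ≤ A (-x) := by
    rw [hAnx]
    exact mul_nonneg (Real.rpow_nonneg hY0 _) (by linarith)
  rw [← ENNReal.ofReal_add (mul_nonneg hb0 hA0) (mul_nonneg hb0 hA0'), ← mul_add]
  refine ENNReal.ofReal_le_ofReal ?_
  rw [← hAx, ← hAnx] at h5
  calc bt b ε x * (A x + A (-x)) ≤ bt b ε x * 1 := mul_le_mul_of_nonneg_left h5 hb0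
    _ = bt b ε x := mul_one _

end Pool.Agent.H82.BK
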