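import Pool.Agent.H82.BK.CV

/-!
# Module Coll: the collisional change of variables

Proof. Swap the integrals (`lintegral_lintegral_swap`); for a.e. `σ` (`surf_ae`: `|σ| = 1`) substitute `w = v - k`
(`lintegral_sub_left_eq_self`) and apply `cv` to
`F(k) = ofReal (len k ^ γ * β (dot σ k / len k)) * Φ (v - (1/2)(k + len k σ)) (v - (1/2)(k - len k σ))`:
for `k = kap σ m`: `len k = |m|²/(m·σ) = len m / c`, `dot σ k / len k = 2c²-1`, `(1/2)(k + len k σ) = m`
(`kap_left`), `(1/2)(k - len k σ) = m - len k σ = - hh σ m`, and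
`(len m / c)^γ * (2^(d-1) |m|²/(m·σ)²) β = len m ^ γ * Kn d γ β c` (`c = co m σ > 0`, `Real.div_rpow`, `Real.rpow_add`).
Swap back; `∫ m in {0 < dot m σ}` and `∫ σ in {0 < dot m σ}` are both the indicator of `{(m,σ) | 0 < dot m σ}`.
`ENNReal.ofReal_mul` needs only the first factor to be nonnegative, so `β` may have any sign.
-/

set_option autoImplicit false

open MeasureTheory Set Filter Topology Pool.Agent.H25.Kin
open scoped ENNReal

namespace Pool.Agent.H82.BK

variable {d : ℕ}

private lemma coll_meas1 (γ : ℝ) {β : ℝ → ℝ} (hβ : Measurable β)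
    {Φ : Vec d → Vec d → ℝ≥0∞} (hΦ : Measurable fun p : Vec d × Vec d => Φ p.1 p.2) (v : Vec d) :
    Measurable fun q : Vec d × Vec d => ENNReal.ofReal (len (v - q.1) ^ γ * β (cosTh v q.1 q.2)) *
        Φ (post' v q.1 q.2) (post v q.1 q.2) := by
  have hi : Measurable fun q : Vec d × Vec d => ((v, q.1, q.2) : Vec d × Vec d × Vec d) := by
    fun_prop
  have h0 : Measurable fun q : Vec d × Vec d => v - q.1 := measurable_const.sub measurable_fst
  have h1 : Measurable fun q : Vec d × Vec d => len (v - q.1) ^ γ :=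
    (continuous_len.measurable.comp h0).pow_const γ
  have h2 : Measurable fun q : Vec d × Vec d => cosTh v q.1 q.2 := measurable_cosTh.comp hi
  have h3 : Measurable fun q : Vec d × Vec d => post v q.1 q.2 :=
    continuous_post.measurable.comp hi
  have h4 : Measurable fun q : Vec d × Vec d => post' v q.1 q.2 :=
    continuous_post'.measurable.comp hi
  exact (h1.mul (hβ.comp h2)).ennreal_ofReal.mul (hΦ.comp (h4.prodMk h3))

private lemma coll_meas2 (γ : ℝ) {β : ℝ → ℝ} (hβ : Measurable β)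
    {Φ : Vec d → Vec d → ℝ≥0∞} (hΦ : Measurable fun p : Vec d × Vec d => Φ p.1 p.2) (v : Vec d) :
    Measurable fun q : Vec d × Vec d =>
      ENNReal.ofReal (len q.1 ^ γ * Kn d γ β (co q.1 q.2)) * Φ (v - q.1) (v + hh q.2 q.1) := by
  have h1 : Measurable fun q : Vec d × Vec d => len q.1 ^ γ :=
    (continuous_len.measurable.comp measurable_fst).pow_const γ
  have hK : Measurable fun c : ℝ => Kn d γ β c := by
    unfold Kn
    exact (measurable_const.mul (measurable_id.pow_const _)).mul (hβ.comp (by fun_prop))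
  have h2 : Measurable fun q : Vec d × Vec d => Kn d γ β (co q.1 q.2) := hK.comp measurable_co
  have h3 : Measurable fun q : Vec d × Vec d => v - q.1 := by fun_prop
  have h4 : Measurable fun q : Vec d × Vec d => v + hh q.2 q.1 :=
    measurable_const.add measurable_hh
  exact (h1.mul h2).ennreal_ofReal.mul (hΦ.comp (h3.prodMk h4))

private lemma coll_point (γ : ℝ) (β : ℝ → ℝ) (Φ : Vec d → Vec d → ℝ≥0∞) (v : Vec d)
    {σ m : Vec d} (hσ : nsq σ = 1) (h : 0 < dot m σ) :
    ENNReal.ofReal (len (v - (v - kap σ m)) ^ γ * β (cosTh v (v - kap σ m) σ)) *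
        Φ (post' v (v - kap σ m) σ) (post v (v - kap σ m) σ) *
        ENNReal.ofReal (2 ^ (d - 1) * (nsq m / dot m σ ^ 2)) =
      ENNReal.ofReal (len m ^ γ * Kn d γ β (co m σ)) * Φ (v - m) (v + hh σ m) := by
  have hm : m ≠ 0 := ne_zero_of_dot h
  have hl := len_pos hm
  have hn : nsq m = len m ^ 2 := (len_sq m).symm
  have hk := len_kap hσ h
  have hleft := kap_left hσ h
  have e1 : v - (v - kap σ m) = kap σ m := by abel
  have e2 : post' v (v - kap σ m) σ = v - m := by
    unfold post'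
    rw [e1]
    conv_rhs => rw [← hleft]
    module
  have e3 : post v (v - kap σ m) σ = v + hh σ m := by
    unfold post hh
    rw [e1, ← hk]
    have : v + (len (kap σ m) • σ - m) =
        v + (len (kap σ m) • σ - (1 / 2 : ℝ) • (kap σ m + len (kap σ m) • σ)) := by rw [hleft]
    rw [this]
    module
  have hc : 0 < co m σ := co_pos h
  have e4 : cosTh v (v - kap σ m) σ = 2 * co m σ ^ 2 - 1 := by
    unfold cosTh
    rw [e1, hk, dot_comm, dot_kap hσ]
    unfold co
    rw [hn]
    field_simp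
  have e5 : len (kap σ m) = len m / co m σ := by
    rw [hk, hn]
    unfold co
    field_simp
  rw [e2, e3, e4, e1, e5]
  have e6 : len m ^ γ * Kn d γ β (co m σ) =
      (2 ^ (d - 1) * (nsq m / dot m σ ^ 2)) *
        ((len m / co m σ) ^ γ * β (2 * co m σ ^ 2 - 1)) := by
    unfold Kn
    rw [Real.div_rpow hl.le hc.le]
    have h1 : co m σ ^ (-2 - γ) = (co m σ ^ 2)⁻¹ * (co m σ ^ γ)⁻¹ := by
      rw [show (-2 - γ : ℝ) = (-2) + (-γ) by ring, Real.rpow_add hc, Real.rpow_neg hc.le,
        Real.rpow_neg hc.le]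
      congr 2
      norm_cast
    have h2 : nsq m / dot m σ ^ 2 = (co m σ ^ 2)⁻¹ := by
      unfold co
      rw [hn, div_pow, inv_div]
    rw [h1, h2]
    ring
  rw [e6, ENNReal.ofReal_mul (p := 2 ^ (d - 1) * (nsq m / dot m σ ^ 2))]
  · ring
  · have : 0 ≤ nsq m := by rw [hn]; positivity
    positivity

private lemma coll_abs (hd : 2 ≤ d) (G H : Vec d → Vec d → ℝ≥0∞)
    (hG : Measurable fun q : Vec d × Vec d => G q.1 q.2)
    (hH : Measurable fun q : Vec d × Vec d => H q.1 q.2) (v : Vec d)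
    (hp : ∀ σ m : Vec d, nsq σ = 1 → 0 < dot m σ → G (v - kap σ m) σ *
      ENNReal.ofReal (2 ^ (d - 1) * (nsq m / dot m σ ^ 2)) = H m σ) :
    ∫⁻ w, ∫⁻ σ, G w σ ∂(surf d) =
      ∫⁻ m, ∫⁻ σ in {σ : Vec d | 0 < dot m σ}, H m σ ∂(surf d) := by
  have hS : MeasurableSet {q : Vec d × Vec d | 0 < dot q.1 q.2} :=
    (isOpen_lt continuous_const continuous_dot).measurableSet
  have hI : Measurable (indicator {q : Vec d × Vec d | 0 < dot q.1 q.2}
      (fun q : Vec d × Vec d => H q.1 q.2)) := hH.indicator hS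
  rw [lintegral_lintegral_swap (f := fun w σ => G w σ) hG.aemeasurable]
  have h1 : ∀ᵐ σ ∂(surf d), ∫⁻ w, G w σ =
      ∫⁻ m, indicator {q : Vec d × Vec d | 0 < dot q.1 q.2}
        (fun q : Vec d × Vec d => H q.1 q.2) (m, σ) := by
    filter_upwards [surf_ae] with σ hσ
    have hF : Measurable fun w : Vec d => G w σ :=
      hG.comp (g := fun q : Vec d × Vec d => G q.1 q.2)
        (f := fun w : Vec d => ((w, σ) : Vec d × Vec d)) (measurable_id.prodMk measurable_const)
    have hF2 : Measurable fun k : Vec d => G (v - k) σ :=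
      hF.comp (g := fun w : Vec d => G w σ) (f := fun k : Vec d => v - k) (by fun_prop)
    have e1 : ∫⁻ w, G w σ = ∫⁻ k, G (v - k) σ :=
      (lintegral_sub_left_eq_self (μ := (volume : Measure (Vec d))) (fun w : Vec d => G w σ) v).symm
    rw [e1, cv hd hσ hF2]
    have hT : MeasurableSet {m : Vec d | 0 < dot m σ} :=
      hS.preimage (f := fun m : Vec d => ((m, σ) : Vec d × Vec d))
        (measurable_id.prodMk measurable_const)
    rw [← lintegral_indicator hT]
    refine lintegral_congr fun m => ?_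
    by_cases h : 0 < dot m σ
    · rw [indicator_of_mem (show m ∈ {m : Vec d | 0 < dot m σ} from h),
        indicator_of_mem (show (m, σ) ∈ {q : Vec d × Vec d | 0 < dot q.1 q.2} from h)]
      exact hp σ m hσ h
    · rw [indicator_of_notMem (show m ∉ {m : Vec d | 0 < dot m σ} from h),
        indicator_of_notMem (show (m, σ) ∉ {q : Vec d × Vec d | 0 < dot q.1 q.2} from h)]
  rw [lintegral_congr_ae h1]
  rw [← lintegral_lintegral_swap (f := fun m σ => indicator {q : Vec d × Vec d | 0 < dot q.1 q.2}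
        (fun q : Vec d × Vec d => H q.1 q.2) (m, σ)) hI.aemeasurable]
  refine lintegral_congr fun m => ?_
  have hT : MeasurableSet {σ : Vec d | 0 < dot m σ} :=
    hS.preimage (f := fun σ : Vec d => ((m, σ) : Vec d × Vec d))
      (measurable_const.prodMk measurable_id)
  rw [← lintegral_indicator hT]
  refine lintegral_congr fun σ => ?_
  by_cases h : 0 < dot m σ
  · rw [indicator_of_mem (show σ ∈ {σ : Vec d | 0 < dot m σ} from h),
      indicator_of_mem (show (m, σ) ∈ {q : Vec d × Vec d | 0 < dot q.1 q.2} from h)]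
  · rw [indicator_of_notMem (show σ ∉ {σ : Vec d | 0 < dot m σ} from h),
      indicator_of_notMem (show (m, σ) ∉ {q : Vec d × Vec d | 0 < dot q.1 q.2} from h)]

theorem coll_cv (hd : 2 ≤ d) (γ : ℝ) {β : ℝ → ℝ} (hβ : Measurable β)
    {Φ : Vec d → Vec d → ℝ≥0∞} (hΦ : Measurable fun p : Vec d × Vec d => Φ p.1 p.2) (v : Vec d) :
    ∫⁻ w, ∫⁻ σ, ENNReal.ofReal (len (v - w) ^ γ * β (cosTh v w σ)) *
        Φ (post' v w σ) (post v w σ) ∂(surf d) =
      ∫⁻ m, ∫⁻ σ in {σ : Vec d | 0 < dot m σ},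
        ENNReal.ofReal (len m ^ γ * Kn d γ β (co m σ)) * Φ (v - m) (v + hh σ m) ∂(surf d) := by
  exact coll_abs hd (fun w σ => ENNReal.ofReal (len (v - w) ^ γ * β (cosTh v w σ)) *
        Φ (post' v w σ) (post v w σ))
    (fun m σ => ENNReal.ofReal (len m ^ γ * Kn d γ β (co m σ)) * Φ (v - m) (v + hh σ m))
    (coll_meas1 γ hβ hΦ v) (coll_meas2 γ hβ hΦ v) v
    (fun σ m hσ h => coll_point γ β Φ v hσ h)

end Pool.Agent.H82.BK
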