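import Pool.Agent.H82.BK.CV

/-!
# Module HA: the half angle formula on the sphere

`∫_{e·σ>0} 2^(d-1) (e·σ)^(d-2) β(2(e·σ)²-1) dσ = ∫ β(e·σ) dσ` for `|e| = 1`, `β ≥ 0` measurable, `β(-1) = 0`.

Proof. Put `F(k) = (c_k)^d β(k^·e) 1[|k| c_k < 1]`, `k^ = k/|k|`, `c_k = sqrt((1+k^·e)/2)`, and compute `∫ F` twice.
(1) `cv` with `σ := e`: for `k = kap e m`, `|k| = |m|²/(m·e) = |m|/c`, `c = m·e/|m|`, `k^·e = 2c²-1`, `c_k = c`,
`|k| c_k = |m|`, so `∫F = ∫_{m·e>0, |m|<1} c^d β(2c²-1) 2^(d-1) c^(-2) dm`, and by `surf_formula`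
(`∫_S G = d ∫_{|z|<1} G(z/|z|) dz`, applied to `G(σ) = 1[e·σ>0] 2^(d-1) (e·σ)^(d-2) β(2(e·σ)²-1)`) this is `(1/d)` LHS.
(2) `polar`: `∫F = ∫_κ ∫_ρ c_κ^d β(κ·e) 1[ρ c_κ < 1] dρ = ∫_κ β(κ·e) c_κ^d (1/c_κ)^d / d = (1/d)` RHS; for `c_κ = 0`,
i.e. `κ·e = -1`, both sides vanish because `β(-1) = 0`. The radial measure of `{ρ < t}` is `t^d/d`
(`Measure.volumeIoiPow_apply_Iio`, see `rad_Iio` in Sph.lean).
-/

set_option autoImplicit false

open MeasureTheory Set Filter Topology Pool.Agent.H25.Kin
open scoped ENNReal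

namespace Pool.Agent.H82.BK

variable {d : ℕ}

private noncomputable def cs (x : ℝ) : ℝ := Real.sqrt ((1 + x) / 2)

private lemma cs_meas : Measurable cs := by
  unfold cs
  exact (Real.continuous_sqrt.comp (by fun_prop)).measurable

open Classical in
private noncomputable def FF (d : ℕ) (β : ℝ → ℝ≥0∞) (e k : Vec d) : ℝ≥0∞ :=
  if len k * cs (dot e (dir k)) < 1 then
    ENNReal.ofReal (cs (dot e (dir k)) ^ d) * β (dot e (dir k)) else 0

private lemma dir_meas : Measurable (dir : Vec d → Vec d) := by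
  unfold dir
  exact (continuous_len.measurable.inv).smul measurable_id

private lemma FF_meas {β : ℝ → ℝ≥0∞} (hβ : Measurable β) (e : Vec d) :
    Measurable (FF d β e) := by
  unfold FF
  have h1 : Measurable fun k : Vec d => dot e (dir k) :=
    (dot_cont e).measurable.comp dir_meas
  have h2 : Measurable fun k : Vec d => cs (dot e (dir k)) := cs_meas.comp h1
  refine Measurable.ite ?_ ?_ measurable_const
  · exact measurableSet_lt (continuous_len.measurable.mul h2) measurable_const
  · exact ((h2.pow_const d).ennreal_ofReal).mul (hβ.comp h1)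

private lemma rad_lt (hd : 1 ≤ d) {c : ℝ} (hc : 0 < c) :
    rad d {ρ | ρ.1 * c < 1} = ENNReal.ofReal ((1 / c) ^ d / d) := by
  have hc' : 0 < 1 / c := by positivity
  have h := Measure.volumeIoiPow_apply_Iio (d - 1) (⟨1 / c, hc'⟩ : Ioi (0 : ℝ))
  have e : {ρ : Ioi (0 : ℝ) | ρ.1 * c < 1} = Iio (⟨1 / c, hc'⟩ : Ioi (0 : ℝ)) := by
    ext ρ
    simp only [mem_Iio, ← Subtype.coe_lt_coe, mem_setOf_eq]
    exact (lt_div_iff₀ hc).symm
  rw [e, h]
  have h1 : d - 1 + 1 = d := by omega
  have h2 : ((d - 1 : ℕ) : ℝ) + 1 = d := by exact_mod_cast h1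
  simp only [h1, h2]

private lemma FF_polar (hd : 1 ≤ d) {e : Vec d} (he : nsq e = 1) {β : ℝ → ℝ≥0∞}
    (hβ : Measurable β) (h1 : β (-1) = 0) :
    ∫⁻ k, FF d β e k = ENNReal.ofReal (1 / d) * ∫⁻ σ, β (dot e σ) ∂(surf d) := by
  have hd0 : (0 : ℝ) < d := by exact_mod_cast hd
  have hbm : Measurable fun σ : Vec d => β (dot e σ) := hβ.comp (dot_cont e).measurable
  rw [polar hd (FF_meas hβ e), ← lintegral_const_mul _ hbm]
  refine lintegral_congr_ae ?_
  filter_upwards [surf_ae] with σ hσ
  set x := dot e σ with hx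
  have hxle : |x| ≤ 1 := dot_le_one he hσ
  have hval : ∀ ρ : Ioi (0 : ℝ), FF d β e (ρ.1 • σ) =
      ({ρ : Ioi (0 : ℝ) | ρ.1 * cs x < 1}).indicator
        (fun _ => ENNReal.ofReal (cs x ^ d) * β x) ρ := by
    intro ρ
    have hρ : 0 < ρ.1 := ρ.2
    have h2 : len (ρ.1 • σ) = ρ.1 := by
      rw [len_smul hρ.le]
      unfold len
      rw [hσ, Real.sqrt_one, mul_one]
    have h3 : dir (ρ.1 • σ) = σ := by
      unfold dir
      rw [h2, inv_smul_smul₀ hρ.ne']
    unfold FF
    rw [h2, h3, ← hx]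
    by_cases hlt : ρ.1 * cs x < 1
    · rw [if_pos hlt, indicator_of_mem (by exact hlt)]
    · rw [if_neg hlt, indicator_of_notMem (by exact hlt)]
  simp_rw [hval]
  have hms : MeasurableSet {ρ : Ioi (0 : ℝ) | ρ.1 * cs x < 1} :=
    measurableSet_lt (measurable_subtype_coe.mul_const _) measurable_const
  rw [lintegral_indicator hms, lintegral_const, Measure.restrict_apply MeasurableSet.univ,
    univ_inter]
  by_cases hxm : x = -1
  · rw [hxm, h1]; simp
  · have hx1 : -1 < x := lt_of_le_of_ne (abs_le.1 hxle).1 (Ne.symm hxm)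
    have hcs : 0 < cs x := by
      unfold cs
      exact Real.sqrt_pos.2 (by linarith)
    rw [rad_lt hd hcs]
    have h4 : ENNReal.ofReal (cs x ^ d) * ENNReal.ofReal ((1 / cs x) ^ d / d) =
        ENNReal.ofReal (1 / d) := by
      rw [← ENNReal.ofReal_mul (by positivity)]
      congr 1
      have h5 : cs x ^ d * (1 / cs x) ^ d = 1 := by
        rw [← mul_pow, mul_one_div_cancel hcs.ne', one_pow]
      rw [← mul_div_assoc, h5]
    calc ENNReal.ofReal (cs x ^ d) * β x * ENNReal.ofReal ((1 / cs x) ^ d / d)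
        = (ENNReal.ofReal (cs x ^ d) * ENNReal.ofReal ((1 / cs x) ^ d / d)) * β x := by ring
      _ = ENNReal.ofReal (1 / d) * β x := by rw [h4]

private lemma kap_data {e m : Vec d} (he : nsq e = 1) (h : 0 < dot m e) :
    0 < len m ∧ dot m e / len m ≤ 1 ∧ len (kap e m) = len m / (dot m e / len m) ∧
      dot e (dir (kap e m)) = 2 * (dot m e / len m) ^ 2 - 1 := by
  have hm : m ≠ 0 := by
    rintro rfl
    have : dot (0 : Vec d) e = 0 := by unfold dot; simp
    rw [this] at h
    exact lt_irrefl _ h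
  have hL : 0 < len m := len_pos hm
  have hLs : len m ^ 2 = nsq m := len_sq m
  have h1 : dot m e / len m ≤ 1 := by
    rw [div_le_one hL]
    have h2 := dot_sq_le m e
    rw [he, mul_one, ← hLs] at h2
    exact (le_abs_self _).trans (abs_le_of_sq_le_sq h2 hL.le)
  have h2 : nsq (kap e m) = (nsq m / dot m e) ^ 2 := by
    unfold kap
    rw [nsq_sub, nsq_smul, nsq_smul, he, dot_smul, smul_dot]
    field_simp
    ring
  have h3 : len (kap e m) = nsq m / dot m e := by
    unfold len
    rw [h2, Real.sqrt_sq]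
    rw [← hLs]
    positivity
  have h4 : len (kap e m) = len m / (dot m e / len m) := by
    rw [h3, ← hLs]
    field_simp
  refine ⟨hL, h1, h4, ?_⟩
  have h5 : dot e (kap e m) = 2 * dot m e - nsq m / dot m e := by
    unfold kap
    rw [dot_sub, dot_smul, dot_smul, dot_self, he, mul_one, dot_comm e m]
  unfold dir
  rw [dot_smul, h5, h4, ← hLs]
  field_simp

theorem half_angle (hd : 2 ≤ d) {e : Vec d} (he : nsq e = 1) {β : ℝ → ℝ≥0∞} (hβ : Measurable β)
    (h1 : β (-1) = 0) :
    ∫⁻ σ in {σ : Vec d | 0 < dot e σ},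
      ENNReal.ofReal (2 ^ (d - 1) * dot e σ ^ (d - 2)) * β (2 * dot e σ ^ 2 - 1) ∂(surf d) =
      ∫⁻ σ, β (dot e σ) ∂(surf d) := by
  have hd1 : 1 ≤ d := by omega
  have hd0 : (0 : ℝ) < d := by exact_mod_cast hd1
  have hem : Measurable fun σ : Vec d => dot e σ := (dot_cont e).measurable
  have hS : MeasurableSet {σ : Vec d | 0 < dot e σ} := measurableSet_lt measurable_const hem
  have hS' : MeasurableSet {σ : Vec d | 0 < dot σ e} := by
    have : {σ : Vec d | 0 < dot σ e} = {σ : Vec d | 0 < dot e σ} := by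
      ext σ; rw [mem_setOf_eq, mem_setOf_eq, dot_comm]
    rw [this]; exact hS
  set g : Vec d → ℝ≥0∞ := fun σ =>
    ENNReal.ofReal (2 ^ (d - 1) * dot e σ ^ (d - 2)) * β (2 * dot e σ ^ 2 - 1) with hg
  have hgm : Measurable g := by
    refine Measurable.mul ?_ (hβ.comp ?_)
    · exact ((hem.pow_const _).const_mul _).ennreal_ofReal
    · exact ((hem.pow_const _).const_mul _).sub_const _
  have hGm : Measurable ({σ : Vec d | 0 < dot e σ}.indicator g) := hgm.indicator hS
  have hA : ∫⁻ k, FF d β e k = ENNReal.ofReal (1 / d) *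
      ∫⁻ σ, ({σ : Vec d | 0 < dot e σ}.indicator g) σ ∂(surf d) := by
    rw [cv hd he (FF_meas hβ e), ← ball_formula hd1 hGm, ← lintegral_indicator hS',
      ← lintegral_indicator (isOpen_lt continuous_sq continuous_const).measurableSet]
    refine lintegral_congr fun m => ?_
    have hdm : dot e ((len m)⁻¹ • m) = dot m e / len m := by
      rw [dot_smul, dot_comm e m]; ring
    by_cases h : 0 < dot m e
    · obtain ⟨hL, hc1, hlk, hdk⟩ := kap_data he h
      set c := dot m e / len m with hc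
      have hc0 : 0 < c := div_pos h hL
      have hcs : cs (2 * c ^ 2 - 1) = c := by
        unfold cs
        rw [show (1 + (2 * c ^ 2 - 1)) / 2 = c ^ 2 by ring, Real.sqrt_sq hc0.le]
      rw [indicator_of_mem (by exact h)]
      have hq : nsq m / dot m e ^ 2 = 1 / c ^ 2 := by
        rw [hc, ← len_sq m]
        field_simp
      have hlt : nsq m < 1 ↔ len m < 1 := by
        rw [← len_sq m]
        constructor
        · intro h'; nlinarith
        · intro h'; nlinarith
      have hcd : c ^ d = c ^ 2 * c ^ (d - 2) := by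
        rw [← pow_add]; congr 1; omega
      unfold FF
      rw [hdk, hcs, hlk, hq, div_mul_cancel₀ _ hc0.ne']
      by_cases hl : len m < 1
      · rw [if_pos hl, indicator_of_mem (by exact hlt.2 hl),
          indicator_of_mem (by
            change 0 < dot e ((len m)⁻¹ • m)
            rw [hdm]; exact hc0)]
        simp only [hg]
        rw [hdm]
        rw [mul_right_comm, ← ENNReal.ofReal_mul (by positivity)]
        congr 2
        rw [hcd]
        field_simp
      · rw [if_neg hl, indicator_of_notMem (by exact fun h' => hl (hlt.1 h')), zero_mul]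
    · rw [indicator_of_notMem (by exact h)]
      symm
      by_cases hl : nsq m < 1
      · rw [indicator_of_mem (by exact hl), indicator_of_notMem]
        change ¬ (0 < dot e ((len m)⁻¹ • m))
        rw [hdm]
        intro h'
        apply h
        have hL := len_nonneg m
        by_contra h2
        exact absurd h' (not_lt.2 (div_nonpos_of_nonpos_of_nonneg (not_lt.1 h2) hL))
      · rw [indicator_of_notMem (by exact hl)]
  rw [FF_polar hd1 he hβ h1, lintegral_indicator hS] at hA
  have hne0 : ENNReal.ofReal (1 / d) ≠ 0 := by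
    rw [Ne, ENNReal.ofReal_eq_zero, not_le]; positivity
  exact ((ENNReal.mul_right_inj hne0 ENNReal.ofReal_ne_top).1 hA).symm

end Pool.Agent.H82.BK
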