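import Pool.Agent.H82.BK.Defs

/-!
# Module Geo: elementary geometry of `h = (|m|²/(m·σ)) σ - m`

Proofs. `|σ| = 1`, `0 < m·σ`. `co = m·σ/|m|`, `|m|² = nsq m = len m ^ 2`.
* `co ≤ 1` is Cauchy-Schwarz (`dot_sq_le`), `m ≠ 0` because `0 < m·σ`.
* `|h|² = |m|⁴/(m·σ)² - 2|m|² + |m|²  = |m|² (1/c² - 1)`; `h·m = |m|² - |m|² = 0`.
* `|v ± h|² = |v|² + |h|² ± 2 v·h` and `v·h = (v-m)·h` because `m·h = 0`.
* reflection: `refl (dir m) σ = 2 (m^·σ) m^ - σ` has the same scalar product with `m` (`dot_refl`), and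
  `hh (refl σ) m = (|m|²/(m·σ)) (2 (m^·σ) m^ - σ) - m = 2m - (|m|²/(m·σ)) σ - m = - hh σ m`.
Tools: Cap.lean (`dot_*`, `nsq_add`, `nsq_sub`, `refl_apply`, `dot_refl`), Sph.lean (`nsq_smul`, `len_sq`), BGeo.lean (`len_pos`).
-/

set_option autoImplicit false

open MeasureTheory Set Filter Topology Pool.Agent.H25.Kin
open scoped ENNReal

namespace Pool.Agent.H82.BK

variable {d : ℕ} {m σ : Vec d}

lemma ne_zero_of_dot (h : 0 < dot m σ) : m ≠ 0 := by
  rintro rfl
  simp [dot] at h

lemma nsq_dir (hm : m ≠ 0) : nsq (dir m) = 1 := by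
  have h1 := len_pos hm
  unfold dir
  rw [nsq_smul, ← len_sq m, inv_pow]
  exact inv_mul_cancel₀ (by positivity)

lemma co_eq (m σ : Vec d) : co m σ = dot (dir m) σ := by
  unfold co dir
  rw [smul_dot]
  ring

lemma co_pos (h : 0 < dot m σ) : 0 < co m σ := by
  unfold co
  exact div_pos h (len_pos (ne_zero_of_dot h))

lemma co_le_one (hσ : nsq σ = 1) : co m σ ≤ 1 := by
  unfold co
  rcases eq_or_ne m 0 with rfl | hm
  · rw [len_zero, div_zero]
    norm_num
  · rw [div_le_one (len_pos hm)]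
    have h1 := dot_sq_le m σ
    rw [hσ, mul_one, ← len_sq m] at h1
    exact (abs_le_of_sq_le_sq' h1 (len_nonneg m)).2

lemma nsq_hh (hσ : nsq σ = 1) (h : 0 < dot m σ) :
    nsq (hh σ m) = nsq m * ((1 - co m σ ^ 2) / co m σ ^ 2) := by
  have hm := ne_zero_of_dot h
  have hl := len_pos hm
  have h0 : dot m σ ≠ 0 := h.ne'
  have h2 : co m σ ^ 2 = dot m σ ^ 2 / nsq m := by
    unfold co
    rw [div_pow, len_sq]
  have hn : nsq m ≠ 0 := (sq_pos_of_ne hm).ne'
  unfold hh
  rw [nsq_sub, nsq_smul, smul_dot, hσ, h2, dot_comm σ m]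
  field_simp
  ring

lemma dot_hh (h : 0 < dot m σ) : dot (hh σ m) m = 0 := by
  have h0 : dot m σ ≠ 0 := h.ne'
  unfold hh
  rw [dot_comm, dot_sub, dot_smul, dot_self]
  field_simp
  ring

/-- `1 + |v + h|² = a + |h|² + 2 (v-m)·h` -/
lemma one_add_nsq_add (v : Vec d) (h : 0 < dot m σ) :
    1 + nsq (v + hh σ m) = 1 + nsq v + nsq (hh σ m) + 2 * dot (v - m) (hh σ m) := by
  have h1 := dot_hh h
  rw [nsq_add, dot_comm (v - m), dot_sub, h1, dot_comm (hh σ m) v]
  ring

/-- `1 + |v - h|² = a + |h|² - 2 (v-m)·h` -/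
lemma one_add_nsq_sub (v : Vec d) (h : 0 < dot m σ) :
    1 + nsq (v - hh σ m) = 1 + nsq v + nsq (hh σ m) - 2 * dot (v - m) (hh σ m) := by
  have h1 := dot_hh h
  rw [nsq_sub, dot_comm (v - m), dot_sub, h1, dot_comm (hh σ m) v]
  ring

/-- the same with `v·h` -/
lemma dot_v_hh (v : Vec d) (h : 0 < dot m σ) : dot v (hh σ m) = dot (v - m) (hh σ m) := by
  have h1 := dot_hh h
  rw [dot_comm (v - m), dot_sub, h1, dot_comm (hh σ m) v, sub_zero]

lemma dot_refl_dir (hm : m ≠ 0) (σ : Vec d) : dot m (refl (dir m) σ) = dot m σ := by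
  have h1 : m = len m • dir m := by
    unfold dir
    rw [smul_smul, mul_inv_cancel₀ (len_pos hm).ne', one_smul]
  have h2 := dot_refl (nsq_dir hm) σ
  calc dot m (refl (dir m) σ) = len m * dot (dir m) (refl (dir m) σ) := by
        rw [← smul_dot, ← h1]
    _ = len m * dot (dir m) σ := by rw [h2]
    _ = dot m σ := by rw [← smul_dot, ← h1]

lemma hh_refl (h : 0 < dot m σ) : hh (refl (dir m) σ) m = -(hh σ m) := by
  have hm := ne_zero_of_dot h
  have hl := (len_pos hm).ne'
  have h0 : dot m σ ≠ 0 := h.ne'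
  have h1 : (2 * dot (dir m) σ) • dir m = (2 * dot m σ / nsq m) • m := by
    unfold dir
    rw [smul_dot, smul_smul, ← len_sq m]
    congr 1
    field_simp
  unfold hh
  rw [dot_refl_dir hm, refl_apply, h1, smul_sub, smul_smul]
  have hn : nsq m ≠ 0 := (sq_pos_of_ne hm).ne'
  have h2 : nsq m / dot m σ * (2 * dot m σ / nsq m) = 2 := by
    field_simp
  rw [h2, two_smul]
  abel

lemma measurable_hh : Measurable fun q : Vec d × Vec d => hh q.2 q.1 := by
  have h1 : Measurable fun q : Vec d × Vec d => nsq q.1 :=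
    (continuous_sq.comp continuous_fst).measurable
  have h2 : Measurable fun q : Vec d × Vec d => dot q.1 q.2 := by
    have : Continuous fun q : Vec d × Vec d => dot q.1 q.2 := by unfold dot; fun_prop
    exact this.measurable
  unfold hh
  exact ((h1.div h2).smul measurable_snd).sub measurable_fst

lemma measurable_co : Measurable fun q : Vec d × Vec d => co q.1 q.2 := by
  have h2 : Measurable fun q : Vec d × Vec d => dot q.1 q.2 := by
    have : Continuous fun q : Vec d × Vec d => dot q.1 q.2 := by unfold dot; fun_prop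
    exact this.measurable
  unfold co
  exact h2.div (continuous_len.comp continuous_fst).measurable

lemma measurableSet_half (m : Vec d) : MeasurableSet {σ : Vec d | 0 < dot m σ} := by
  exact (isOpen_lt continuous_const (dot_cont m)).measurableSet

/-- the folded kernel is nonnegative on `[-1,1]` -/
lemma bt_nonneg {b : ℝ → ℝ} {C β ε : ℝ} (hC : AngBound b C β) (hε : 0 < ε) {x : ℝ} (h1 : -1 ≤ x)
    (h2 : x ≤ 1) : 0 ≤ bt b ε x := by
  have h3 : 0 ≤ (if 0 < x then bcut b ε x else 0) := by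
    unfold bcut
    split_ifs with h4 h5
    · exact (hC.2 x h1 (by linarith)).1
    · exact le_refl _
    · exact le_refl _
  have h4 : 0 ≤ (if 0 ≤ x then bcut b ε (-x) else 0) := by
    unfold bcut
    split_ifs with h5 h6
    · exact (hC.2 (-x) (by linarith) (by linarith)).1
    · exact le_refl _
    · exact le_refl _
  unfold bt
  exact add_nonneg h3 h4

lemma bcut_nonneg {b : ℝ → ℝ} {C β ε : ℝ} (hC : AngBound b C β) (hε : 0 < ε) {x : ℝ} (h1 : -1 ≤ x)
    (h2 : x ≤ 1) : 0 ≤ bcut b ε x := by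
  unfold bcut
  split_ifs with h
  · exact (hC.2 x h1 (by linarith)).1
  · exact le_refl _

/-- the folded kernel lives on `[0,1]` -/
lemma bt_neg {b : ℝ → ℝ} {ε x : ℝ} (h : x < 0) : bt b ε x = 0 := by
  unfold bt
  rw [if_neg (by linarith), if_neg (by linarith), add_zero]

/-- `bt(x) ≤ 2C (1-x)^(-β)` on `[0,1)` (`β ≥ 0`) -/
lemma bt_le {b : ℝ → ℝ} {C β ε : ℝ} (hC : AngBound b C β) (hβ : 0 ≤ β) {x : ℝ}
    (h1 : 0 ≤ x) (h2 : x < 1) : bt b ε x ≤ 2 * C * (1 - x) ^ (-β) := by
  have hC0 := hC.1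
  have hp : 0 ≤ (1 - x) ^ (-β) := Real.rpow_nonneg (by linarith) _
  have h3 : (if 0 < x then bcut b ε x else 0) ≤ C * (1 - x) ^ (-β) := by
    unfold bcut
    split_ifs with h4 h5
    · exact (hC.2 x (by linarith) h2).2
    · positivity
    · positivity
  have h4 : (if 0 ≤ x then bcut b ε (-x) else 0) ≤ C * (1 - x) ^ (-β) := by
    unfold bcut
    split_ifs with h5 h6
    · refine (hC.2 (-x) (by linarith) (by linarith)).2.trans ?_
      refine mul_le_mul_of_nonneg_left ?_ hC0
      exact Real.rpow_le_rpow_of_nonpos (by linarith) (by linarith) (by linarith)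
    · positivity
  unfold bt
  linarith

lemma measurable_bcut {b : ℝ → ℝ} (hb : Measurable b) (ε : ℝ) : Measurable (bcut b ε) := by
  unfold bcut
  exact Measurable.ite measurableSet_Iic hb measurable_const

lemma measurable_bt {b : ℝ → ℝ} (hb : Measurable b) (ε : ℝ) : Measurable (bt b ε) := by
  unfold bt
  refine Measurable.add ?_ ?_
  · exact Measurable.ite measurableSet_Ioi (measurable_bcut hb ε) measurable_const
  · exact Measurable.ite measurableSet_Ici ((measurable_bcut hb ε).comp measurable_neg)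
      measurable_const

end Pool.Agent.H82.BK
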