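import Pool.Agent.H82.BK.Defs

/-!
# Module Pw: pointwise inequalities (pure real analysis)

* `povzner`: `x^r ≤ x^4`, `y^r ≤ y^4` (`Real.rpow_le_rpow_of_exponent_ge`, or `x = 0`), and with `x²+y²=1`:
  `x⁴(1+y²)+y⁴(1+x²) = (x²+y²)² - 2x²y² + x²y²(x²+y²) = 1 - x²y²`.
* `slow_ineq`: put `s² = 1-c²`, `t = s²/c²`, `u = 1+X`, `y = Y/u`. `|Y| ≤ 2δ√X ≤ δ u`, so `|y| ≤ δ ≤ 1/2`, and
  `y² ≤ 4δ²X/u² ≤ 4δ²X/u ≤ 8 δ² s²`: indeed `X/u = 1 - 1/u ≤ 1 - 1/(1+(1+η)t) ≤ (1+η)t/(1+t) = (1+η)s²` (`1+t = c^(-2)`).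
  `((u+Y)^p)⁻¹+((u-Y)^p)⁻¹ = u^(-p) [(1+y)^(-p)+(1-y)^(-p)]`, and for `|y| ≤ 1/2`:
  `(1+y)^(-p)+(1-y)^(-p) ≤ 2 (1 + L y²)` for some `L = L(p)` (`(1-y²)^p ((1+y)^(-p)+(1-y)^(-p)) = (1-y)^p+(1+y)^p ≤ 2(1+2^p y²)`
  and `(1-y²)^(-p) ≤ 1 + p 2^p y² ...`; any constant will do).
  `u ≥ 1+(1-η)t = c^(-2)(1-η s²)`, so `u^(-p) ≤ c^(2p) (1-η s²)^(-p) ≤ c^(2p) (1 + L' η s²)` for `η ≤ 1/2`.
  Product: `c^(2p) (1 + L'η s²)(1 + 8Lδ² s²) ≤ c^(2p)(1+s²)` if `L'η ≤ 1/4`, `8Lδ² ≤ 1/4` (`s² ≤ 1`).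
* `taylor_ineq`: `1+X-|Y| ≥ (1-√X)² ≥ 1/4`; `u = 1+X ≥ 1`, `y = Y/u`, `y² ≤ 4X/u² ≤ 4X`, `1-y² ≥ (u-|Y|)/u · 1 ≥ (1/4)/(5/4) = 1/5`,
  and `(1+y)^(-p)+(1-y)^(-p) = [(1-y)^p+(1+y)^p] (1-y²)^(-p) ≤ 2(1+2^p y²)(1 + L'' y²)`.
* `bernoulli_ineq`: `1 - c^e ≤ (e+1)(1-c)` for `0 < c ≤ 1`, `e ≥ 0` (if `e ≥ 1`: `one_add_mul_self_le_rpow_one_add`
  with `-(1-c)`; if `e ≤ 1`: `c ≤ c^e`).
-/

set_option autoImplicit false

open MeasureTheory Set Filter Topology Pool.Agent.H25.Kin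
open scoped ENNReal

namespace Pool.Agent.H82.BK

private lemma pw_rpow_le {x r : ℝ} (hr : 4 ≤ r) (hx : 0 ≤ x) (hx1 : x ≤ 1) :
    x ^ r ≤ x ^ 4 := by
  rcases hx.eq_or_lt with h | h
  · subst h
    rw [Real.zero_rpow (by linarith)]
    norm_num
  · have := Real.rpow_le_rpow_of_exponent_ge h hx1 hr
    rwa [show (4 : ℝ) = ((4 : ℕ) : ℝ) by norm_num, Real.rpow_natCast] at this

lemma povzner {x y r : ℝ} (hr : 4 ≤ r) (hx : 0 ≤ x) (hy : 0 ≤ y) (h : x ^ 2 + y ^ 2 = 1) :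
    x ^ r * (1 + y ^ 2) + y ^ r * (1 + x ^ 2) ≤ 1 := by
  have hx1 : x ≤ 1 := by nlinarith [sq_nonneg y]
  have hy1 : y ≤ 1 := by nlinarith [sq_nonneg x]
  have h1 := pw_rpow_le hr hx hx1
  have h2 := pw_rpow_le hr hy hy1
  have h3 : x ^ r * (1 + y ^ 2) ≤ x ^ 4 * (1 + y ^ 2) :=
    mul_le_mul_of_nonneg_right h1 (by positivity)
  have h4 : y ^ r * (1 + x ^ 2) ≤ y ^ 4 * (1 + x ^ 2) :=
    mul_le_mul_of_nonneg_right h2 (by positivity)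
  have h5 : x ^ 4 * (1 + y ^ 2) + y ^ 4 * (1 + x ^ 2) = 1 - x ^ 2 * y ^ 2 := by
    have e : y ^ 2 = 1 - x ^ 2 := by linarith
    have e4 : y ^ 4 = (1 - x ^ 2) ^ 2 := by rw [← e]; ring
    rw [e4, e]; ring
  have h6 : 0 ≤ x ^ 2 * y ^ 2 := by positivity
  linarith

/-- `(1+y)^(-p) ≤ 1 - p y + L y²` as long as `1 + y ≥ κ` -/
private lemma pw_inv (κ : ℝ) (hκ : 0 < κ) (p : ℕ) :
    ∃ L ≥ 0, ∀ y : ℝ, κ ≤ 1 + y → ((1 + y) ^ p)⁻¹ ≤ 1 - p * y + L * y ^ 2 := by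
  induction p with
  | zero => exact ⟨0, le_rfl, fun y _ => by simp⟩
  | succ p ih =>
    obtain ⟨L, hL, h⟩ := ih
    refine ⟨κ⁻¹ * (p + 1 + L), by positivity, fun y hy => ?_⟩
    have h0 : 0 < 1 + y := lt_of_lt_of_le hκ hy
    have h1 : ((1 + y) ^ (p + 1))⁻¹ = (1 + y)⁻¹ * ((1 + y) ^ p)⁻¹ := by
      rw [pow_succ, mul_inv, mul_comm]
    have h2 : (1 + y)⁻¹ * ((1 + y) ^ p)⁻¹ ≤ (1 + y)⁻¹ * (1 - p * y + L * y ^ 2) :=
      mul_le_mul_of_nonneg_left (h y hy) (by positivity)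
    have h3 : (1 + y)⁻¹ * (1 - p * y + L * y ^ 2) =
        1 - (p + 1) * y + (1 + y)⁻¹ * ((p + 1 + L) * y ^ 2) := by
      field_simp
      ring
    have h4 : (1 + y)⁻¹ * ((p + 1 + L) * y ^ 2) ≤ κ⁻¹ * ((p + 1 + L) * y ^ 2) :=
      mul_le_mul_of_nonneg_right (inv_anti₀ hκ hy) (by positivity)
    rw [h1]
    push_cast
    linarith [h2, h3, h4]

/-- the sum of the two inverse powers -/
private lemma pw_sum {κ : ℝ} {p : ℕ} {L : ℝ}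
    (hL : ∀ y : ℝ, κ ≤ 1 + y → ((1 + y) ^ p)⁻¹ ≤ 1 - p * y + L * y ^ 2) {u Y : ℝ} (hu : 0 < u)
    (h1 : κ ≤ 1 + Y / u) (h2 : κ ≤ 1 - Y / u) :
    ((u + Y) ^ p)⁻¹ + ((u - Y) ^ p)⁻¹ ≤ (u ^ p)⁻¹ * (2 * (1 + L * (Y / u) ^ 2)) := by
  have e1 : ((u + Y) ^ p)⁻¹ = (u ^ p)⁻¹ * ((1 + Y / u) ^ p)⁻¹ := by
    rw [← mul_inv, ← mul_pow]
    congr 2
    field_simp
  have e2 : ((u - Y) ^ p)⁻¹ = (u ^ p)⁻¹ * ((1 + -(Y / u)) ^ p)⁻¹ := by
    rw [← mul_inv, ← mul_pow]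
    congr 2
    field_simp
    ring
  rw [e1, e2, ← mul_add]
  refine mul_le_mul_of_nonneg_left ?_ (by positivity)
  have h3 := hL (Y / u) h1
  have h4 := hL (-(Y / u)) (by linarith)
  have h5 : (-(Y / u)) ^ 2 = (Y / u) ^ 2 := by ring
  rw [h5] at h4
  linarith

theorem slow_ineq (p : ℕ) : ∃ δ > 0, ∃ η > 0, η ≤ 1 / 2 ∧ ∀ X Y c : ℝ, 0 < c → c ≤ 1 →
    (1 - η) * ((1 - c ^ 2) / c ^ 2) ≤ X → X ≤ (1 + η) * ((1 - c ^ 2) / c ^ 2) →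
    |Y| ≤ 2 * δ * Real.sqrt X →
    0 < 1 + X + Y ∧ 0 < 1 + X - Y ∧
    ((1 + X + Y) ^ p)⁻¹ + ((1 + X - Y) ^ p)⁻¹ ≤ 2 * (c ^ (2 * p) * (1 + (1 - c ^ 2))) := by
  obtain ⟨L, hL0, hL⟩ := pw_inv (1 / 2) (by norm_num) p
  -- `η` and `δ`
  set M : ℝ := p + L + 1 with hM
  have hp0 : (0 : ℝ) ≤ p := Nat.cast_nonneg p
  have hM1 : 1 ≤ M := by linarith
  have hM0 : 0 < M := by linarith
  refine ⟨1 / (8 * M), by positivity, 1 / (4 * M), by positivity, ?_, ?_⟩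
  · rw [div_le_div_iff₀ (by positivity) (by norm_num)]
    linarith
  intro X Y c hc hc1 hX1 hX2 hY
  set η : ℝ := 1 / (4 * M) with hη
  set δ : ℝ := 1 / (8 * M) with hδ
  have hη0 : 0 < η := by positivity
  have hδ0 : 0 < δ := by positivity
  have hMη : M * η = 1 / 4 := by rw [hη]; field_simp
  have hη4 : η ≤ 1 / 4 := by
    have := mul_le_mul_of_nonneg_right hM1 hη0.le
    linarith
  have hMδ : M * δ = 1 / 8 := by rw [hδ]; field_simp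
  have hδ8 : δ ≤ 1 / 8 := by
    have := mul_le_mul_of_nonneg_right hM1 hδ0.le
    linarith
  have hLδ : L * δ ≤ 1 / 8 := by
    have : L * δ ≤ M * δ := mul_le_mul_of_nonneg_right (by linarith) hδ0.le
    linarith
  have hc2 : 0 < c ^ 2 := by positivity
  have hc21 : c ^ 2 ≤ 1 := pow_le_one₀ hc.le hc1
  set S : ℝ := 1 - c ^ 2 with hS
  have hS0 : 0 ≤ S := by linarith
  have hS1 : S ≤ 1 := by linarith
  have ht0 : 0 ≤ S / c ^ 2 := by positivity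
  have hX0 : 0 ≤ X := le_trans (mul_nonneg (by linarith) ht0) hX1
  have hu : 0 < 1 + X := by linarith
  have hY2 : Y ^ 2 ≤ 4 * δ ^ 2 * X := by
    have h1 : |Y| ^ 2 ≤ (2 * δ * Real.sqrt X) ^ 2 := pow_le_pow_left₀ (abs_nonneg _) hY 2
    rw [sq_abs] at h1
    have h2 : (2 * δ * Real.sqrt X) ^ 2 = 4 * δ ^ 2 * X := by
      rw [mul_pow, Real.sq_sqrt hX0]; ring
    linarith
  have hXc1 : X * c ^ 2 ≤ (1 + η) * S := by
    have := mul_le_mul_of_nonneg_right hX2 hc2.le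
    have e : (1 + η) * (S / c ^ 2) * c ^ 2 = (1 + η) * S := by field_simp
    linarith
  have hXc2 : (1 - η) * S ≤ X * c ^ 2 := by
    have := mul_le_mul_of_nonneg_right hX1 hc2.le
    have e : (1 - η) * (S / c ^ 2) * c ^ 2 = (1 - η) * S := by field_simp
    linarith
  have hXu : X ≤ (1 + η) * S * (1 + X) := by
    have e : c ^ 2 = 1 - S := by rw [hS]; ring
    rw [e] at hXc1
    have : 0 ≤ η * S * X := by positivity
    linarith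
  have hy2 : (Y / (1 + X)) ^ 2 ≤ 8 * δ ^ 2 * S := by
    rw [div_pow, div_le_iff₀ (by positivity)]
    have h1 : 4 * δ ^ 2 * X ≤ 4 * δ ^ 2 * ((1 + η) * S * (1 + X)) :=
      mul_le_mul_of_nonneg_left hXu (by positivity)
    have h2 : (1 + η) * S * (1 + X) ≤ 2 * S * (1 + X) ^ 2 := by
      have h3 : (1 + η) * S * (1 + X) ≤ 2 * S * (1 + X) :=
        mul_le_mul_of_nonneg_right (mul_le_mul_of_nonneg_right (by linarith) hS0) hu.le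
      have h4 : 2 * S * (1 + X) ≤ 2 * S * (1 + X) ^ 2 :=
        mul_le_mul_of_nonneg_left (by
          have := mul_nonneg hu.le hX0
          linarith) (by positivity)
      linarith
    have h5 : 4 * δ ^ 2 * ((1 + η) * S * (1 + X)) ≤ 4 * δ ^ 2 * (2 * S * (1 + X) ^ 2) :=
      mul_le_mul_of_nonneg_left h2 (by positivity)
    have e : 4 * δ ^ 2 * (2 * S * (1 + X) ^ 2) = 8 * δ ^ 2 * S * (1 + X) ^ 2 := by ring
    linarith
  have hy2' : (Y / (1 + X)) ^ 2 ≤ (1 / 2) ^ 2 := by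
    have h1 : 8 * δ ^ 2 * S ≤ 8 * δ ^ 2 := by
      have : 8 * δ ^ 2 * S ≤ 8 * δ ^ 2 * 1 := mul_le_mul_of_nonneg_left hS1 (by positivity)
      linarith
    have h2 : δ ^ 2 ≤ 1 / 64 := by
      have := mul_self_le_mul_self hδ0.le hδ8
      linarith
    have : 8 * δ ^ 2 ≤ 1 / 8 := by linarith
    linarith
  have hyabs : |Y / (1 + X)| ≤ 1 / 2 := abs_le_of_sq_le_sq hy2' (by norm_num)
  obtain ⟨hya, hyb⟩ := abs_le.mp hyabs
  have hpos1 : 0 < 1 + X + Y := by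
    have e : 1 + X + Y = (1 + X) * (1 + Y / (1 + X)) := by field_simp
    rw [e]
    exact mul_pos hu (by linarith)
  have hpos2 : 0 < 1 + X - Y := by
    have e : 1 + X - Y = (1 + X) * (1 - Y / (1 + X)) := by field_simp
    rw [e]
    exact mul_pos hu (by linarith)
  refine ⟨hpos1, hpos2, ?_⟩
  have key := pw_sum hL hu (show (1 / 2 : ℝ) ≤ 1 + Y / (1 + X) by linarith)
    (show (1 / 2 : ℝ) ≤ 1 - Y / (1 + X) by linarith)
  refine key.trans ?_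
  -- first factor
  have hf : ((1 + X) ^ p)⁻¹ ≤ c ^ (2 * p) * (1 + S / 4) := by
    have h1 : 1 + -(η * S) ≤ c ^ 2 * (1 + X) := by linarith
    have hηS : 0 ≤ η * S := by positivity
    have hηS1 : η * S ≤ 1 / 4 := by
      have := mul_le_mul hη4 hS1 hS0 (by norm_num)
      linarith
    have h2 : (1 + -(η * S)) ^ p ≤ (c ^ 2 * (1 + X)) ^ p :=
      pow_le_pow_left₀ (by linarith) h1 p
    have h3 : ((c ^ 2 * (1 + X)) ^ p)⁻¹ ≤ ((1 + -(η * S)) ^ p)⁻¹ :=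
      inv_anti₀ (pow_pos (by linarith) p) h2
    have h4 := hL (-(η * S)) (by linarith)
    have h5 : 1 - (p : ℝ) * -(η * S) + L * (-(η * S)) ^ 2 ≤ 1 + S / 4 := by
      have h6 : L * (-(η * S)) ^ 2 ≤ L * (η * S) := by
        refine mul_le_mul_of_nonneg_left ?_ hL0
        have := mul_nonneg hηS (by linarith : 0 ≤ 1 - η * S)
        linarith
      have h7 : (p + L) * η ≤ 1 / 4 := by
        rw [← hMη]
        exact mul_le_mul_of_nonneg_right (by linarith) hη0.le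
      have h8 : (p + L) * η * S ≤ 1 / 4 * S := mul_le_mul_of_nonneg_right h7 hS0
      linarith
    have h9 : ((1 + X) ^ p)⁻¹ = c ^ (2 * p) * ((c ^ 2 * (1 + X)) ^ p)⁻¹ := by
      rw [mul_pow, ← pow_mul, mul_inv, ← mul_assoc, mul_inv_cancel₀ (by positivity), one_mul]
    rw [h9]
    exact mul_le_mul_of_nonneg_left (by linarith) (by positivity)
  have hg : 2 * (1 + L * (Y / (1 + X)) ^ 2) ≤ 2 * (1 + S / 8) := by
    have h1 : L * (Y / (1 + X)) ^ 2 ≤ L * (8 * δ ^ 2 * S) :=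
      mul_le_mul_of_nonneg_left hy2 hL0
    have h2 : L * (8 * δ ^ 2 * S) = (L * δ) * (8 * δ) * S := by ring
    have h3 : (L * δ) * (8 * δ) ≤ 1 / 8 * 1 :=
      mul_le_mul hLδ (by linarith) (by positivity) (by norm_num)
    have h4 : (L * δ) * (8 * δ) * S ≤ 1 / 8 * S := by
      refine mul_le_mul_of_nonneg_right (by linarith) hS0
    linarith
  have hcp : 0 ≤ c ^ (2 * p) := by positivity
  calc ((1 + X) ^ p)⁻¹ * (2 * (1 + L * (Y / (1 + X)) ^ 2))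
      ≤ (c ^ (2 * p) * (1 + S / 4)) * (2 * (1 + S / 8)) :=
        mul_le_mul hf hg (by positivity) (by positivity)
    _ = 2 * (c ^ (2 * p) * ((1 + S / 4) * (1 + S / 8))) := by ring
    _ ≤ 2 * (c ^ (2 * p) * (1 + S)) := by
        have : (1 + S / 4) * (1 + S / 8) ≤ 1 + S := by
          have := mul_nonneg hS0 (by linarith : 0 ≤ 1 - S)
          linarith
        exact mul_le_mul_of_nonneg_left (mul_le_mul_of_nonneg_left this hcp) (by norm_num)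

theorem taylor_ineq (p : ℕ) : ∃ L ≥ 0, ∀ X Y : ℝ, 0 ≤ X → X < 1 / 4 → |Y| ≤ 2 * Real.sqrt X →
    0 < 1 + X + Y ∧ 0 < 1 + X - Y ∧
    ((1 + X + Y) ^ p)⁻¹ + ((1 + X - Y) ^ p)⁻¹ ≤ 2 * (1 + L * X) := by
  obtain ⟨L, hL0, hL⟩ := pw_inv (1 / 5) (by norm_num) p
  refine ⟨4 * L, by positivity, fun X Y hX0 hX1 hY => ?_⟩
  have hs0 := Real.sqrt_nonneg X
  have hsq := Real.sq_sqrt hX0
  have hs1 : Real.sqrt X ≤ 1 / 2 := by
    by_contra hcon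
    push Not at hcon
    nlinarith
  obtain ⟨hY1, hY2⟩ := abs_le.mp hY
  have hq : 1 / 4 ≤ 1 + X - 2 * Real.sqrt X := by nlinarith
  have hp1 : 1 / 4 ≤ 1 + X + Y := by linarith
  have hp2 : 1 / 4 ≤ 1 + X - Y := by linarith
  have hu : 0 < 1 + X := by linarith
  refine ⟨by linarith, by linarith, ?_⟩
  have e1 : 1 + Y / (1 + X) = (1 + X + Y) / (1 + X) := by field_simp
  have e2 : 1 - Y / (1 + X) = (1 + X - Y) / (1 + X) := by field_simp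
  have k1 : (1 / 5 : ℝ) ≤ 1 + Y / (1 + X) := by
    rw [e1, le_div_iff₀ hu]; linarith
  have k2 : (1 / 5 : ℝ) ≤ 1 - Y / (1 + X) := by
    rw [e2, le_div_iff₀ hu]; linarith
  have key := pw_sum hL hu k1 k2
  refine key.trans ?_
  have hY4 : Y ^ 2 ≤ 4 * X := by
    have h1 : |Y| ^ 2 ≤ (2 * Real.sqrt X) ^ 2 := pow_le_pow_left₀ (abs_nonneg _) hY 2
    rw [sq_abs, mul_pow, hsq] at h1
    linarith
  have hy : (Y / (1 + X)) ^ 2 ≤ 4 * X := by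
    rw [div_pow, div_le_iff₀ (by positivity)]
    have : 4 * X ≤ 4 * X * (1 + X) ^ 2 := by nlinarith [mul_nonneg hX0 hX0]
    linarith
  have hup : ((1 + X) ^ p)⁻¹ ≤ 1 := by
    apply inv_le_one_of_one_le₀
    exact one_le_pow₀ (by linarith)
  have hb0 : 0 ≤ 2 * (1 + L * (Y / (1 + X)) ^ 2) := by positivity
  calc ((1 + X) ^ p)⁻¹ * (2 * (1 + L * (Y / (1 + X)) ^ 2))
      ≤ 1 * (2 * (1 + L * (Y / (1 + X)) ^ 2)) := mul_le_mul_of_nonneg_right hup hb0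
    _ ≤ 2 * (1 + 4 * L * X) := by
        have : L * (Y / (1 + X)) ^ 2 ≤ L * (4 * X) := mul_le_mul_of_nonneg_left hy hL0
        linarith

lemma bernoulli_ineq {c e : ℝ} (hc : 0 < c) (hc1 : c ≤ 1) (he : 0 ≤ e) :
    1 - c ^ e ≤ (e + 1) * (1 - c) := by
  rcases le_total 1 e with h | h
  · have := one_add_mul_self_le_rpow_one_add (s := c - 1) (by linarith) h
    rw [show 1 + (c - 1) = c by ring] at this
    nlinarith
  · have := Real.rpow_le_rpow_of_exponent_ge hc hc1 h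
    rw [Real.rpow_one] at this
    nlinarith [mul_nonneg he (sub_nonneg.mpr hc1)]

end Pool.Agent.H82.BK
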