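import Pool.Agent.H82.BK.Geo

/-!
# Module Avg: averaging over the reflection `σ → refl (dir m) σ`

Proof. `refl_preserving` (Cap.lean) with `nsq_dir`; it preserves `dot m σ` (`dot_refl_dir`), hence `co m σ` and the
half space, and maps `hh` to `-hh` (`hh_refl`). So with `I = ∫_{0<dot m σ} ofReal(K(co)) G(hh)`,
`2 I = ∫ ofReal(K(co)) (G(hh) + G(-hh)) ≤ 2 ∫ ofReal(K(co)) R(co)`; divide by `2` (all in `ℝ≥0∞`:
`ENNReal.mul_le_mul_left` style cancellation with `2 ≠ 0, ⊤`). The hypothesis `h` holds for a.e. `σ` by `surf_ae`.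
-/

set_option autoImplicit false

open MeasureTheory Set Filter Topology Pool.Agent.H25.Kin
open scoped ENNReal

namespace Pool.Agent.H82.BK

variable {d : ℕ}

private lemma avg_meas_pair (m : Vec d) : Measurable fun σ : Vec d => ((m, σ) : Vec d × Vec d) :=
  measurable_const.prodMk measurable_id

private lemma avg_meas_hh (m : Vec d) : Measurable fun σ : Vec d => hh σ m := by
  have h1 : Measurable fun q : Vec d × Vec d => hh q.2 q.1 := measurable_hh
  have h2 := h1.comp (avg_meas_pair m)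
  exact h2

private lemma avg_meas_co (m : Vec d) : Measurable fun σ : Vec d => co m σ := by
  have h1 : Measurable fun q : Vec d × Vec d => co q.1 q.2 := measurable_co
  have h2 := h1.comp (avg_meas_pair m)
  exact h2

private lemma avg_refl_meas (k : Vec d) : Measurable fun σ : Vec d => refl k σ :=
  ((refl k).continuous_of_finiteDimensional).measurable

theorem refl_avg (hd : 1 ≤ d) {m : Vec d} (hm : m ≠ 0) {K : ℝ → ℝ≥0∞} (hK : Measurable K)
    {G : Vec d → ℝ≥0∞} (hG : Measurable G) {R : ℝ → ℝ≥0∞} (hR : Measurable R)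
    (h : ∀ σ : Vec d, nsq σ = 1 → 0 < dot m σ → G (hh σ m) + G (-(hh σ m)) ≤ 2 * R (co m σ)) :
    ∫⁻ σ in {σ : Vec d | 0 < dot m σ}, K (co m σ) * G (hh σ m) ∂(surf d) ≤
      ∫⁻ σ in {σ : Vec d | 0 < dot m σ}, K (co m σ) * R (co m σ) ∂(surf d) := by
  have hS : MeasurableSet {σ : Vec d | 0 < dot m σ} := measurableSet_half m
  have hRp : MeasurePreserving (fun σ : Vec d => refl (dir m) σ) (surf d) (surf d) :=
    refl_preserving hd (nsq_dir hm)
  have hpre : (fun σ : Vec d => refl (dir m) σ) ⁻¹' {σ : Vec d | 0 < dot m σ} =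
      {σ : Vec d | 0 < dot m σ} := by
    ext σ
    simp only [mem_preimage, mem_ofPred_eq, dot_refl_dir hm]
  have hRr : MeasurePreserving (fun σ : Vec d => refl (dir m) σ)
      ((surf d).restrict {σ : Vec d | 0 < dot m σ}) ((surf d).restrict {σ : Vec d | 0 < dot m σ}) := by
    have := hRp.restrict_preimage hS
    rwa [hpre] at this
  have mf : Measurable fun σ : Vec d => K (co m σ) * G (hh σ m) :=
    (hK.comp (avg_meas_co m)).mul (hG.comp (avg_meas_hh m))
  have mf' : Measurable fun σ : Vec d => K (co m σ) * G (-(hh σ m)) :=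
    (hK.comp (avg_meas_co m)).mul (hG.comp (avg_meas_hh m).neg)
  have hsw : ∫⁻ σ in {σ : Vec d | 0 < dot m σ}, K (co m σ) * G (hh σ m) ∂(surf d) =
      ∫⁻ σ in {σ : Vec d | 0 < dot m σ}, K (co m σ) * G (-(hh σ m)) ∂(surf d) := by
    rw [← hRr.lintegral_comp mf]
    refine setLIntegral_congr_fun hS fun σ hσ => ?_
    have hσ' : 0 < dot m σ := hσ
    have e1 : co m (refl (dir m) σ) = co m σ := by
      unfold co
      rw [dot_refl_dir hm]
    simp only [e1, hh_refl hσ']
  have h2 : 2 * ∫⁻ σ in {σ : Vec d | 0 < dot m σ}, K (co m σ) * G (hh σ m) ∂(surf d) ≤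
      2 * ∫⁻ σ in {σ : Vec d | 0 < dot m σ}, K (co m σ) * R (co m σ) ∂(surf d) := by
    calc 2 * ∫⁻ σ in {σ : Vec d | 0 < dot m σ}, K (co m σ) * G (hh σ m) ∂(surf d)
        = (∫⁻ σ in {σ : Vec d | 0 < dot m σ}, K (co m σ) * G (hh σ m) ∂(surf d)) +
          ∫⁻ σ in {σ : Vec d | 0 < dot m σ}, K (co m σ) * G (-(hh σ m)) ∂(surf d) := by
            rw [← hsw, two_mul]
      _ = ∫⁻ σ in {σ : Vec d | 0 < dot m σ},
            (K (co m σ) * G (hh σ m) + K (co m σ) * G (-(hh σ m))) ∂(surf d) :=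
            (lintegral_add_left mf _).symm
      _ ≤ ∫⁻ σ in {σ : Vec d | 0 < dot m σ}, 2 * (K (co m σ) * R (co m σ)) ∂(surf d) := by
            refine lintegral_mono_ae ?_
            filter_upwards [ae_restrict_mem hS, ae_restrict_of_ae surf_ae] with σ hσ hσ1
            rw [← mul_add, mul_left_comm]
            exact mul_le_mul_right (h σ hσ1 hσ) _
      _ = _ := by
            exact lintegral_const_mul (f := fun σ : Vec d => K (co m σ) * R (co m σ)) 2
              ((hK.comp (avg_meas_co m)).mul (hR.comp (avg_meas_co m)))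
  exact (ENNReal.mul_le_mul_iff_right (by norm_num) (by norm_num)).1 h2

end Pool.Agent.H82.BK
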