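import Pool.Agent.H82.BK.Loss
import Pool.Agent.H82.BK.Avg
import Pool.Agent.H82.BK.Pw

/-!
# Module Main: the main gain of an arbitrary background velocity

Claim: `GM ≤ g(v) BB + K g(v) (1+|m|²/a)^s`. Write `ψ(u) = g(v) a^p/(1+|u|²)^p ≥ g(u)`, `X = |h|²/a`, `Y = 2 z·h/a = 2 v·h/a`
(`dot_v_hh`), `|Y| ≤ 2 len v len h/a ≤ 2√X`, `c = co m σ`. The kernel `Kn d γ (bt b ε) c` vanishes unless `2c² ≥ 1`.
With `G(h) = if MainR v h then ofReal (g(v+h)) else 0` show for `2c² ≥ 1`: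
  `G(h)+G(-h) ≤ 2 ofReal( g(v) [c^(d+γ) + L₁ min(R²(1-c), 1)] )`, `R² = 1 + 4|m|²/a`.
 * `X < 1/4`: `g(v±h) ≤ g(v)/(1+X±Y)^p`, `taylor_ineq`: sum `≤ 2 g(v) (1 + L X)`, `1 ≤ c^(d+γ) + (d+γ+1)(1-c)` (`bernoulli_ineq`),
   `X = (|m|²/a)(1-c²)/c² ≤ 4 (|m|²/a)(1-c)`, and everything is `≤ const`, so `≤ L₁ min(R²(1-c),1)`.
 * `X ≥ 1/4`: then `MainR v h` gives `|v+h|² ≥ a/4`, `1+|v+h|² ≥ a/4`, `g(v+h) ≤ 4^p g(v)`, the same for `-h`
   (`nsq (-h) = nsq h`), and `min(R²(1-c),1) ≥ min(X,1) ≥ 1/4` (`R²(1-c) ≥ 4(|m|²/a)(1-c) ≥ X`).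
By `refl_avg`: `GM ≤ ∫ ofReal(Kn) ofReal(g(v)[c^(d+γ)+L₁ min]) = ofReal(g v) BB + ∫ ofReal(Kn L₁ g(v) min(R²(1-c),1))`
(`BB_eq`). For `2c² ≥ 1`, `c < 1`: `Kn ≤ 2^(d-1) 4 · 2C (1-(2c²-1))^(-B)`, `1-(2c²-1) = 2(1-c)(1+c) ≥ 1-c`, `B = (d-1)/2+s ≥ 0`
(`bt_le`; `c^(-2-γ) ≤ 4` as `-2-γ ≤ 0`, `≥ -4`), and at `c = 1` the minimum is `0`. So the last integral is
`≤ L₂ g(v) ∫ aw B R m 0 σ` with `cosTh m 0 σ = dot (dirk m 0) σ = c`, and `AngInt` (`H.an`) gives `≤ L₂ g(v) Ca R^(2s)`,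
`R^(2s) = (1+4|m|²/a)^s ≤ 4^s (1+|m|²/a)^s`.
-/

set_option autoImplicit false

open MeasureTheory Set Filter Topology Pool.Agent.H25.Kin
open scoped ENNReal

namespace Pool.Agent.H82.BK

variable {d : ℕ}

/-- the pointwise bound `g(v+h) ≤ g(v) ((1+X+Y)^p)⁻¹` -/
private lemma main_pt {p : ℕ} {g : Vec d → ℝ} {v u : Vec d}
    (hψ : ∀ u, g u * (1 + nsq u) ^ p ≤ g v * (1 + nsq v) ^ p) {y : ℝ} (hy : 0 < y)
    (he : 1 + nsq u = (1 + nsq v) * y) : g u ≤ g v * (y ^ p)⁻¹ := by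
  have ha : 0 < 1 + nsq v := by have := sq_nonneg' v; linarith
  have h := hψ u
  rw [he, mul_pow] at h
  have hyp : 0 < y ^ p := pow_pos hy p
  have hap : 0 < (1 + nsq v) ^ p := pow_pos ha p
  rw [← div_eq_mul_inv, le_div_iff₀ hyp]
  by_contra hc
  push Not at hc
  have : g v * (1 + nsq v) ^ p < g u * y ^ p * (1 + nsq v) ^ p :=
    mul_lt_mul_of_pos_right hc hap
  nlinarith

/-- the real pointwise estimate of module Main -/
private lemma main_pointwise {γ : ℝ} (p : ℕ) (he : 0 ≤ (d : ℝ) + γ) :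
    ∃ L₁ : ℝ, 0 ≤ L₁ ∧ ∀ g : Vec d → ℝ, (∀ u, 0 ≤ g u) → ∀ v : Vec d,
      (∀ u, g u * (1 + nsq u) ^ p ≤ g v * (1 + nsq v) ^ p) → ∀ m σ : Vec d, nsq σ = 1 →
      0 < dot m σ → 1 / 2 ≤ co m σ ^ 2 → ∀ G : Vec d → ℝ,
      (∀ h, MainR v h → G h = g (v + h)) → (∀ h, ¬ MainR v h → G h = 0) →
      G (hh σ m) + G (-(hh σ m)) ≤ 2 * (g v * (co m σ ^ ((d : ℝ) + γ) +
        L₁ * min ((1 + 4 * (nsq m / (1 + nsq v))) * (1 - co m σ)) 1)) := by
  obtain ⟨L, hL0, hL⟩ := taylor_ineq p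
  refine ⟨((d : ℝ) + γ) + 1 + L + 4 ^ (p + 1), by positivity, ?_⟩
  intro g hg0 v hψ m σ hσ hm hc2 G hG1 hG0
  set h := hh σ m with hh_def
  set c := co m σ with hc_def
  set a := 1 + nsq v with ha_def
  set e := (d : ℝ) + γ with he_def
  have ha : 0 < a := by have := sq_nonneg' v; rw [ha_def]; linarith
  have ha' : 1 + nsq v ≠ 0 := ha.ne'
  have hc0 : 0 < c := co_pos hm
  have hc1 : c ≤ 1 := co_le_one hσ
  have hce : 0 ≤ c ^ e := Real.rpow_nonneg hc0.le _
  have hgv := hg0 v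
  have hmm : 0 ≤ nsq m / a := div_nonneg (sq_nonneg' m) ha.le
  set Q := nsq m / a with hQ
  set mn := min ((1 + 4 * Q) * (1 - c)) 1 with hmn
  have h1c : 0 ≤ 1 - c := by linarith
  have hmn0 : 0 ≤ mn := le_min (mul_nonneg (by linarith) h1c) zero_le_one
  have hX : nsq h / a = Q * ((1 - c ^ 2) / c ^ 2) := by
    rw [hh_def, nsq_hh hσ hm, hQ]; ring
  set X := nsq h / a with hXd
  have hX0 : 0 ≤ X := div_nonneg (sq_nonneg' _) ha.le
  have hXle : X ≤ 4 * Q * (1 - c) := by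
    rw [hX]
    have h3 : (1 - c ^ 2) / c ^ 2 ≤ 4 * (1 - c) := by
      rw [div_le_iff₀ (by positivity)]
      nlinarith
    calc Q * ((1 - c ^ 2) / c ^ 2) ≤ Q * (4 * (1 - c)) := mul_le_mul_of_nonneg_left h3 hmm
      _ = 4 * Q * (1 - c) := by ring
  -- G is at most g on both points
  have hGle : ∀ k, G k ≤ g (v + k) := by
    intro k
    by_cases hk : MainR v k
    · rw [hG1 k hk]
    · rw [hG0 k hk]; exact hg0 _
  have hL1 : 0 ≤ L * mn := mul_nonneg hL0 hmn0
  have he1 : 0 ≤ (e + 1) * mn := mul_nonneg (by linarith) hmn0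
  have h4p : (0 : ℝ) ≤ 4 ^ (p + 1) * mn := mul_nonneg (by positivity) hmn0
  rcases lt_or_ge X (1 / 4) with hX4 | hX4
  · -- small displacement
    set Y := 2 * dot v h / a with hY
    have hY2 : Y ^ 2 ≤ 4 * X := by
      have h5 := dot_sq_le v h
      have h6 : nsq v ≤ a := by rw [ha_def]; linarith
      have h7 : dot v h ^ 2 ≤ a * nsq h := h5.trans (mul_le_mul_of_nonneg_right h6 (sq_nonneg' _))
      rw [hY, hXd, div_pow, mul_pow, div_le_iff₀ (by positivity)]
      have : 4 * (nsq h / a) * a ^ 2 = 4 * (a * nsq h) := by field_simp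
      rw [this]
      linarith
    have hYabs : |Y| ≤ 2 * Real.sqrt X := by
      rw [show 2 * Real.sqrt X = Real.sqrt (4 * X) by
        rw [Real.sqrt_mul (by norm_num), show Real.sqrt 4 = 2 by
          rw [show (4 : ℝ) = 2 ^ 2 by norm_num]; exact Real.sqrt_sq (by norm_num)]]
      exact Real.abs_le_sqrt hY2
    obtain ⟨p1, p2, h8⟩ := hL X Y hX0 hX4 hYabs
    have e1 : 1 + nsq (v + h) = a * (1 + X + Y) := by
      rw [hh_def, one_add_nsq_add v hm, ← dot_v_hh v hm, ← hh_def, hXd, hY, ha_def]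
      field_simp
    have e2 : 1 + nsq (v + -h) = a * (1 + X - Y) := by
      rw [← sub_eq_add_neg, hh_def, one_add_nsq_sub v hm, ← dot_v_hh v hm, ← hh_def, hXd, hY,
        ha_def]
      field_simp
    have g1 := main_pt hψ p1 e1
    have g2 := main_pt hψ p2 e2
    have g3 : G h + G (-h) ≤ g v * (2 * (1 + L * X)) := by
      calc G h + G (-h) ≤ g v * ((1 + X + Y) ^ p)⁻¹ + g v * ((1 + X - Y) ^ p)⁻¹ :=
            add_le_add ((hGle _).trans g1) ((hGle _).trans g2)
        _ = g v * (((1 + X + Y) ^ p)⁻¹ + ((1 + X - Y) ^ p)⁻¹) := by ring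
        _ ≤ _ := mul_le_mul_of_nonneg_left h8 hgv
    have h9 := bernoulli_ineq hc0 hc1 he
    -- 1 + L X ≤ c^e + L₁ mn
    have h10 : 1 + L * X ≤ c ^ e + (e + 1 + L) * mn := by
      rcases le_total ((1 + 4 * Q) * (1 - c)) 1 with hq | hq
      · have : mn = (1 + 4 * Q) * (1 - c) := min_eq_left hq
        rw [this]
        have h11 : L * X ≤ L * (4 * Q * (1 - c)) := mul_le_mul_of_nonneg_left hXle hL0
        have h12 : 0 ≤ (e + 1) * (4 * Q * (1 - c)) := by positivity
        have h13 : 0 ≤ L * (1 - c) := mul_nonneg hL0 h1c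
        nlinarith
      · have : mn = 1 := min_eq_right hq
        rw [this]
        have h11 : L * X ≤ L * 1 := mul_le_mul_of_nonneg_left (by linarith) hL0
        have h12 : (e + 1) * (1 - c) ≤ (e + 1) * 1 :=
          mul_le_mul_of_nonneg_left (by linarith) (by linarith)
        linarith
    calc G h + G (-h) ≤ g v * (2 * (1 + L * X)) := g3
      _ ≤ g v * (2 * (c ^ e + (e + 1 + L + 4 ^ (p + 1)) * mn)) := by
          apply mul_le_mul_of_nonneg_left _ hgv
          nlinarith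
      _ = _ := by ring
  · -- large displacement
    have hnh : a / 4 ≤ nsq h := by
      have : 1 / 4 * a ≤ X * a := mul_le_mul_of_nonneg_right hX4 ha.le
      rw [hXd, div_mul_cancel₀ _ ha.ne'] at this
      linarith
    have key : ∀ k, nsq k = nsq h → G k ≤ 4 ^ p * g v := by
      intro k hk
      by_cases hkM : MainR v k
      · rw [hG1 k hkM]
        unfold MainR at hkM
        have h5 : a / 4 ≤ nsq (v + k) := by
          by_contra h6
          push Not at h6
          exact hkM ⟨h6, by rw [hk]; exact hnh⟩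
        have h7 : (1 / 4 : ℝ) ≤ (1 + nsq (v + k)) / a := by
          rw [le_div_iff₀ ha]; linarith
        have h8 : 0 < (1 + nsq (v + k)) / a := by linarith
        have h9 := main_pt (u := v + k) hψ h8 (by rw [ha_def]; field_simp)
        have h10 : (((1 + nsq (v + k)) / a) ^ p)⁻¹ ≤ 4 ^ p := by
          rw [← inv_pow]
          apply pow_le_pow_left₀ (by positivity)
          rw [inv_le_comm₀ h8 (by norm_num)]
          rw [show (4 : ℝ)⁻¹ = 1 / 4 by norm_num]
          exact h7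
        calc g (v + k) ≤ g v * (((1 + nsq (v + k)) / a) ^ p)⁻¹ := h9
          _ ≤ g v * 4 ^ p := mul_le_mul_of_nonneg_left h10 hgv
          _ = _ := by ring
      · rw [hG0 k hkM]; positivity
    have k1 := key h rfl
    have k2 := key (-h) (sq_neg h)
    have hmn4 : 1 / 4 ≤ mn := by
      apply le_min _ (by norm_num)
      have : (1 + 4 * Q) * (1 - c) = (1 - c) + 4 * Q * (1 - c) := by ring
      rw [this]
      linarith
    have h5 : (4 : ℝ) ^ p ≤ 4 ^ (p + 1) * mn := by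
      rw [pow_succ]
      have : (0 : ℝ) < 4 ^ p := by positivity
      nlinarith
    calc G h + G (-h) ≤ 4 ^ p * g v + 4 ^ p * g v := add_le_add k1 k2
      _ = g v * (2 * 4 ^ p) := by ring
      _ ≤ g v * (2 * (c ^ e + (e + 1 + L + 4 ^ (p + 1)) * mn)) := by
          apply mul_le_mul_of_nonneg_left _ hgv
          nlinarith
      _ = _ := by ring

/-- the kernel bound: `Kn * min ≤ const * aw` -/
private lemma main_kernel {γ s : ℝ} {b : ℝ → ℝ} {C Ca : ℝ} (H : Hyp d γ s b C Ca)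
    {m σ : Vec d} (hσ : nsq σ = 1) (hm : 0 < dot m σ) {ε : ℝ} (R : ℝ) :
    Kn d γ (bt b ε) (co m σ) * min (R ^ 2 * (1 - co m σ)) 1 ≤
      (2 ^ (d - 1) * 4 * (2 * C)) * aw (((d : ℝ) - 1) / 2 + s) R m 0 σ := by
  have hcos : cosTh m 0 σ = co m σ := by
    unfold cosTh co; rw [sub_zero, dot_comm]
  unfold aw
  rw [hcos]
  set c := co m σ with hc_def
  have hc0 : 0 < c := co_pos hm
  have hc1 : c ≤ 1 := co_le_one hσ
  have hC0 : 0 ≤ C := H.bd.1
  have h1c : 0 ≤ 1 - c := by linarith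
  have hB := H.β0
  set B := ((d : ℝ) - 1) / 2 + s with hBd
  have hmn0 : 0 ≤ min (R ^ 2 * (1 - c)) 1 := le_min (mul_nonneg (sq_nonneg _) h1c) zero_le_one
  have hr : 0 ≤ (1 - c) ^ (-B) := Real.rpow_nonneg h1c _
  rcases lt_or_ge (2 * c ^ 2 - 1) 0 with h2 | h2
  · have : Kn d γ (bt b ε) c = 0 := by
      unfold Kn; rw [bt_neg h2, mul_zero]
    rw [this, zero_mul]
    positivity
  · rcases eq_or_lt_of_le hc1 with h3 | h3
    · have : min (R ^ 2 * (1 - c)) 1 = 0 := by
        rw [h3, sub_self, mul_zero]; exact min_eq_left zero_le_one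
      rw [this, mul_zero, mul_zero, mul_zero]
    · rw [← mul_assoc]
      apply mul_le_mul_of_nonneg_right _ hmn0
      unfold Kn
      have h4 : 2 * c ^ 2 - 1 < 1 := by nlinarith
      have h5 := bt_le (ε := ε) H.bd hB h2 h4
      have h6 : (1 - (2 * c ^ 2 - 1)) ^ (-B) ≤ (1 - c) ^ (-B) := by
        apply Real.rpow_le_rpow_of_nonpos (by linarith) _ (by linarith)
        nlinarith
      have h7 : bt b ε (2 * c ^ 2 - 1) ≤ 2 * C * (1 - c) ^ (-B) :=
        h5.trans (mul_le_mul_of_nonneg_left h6 (by linarith))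
      have h8 : c ^ (-2 - γ) ≤ 4 := by
        have hg1 := H.g1
        have hg2 := H.g2
        have hcc : (1 / 2 : ℝ) ≤ c ^ 2 := by linarith
        have h9 : c ^ (-2 - γ) = (c ^ 2) ^ ((-2 - γ) / 2) := by
          rw [← Real.rpow_natCast c 2, ← Real.rpow_mul hc0.le]
          congr 1; push_cast; ring
        rw [h9]
        calc (c ^ 2) ^ ((-2 - γ) / 2) ≤ (1 / 2 : ℝ) ^ ((-2 - γ) / 2) :=
              Real.rpow_le_rpow_of_nonpos (by norm_num) hcc (by linarith)
          _ ≤ (1 / 2 : ℝ) ^ (-2 : ℝ) :=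
              Real.rpow_le_rpow_of_exponent_ge (by norm_num) (by norm_num) (by linarith)
          _ = 4 := by
              rw [Real.rpow_neg (by norm_num)]; norm_num
      have h10 : 0 ≤ c ^ (-2 - γ) := Real.rpow_nonneg hc0.le _
      calc 2 ^ (d - 1) * c ^ (-2 - γ) * bt b ε (2 * c ^ 2 - 1)
          ≤ 2 ^ (d - 1) * c ^ (-2 - γ) * (2 * C * (1 - c) ^ (-B)) :=
            mul_le_mul_of_nonneg_left h7 (by positivity)
        _ ≤ 2 ^ (d - 1) * 4 * (2 * C * (1 - c) ^ (-B)) := by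
            apply mul_le_mul_of_nonneg_right _ (by positivity)
            exact mul_le_mul_of_nonneg_left h8 (by positivity)
        _ = 2 ^ (d - 1) * 4 * (2 * C) * (1 - c) ^ (-B) := by ring

theorem main_bound {γ s : ℝ} {b : ℝ → ℝ} {C Ca : ℝ} (H : Hyp d γ s b C Ca) (p : ℕ) :
    ∃ K : ℝ, 0 ≤ K ∧ ∀ g : Vec d → ℝ, Measurable g → (∀ u, 0 ≤ g u) → ∀ v : Vec d,
      (∀ u, g u * (1 + nsq u) ^ p ≤ g v * (1 + nsq v) ^ p) → ∀ m : Vec d, m ≠ 0 → ∀ ε > 0,
      GM γ b ε g v m ≤ ENNReal.ofReal (g v) * BB b ε (dir m) +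
        ENNReal.ofReal (K * g v * (1 + nsq m / (1 + nsq v)) ^ s) := by
  have hd2 : (2 : ℝ) ≤ d := by exact_mod_cast H.hd
  have he : 0 ≤ (d : ℝ) + γ := by have := H.g1; linarith
  obtain ⟨L₁, hL₁, hpw⟩ := main_pointwise (d := d) (γ := γ) p he
  have hC0 : 0 ≤ C := H.bd.1
  have hCa0 : 0 ≤ Ca := H.an.1
  have hs := H.hs
  set L₂ := L₁ * (2 ^ (d - 1) * 4 * (2 * C)) with hL₂
  have hL₂0 : 0 ≤ L₂ := by positivity
  refine ⟨L₂ * Ca * 4 ^ s, by positivity, ?_⟩
  intro g hgm hg0 v hψ m hm ε hε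
  classical
  have hgv := hg0 v
  have ha : 0 < 1 + nsq v := by have := sq_nonneg' v; linarith
  set Q := nsq m / (1 + nsq v) with hQ
  have hQ0 : 0 ≤ Q := div_nonneg (sq_nonneg' m) ha.le
  set R := Real.sqrt (1 + 4 * Q) with hR
  have hR2 : R ^ 2 = 1 + 4 * Q := Real.sq_sqrt (by linarith)
  have hRpos : 0 < R := Real.sqrt_pos.2 (by linarith)
  -- the functions
  let K : ℝ → ℝ≥0∞ := fun c => ENNReal.ofReal (Kn d γ (bt b ε) c)
  let G : Vec d → ℝ≥0∞ := fun h => if MainR v h then ENNReal.ofReal (g (v + h)) else 0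
  let F : ℝ → ℝ := fun c => g v * (c ^ ((d : ℝ) + γ) + L₁ * min ((1 + 4 * Q) * (1 - c)) 1)
  let RR : ℝ → ℝ≥0∞ := fun c => if 1 / 2 ≤ c ^ 2 then ENNReal.ofReal (F c) else ⊤
  have hbt := measurable_bt (b := b) H.bm ε
  have hKm' : Measurable (Kn d γ (bt b ε)) := by
    unfold Kn
    have h1 : Measurable fun c : ℝ => c ^ (-2 - γ) := measurable_id.pow_const _
    have h2 : Measurable fun c : ℝ => bt b ε (2 * c ^ 2 - 1) :=
      hbt.comp (by fun_prop)
    exact (measurable_const.mul h1).mul h2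
  have hKm : Measurable K := hKm'.ennreal_ofReal
  have hmainR : MeasurableSet {h : Vec d | MainR v h} := by
    unfold MainR
    have h1 : Measurable fun h : Vec d => nsq (v + h) := by unfold nsq; fun_prop
    have h2 : Measurable fun h : Vec d => nsq h := by unfold nsq; fun_prop
    exact ((measurableSet_lt h1 measurable_const).inter
      (measurableSet_le measurable_const h2)).compl
  have hGm : Measurable G := by
    apply Measurable.ite hmainR _ measurable_const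
    exact (hgm.comp (measurable_const.add measurable_id)).ennreal_ofReal
  have hFm : Measurable F := by
    have h1 : Measurable fun c : ℝ => c ^ ((d : ℝ) + γ) := measurable_id.pow_const _
    have h2 : Measurable fun c : ℝ => min ((1 + 4 * Q) * (1 - c)) 1 := by fun_prop
    exact measurable_const.mul (h1.add (measurable_const.mul h2))
  have hRRm : Measurable RR := by
    apply Measurable.ite _ hFm.ennreal_ofReal measurable_const
    exact measurableSet_le measurable_const (by fun_prop)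
  -- pointwise inequality
  have hpt : ∀ σ : Vec d, nsq σ = 1 → 0 < dot m σ →
      G (hh σ m) + G (-(hh σ m)) ≤ 2 * RR (co m σ) := by
    intro σ hσ hmσ
    by_cases hc : 1 / 2 ≤ co m σ ^ 2
    · have hRR : RR (co m σ) = ENNReal.ofReal (F (co m σ)) := if_pos hc
      rw [hRR]
      let G' : Vec d → ℝ := fun h => if MainR v h then g (v + h) else 0
      have hGG : ∀ h, G h = ENNReal.ofReal (G' h) := by
        intro h
        by_cases hM : MainR v h
        · simp only [G, G', if_pos hM]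
        · simp only [G, G', if_neg hM, ENNReal.ofReal_zero]
      have hG'0 : ∀ h, 0 ≤ G' h := by
        intro h
        by_cases hM : MainR v h
        · simp only [G', if_pos hM]; exact hg0 _
        · simp only [G', if_neg hM]; exact le_rfl
      have h5 := hpw g hg0 v hψ m σ hσ hmσ hc G' (fun h hM => if_pos hM) (fun h hM => if_neg hM)
      rw [hGG, hGG, ← ENNReal.ofReal_add (hG'0 _) (hG'0 _)]
      have h6 : (2 : ℝ≥0∞) * ENNReal.ofReal (F (co m σ)) = ENNReal.ofReal (2 * F (co m σ)) := by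
        rw [ENNReal.ofReal_mul (p := 2) (by norm_num)]
        simp
      rw [h6]
      exact ENNReal.ofReal_le_ofReal h5
    · have hRR : RR (co m σ) = ⊤ := if_neg hc
      rw [hRR, ENNReal.mul_top (by norm_num)]
      exact le_top
  have hGM : GM γ b ε g v m =
      ∫⁻ σ in {σ : Vec d | 0 < dot m σ}, K (co m σ) * G (hh σ m) ∂(surf d) := by
    unfold GM
    apply lintegral_congr
    intro σ
    by_cases hM : MainR v (hh σ m)
    · simp only [K, G, if_pos hM]
      rw [ENNReal.ofReal_mul' (hg0 _)]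
    · simp only [K, G, if_neg hM, mul_zero]
  have hS := measurableSet_half m
  rw [hGM]
  refine (refl_avg H.hd1 hm hKm hGm hRRm hpt).trans ?_
  have hcom : Measurable fun σ : Vec d => co m σ :=
    measurable_co.comp (measurable_const.prodMk measurable_id)
  -- pointwise split
  have hsplit : ∀ᵐ σ ∂((surf d).restrict {σ : Vec d | 0 < dot m σ}),
      K (co m σ) * RR (co m σ) ≤
        ENNReal.ofReal (g v) * ENNReal.ofReal (Kn d γ (bt b ε) (co m σ) *
          co m σ ^ ((d : ℝ) + γ)) +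
        ENNReal.ofReal (g v * L₂) * ENNReal.ofReal (aw (((d : ℝ) - 1) / 2 + s) R m 0 σ) := by
    filter_upwards [ae_restrict_mem hS, ae_restrict_of_ae (surf_ae (d := d))] with σ hmσ hσ
    have hc0 : 0 < co m σ := co_pos hmσ
    have hc1 : co m σ ≤ 1 := co_le_one hσ
    have haw := aw_nonneg (((d : ℝ) - 1) / 2 + s) R (v := m) (w := 0) hσ
    have hker := main_kernel H hσ hmσ (ε := ε) R
    rw [hR2] at hker
    have hce : 0 ≤ co m σ ^ ((d : ℝ) + γ) := Real.rpow_nonneg hc0.le _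
    have hmn0 : 0 ≤ min ((1 + 4 * Q) * (1 - co m σ)) 1 :=
      le_min (mul_nonneg (by linarith) (by linarith)) zero_le_one
    have hKn0 : 0 ≤ Kn d γ (bt b ε) (co m σ) := by
      unfold Kn
      have h1 : 0 ≤ bt b ε (2 * co m σ ^ 2 - 1) := by
        apply bt_nonneg H.bd hε
        · nlinarith
        · nlinarith
      have h2 : 0 ≤ co m σ ^ (-2 - γ) := Real.rpow_nonneg hc0.le _
      positivity
    have hF0 : 0 ≤ F (co m σ) := by
      apply mul_nonneg hgv
      exact add_nonneg hce (mul_nonneg hL₁ hmn0)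
    have h1 : K (co m σ) * RR (co m σ) ≤ ENNReal.ofReal (Kn d γ (bt b ε) (co m σ) *
        F (co m σ)) := by
      by_cases hc : 1 / 2 ≤ co m σ ^ 2
      · have hRR : RR (co m σ) = ENNReal.ofReal (F (co m σ)) := if_pos hc
        rw [hRR, ENNReal.ofReal_mul hKn0]
      · have hz : Kn d γ (bt b ε) (co m σ) = 0 := by
          unfold Kn
          rw [bt_neg (by push Not at hc; linarith), mul_zero]
        have : K (co m σ) = 0 := by
          simp only [K, hz, ENNReal.ofReal_zero]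
        rw [this, zero_mul]
        exact bot_le
    refine h1.trans ?_
    rw [← ENNReal.ofReal_mul hgv, ← ENNReal.ofReal_mul (by positivity),
      ← ENNReal.ofReal_add (by positivity) (by positivity)]
    apply ENNReal.ofReal_le_ofReal
    have h3 : g v * L₁ * (Kn d γ (bt b ε) (co m σ) * min ((1 + 4 * Q) * (1 - co m σ)) 1) ≤
        g v * L₁ * ((2 ^ (d - 1) * 4 * (2 * C)) * aw (((d : ℝ) - 1) / 2 + s) R m 0 σ) :=
      mul_le_mul_of_nonneg_left hker (by positivity)
    calc Kn d γ (bt b ε) (co m σ) * F (co m σ)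
        = g v * (Kn d γ (bt b ε) (co m σ) * co m σ ^ ((d : ℝ) + γ)) +
          g v * L₁ * (Kn d γ (bt b ε) (co m σ) * min ((1 + 4 * Q) * (1 - co m σ)) 1) := by
          simp only [F]; ring
      _ ≤ g v * (Kn d γ (bt b ε) (co m σ) * co m σ ^ ((d : ℝ) + γ)) +
          g v * L₁ * ((2 ^ (d - 1) * 4 * (2 * C)) * aw (((d : ℝ) - 1) / 2 + s) R m 0 σ) := by
          linarith
      _ = _ := by rw [hL₂]; ring
  refine (lintegral_mono_ae hsplit).trans ?_
  have hm1 : Measurable fun σ : Vec d => ENNReal.ofReal (g v) *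
      ENNReal.ofReal (Kn d γ (bt b ε) (co m σ) * co m σ ^ ((d : ℝ) + γ)) := by
    apply Measurable.const_mul
    exact ((hKm'.comp hcom).mul (hcom.pow_const _)).ennreal_ofReal
  rw [lintegral_add_left hm1, lintegral_const_mul' _ _ ENNReal.ofReal_ne_top,
    lintegral_const_mul' _ _ ENNReal.ofReal_ne_top, BB_eq H.hd γ H.bm ε hm]
  apply add_le_add le_rfl
  obtain ⟨hint, hle⟩ := H.an.2 m 0 hm R hRpos
  have hnn : 0 ≤ᵐ[surf d] fun σ => aw (((d : ℝ) - 1) / 2 + s) R m 0 σ := by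
    filter_upwards [surf_ae] with σ hσ
    exact aw_nonneg _ _ hσ
  have h5 : ∫⁻ σ in {σ : Vec d | 0 < dot m σ},
      ENNReal.ofReal (aw (((d : ℝ) - 1) / 2 + s) R m 0 σ) ∂(surf d) ≤
      ENNReal.ofReal (Ca * R ^ (2 * s)) := by
    refine (setLIntegral_le_lintegral _ _).trans ?_
    rw [← ofReal_integral_eq_lintegral_ofReal hint hnn]
    exact ENNReal.ofReal_le_ofReal hle
  have h6 : R ^ (2 * s) ≤ 4 ^ s * (1 + Q) ^ s := by
    rw [Real.rpow_mul hRpos.le, Real.rpow_ofNat, hR2, ← Real.mul_rpow (by norm_num) (by linarith)]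
    apply Real.rpow_le_rpow (by linarith) (by linarith) hs.le
  calc ENNReal.ofReal (g v * L₂) * ∫⁻ σ in {σ : Vec d | 0 < dot m σ},
        ENNReal.ofReal (aw (((d : ℝ) - 1) / 2 + s) R m 0 σ) ∂(surf d)
      ≤ ENNReal.ofReal (g v * L₂) * ENNReal.ofReal (Ca * R ^ (2 * s)) := mul_le_mul' le_rfl h5
    _ = ENNReal.ofReal (g v * L₂ * (Ca * R ^ (2 * s))) := by
        rw [← ENNReal.ofReal_mul (p := g v * L₂) (by positivity)]
    _ ≤ _ := by
        apply ENNReal.ofReal_le_ofReal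
        calc g v * L₂ * (Ca * R ^ (2 * s)) ≤ g v * L₂ * (Ca * (4 ^ s * (1 + Q) ^ s)) := by
              apply mul_le_mul_of_nonneg_left _ (by positivity)
              exact mul_le_mul_of_nonneg_left h6 hCa0
          _ = _ := by ring

end Pool.Agent.H82.BK
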