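import Pool.Agent.H82.BK.Touch
import Pool.Agent.H82.BK.Barrier

/-!
# Module MaxPr: THEOREM 2, the maximum principle with an integrable rate

Fix `t* < T` and `η > 0`, `B` from `barrier_fn` on `[0,t*]`. If `F(t,x,v) = f t x v (1+nsq v)^p < B t` fails somewhere on
`[0,t*]`, take the touching point of `first_touch`. For small `τ > 0`:
`B t₀ - B(t₀-τ) < F(t₀,x₀,v₀) - F(t₀-τ, x₀-τv₀, v₀) = (1+nsq v₀)^p (τ Q t₀ x₀ v₀ + o(τ))` (`char_deriv`), and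
`B t₀ - B(t₀-τ) ≥ B(t₀-τ) τ (η + K m t₀)`. Divide by `τ → 0+` (continuity of `B` at `t₀` from the left):
`B t₀ (η + K m t₀) ≤ (1+nsq v₀)^p Q t₀ x₀ v₀ ≤ (1+nsq v₀)^p K f(t₀,x₀,v₀) m t₀ = K B t₀ m t₀`, contradiction with `η > 0`.
Hence `F < B` on `[0,t*]` for every `η > 0`; let `η → 0+` in the upper bound of `B`. (`A₀ ≥ 0` because `f ≥ 0`.)
-/

set_option autoImplicit false

open MeasureTheory Set Filter Topology Pool.Agent.H25.Kin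
open scoped ENNReal

namespace Pool.Agent.H82.BK

variable {d : ℕ}

private lemma mp_deriv_nonpos {g : ℝ → ℝ} {g' : ℝ} (hg : HasDerivAt g g' 0)
    (h : ∀ᶠ τ in 𝓝[>] (0 : ℝ), g τ ≤ g 0) : g' ≤ 0 := by
  have h1 := hg.tendsto_slope_zero_right
  refine le_of_tendsto h1 ?_
  filter_upwards [h, self_mem_nhdsWithin] with τ h2 h3
  have h3' : 0 < τ := h3
  rw [zero_add, smul_eq_mul]
  exact mul_nonpos_of_nonneg_of_nonpos (inv_nonneg.2 h3'.le) (by linarith)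

private lemma mp_lt {T : ℝ} {Q f : ℝ → Vec d → Vec d → ℝ} (hf : IsClassicalSol T Q f) (p : ℕ)
    {K : ℝ} {m : ℝ → ℝ}
    (hQ : ∀ t ∈ Ioo 0 T, ∀ x v, (∀ u, f t x u * (1 + nsq u) ^ p ≤ f t x v * (1 + nsq v) ^ p) →
      Q t x v ≤ K * f t x v * m t)
    {T₁ : ℝ} (hT₀ : 0 < T₁) (hT₁ : T₁ < T) {B : ℝ → ℝ} (hB : ContinuousOn B (Icc 0 T₁))
    (hB0 : ∀ t ∈ Icc 0 T₁, 0 < B t) (h0 : ∀ x v, f 0 x v * (1 + nsq v) ^ p < B 0)
    {η : ℝ} (hη : 0 < η)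
    (hinc : ∀ t₀ ∈ Ioc 0 T₁, ∀ᶠ τ in 𝓝[>] (0 : ℝ), B (t₀ - τ) * (1 + τ * (η + K * m t₀)) ≤ B t₀)
    (hc : ∀ t₀ ∈ Ioc 0 T₁, 0 ≤ η + K * m t₀) :
    ∀ t ∈ Icc 0 T₁, ∀ x v, f t x v * (1 + nsq v) ^ p < B t := by
  by_contra hcon
  push Not at hcon
  obtain ⟨t₀, ht₀, x₀, v₀, heq, hlt, hle⟩ := first_touch hf p hT₀.le hT₁ hB hB0 h0 hcon
  have htT : t₀ ∈ Ioo 0 T := ⟨ht₀.1, ht₀.2.trans_lt hT₁⟩
  have hd := char_deriv hf htT x₀ v₀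
  set W : ℝ := (1 + nsq v₀) ^ p with hW
  have hW0 : 0 < W := by
    have : 0 ≤ nsq v₀ := Finset.sum_nonneg fun i _ => sq_nonneg _
    positivity
  set c : ℝ := η + K * m t₀ with hcdef
  have hc0 : 0 ≤ c := hc t₀ ht₀
  have hneg : HasDerivAt (fun τ : ℝ => f (t₀ + -τ) (x₀ + (-τ) • v₀) v₀) (-(Q t₀ x₀ v₀)) 0 := by
    have hn : HasDerivAt (fun τ : ℝ => -τ) (-1) 0 := hasDerivAt_neg' (0 : ℝ)
    have hd' : HasDerivAt (fun τ : ℝ => f (t₀ + τ) (x₀ + τ • v₀) v₀) (Q t₀ x₀ v₀) (-(0 : ℝ)) := by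
      simpa using hd
    have := hd'.comp (0 : ℝ) hn
    simpa [Function.comp_def] using this
  have hlin : HasDerivAt (fun τ : ℝ => 1 + τ * c) c 0 := by
    simpa using ((hasDerivAt_id (0 : ℝ)).mul_const c).const_add 1
  have hg : HasDerivAt (fun τ : ℝ => f (t₀ + -τ) (x₀ + (-τ) • v₀) v₀ * W * (1 + τ * c))
      (-(Q t₀ x₀ v₀) * W + f t₀ x₀ v₀ * W * c) 0 := by
    have h1 := hneg.mul_const W
    have h2 : HasDerivAt (fun τ : ℝ => f (t₀ + -τ) (x₀ + (-τ) • v₀) v₀ * W * (1 + τ * c))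
      (-(Q t₀ x₀ v₀) * W * (1 + 0 * c) + f (t₀ + -0) (x₀ + (-(0 : ℝ)) • v₀) v₀ * W * c) 0 :=
      h1.mul hlin
    exact h2.congr_deriv (by simp)
  have hkey : -(Q t₀ x₀ v₀) * W + f t₀ x₀ v₀ * W * c ≤ 0 := by
    refine mp_deriv_nonpos hg ?_
    filter_upwards [hinc t₀ ht₀, Ioo_mem_nhdsGT ht₀.1] with τ h1 h2
    have h3 : f (t₀ + -τ) (x₀ + (-τ) • v₀) v₀ * W < B (t₀ - τ) := by
      have := hlt (t₀ - τ) ⟨by linarith [h2.2], by linarith [h2.1]⟩ (x₀ + (-τ) • v₀) v₀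
      rw [sub_eq_add_neg] at this ⊢
      exact this
    have h4 : 0 ≤ 1 + τ * c := by
      have := mul_nonneg h2.1.le hc0
      linarith
    calc f (t₀ + -τ) (x₀ + (-τ) • v₀) v₀ * W * (1 + τ * c) ≤ B (t₀ - τ) * (1 + τ * c) :=
          mul_le_mul_of_nonneg_right h3.le h4
      _ ≤ B t₀ := h1
      _ = f (t₀ + -0) (x₀ + (-(0 : ℝ)) • v₀) v₀ * W * (1 + 0 * c) := by
          rw [← heq]; simp
  have hQ1 := hQ t₀ htT x₀ v₀ (fun u => by rw [← hW, heq]; exact hle x₀ u)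
  have hBpos : 0 < f t₀ x₀ v₀ * W := by
    rw [heq]; exact hB0 t₀ ⟨ht₀.1.le, ht₀.2⟩
  have h5 : Q t₀ x₀ v₀ * W ≤ K * f t₀ x₀ v₀ * m t₀ * W := mul_le_mul_of_nonneg_right hQ1 hW0.le
  have h6 : f t₀ x₀ v₀ * W * c = f t₀ x₀ v₀ * W * η + K * f t₀ x₀ v₀ * m t₀ * W := by
    rw [hcdef]; ring
  have h7 : 0 < f t₀ x₀ v₀ * W * η := mul_pos hBpos hη
  linarith

theorem max_principle {T : ℝ} {Q f : ℝ → Vec d → Vec d → ℝ} (hf : IsClassicalSol T Q f) (p : ℕ)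
    {K : ℝ} (hK : 0 ≤ K) {m : ℝ → ℝ} (hm : IntegrableOn m (Ioo 0 T)) (hm0 : ∀ t ∈ Ioo 0 T, 0 ≤ m t)
    (hQ : ∀ t ∈ Ioo 0 T, ∀ x v, (∀ u, f t x u * (1 + nsq u) ^ p ≤ f t x v * (1 + nsq v) ^ p) →
      Q t x v ≤ K * f t x v * m t)
    {A₀ : ℝ} (hA₀ : ∀ x v, f 0 x v * (1 + nsq v) ^ p ≤ A₀) :
    ∀ t ∈ Ico 0 T, ∀ x v, f t x v * (1 + nsq v) ^ p ≤
      A₀ * Real.exp (K * ∫ τ in Ioc 0 t, m τ) := by
  intro t ht x v
  rcases ht.1.eq_or_lt with h0 | hpos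
  · subst h0
    simpa using hA₀ x v
  · have hsub : Ioc 0 t ⊆ Ioo 0 T := fun s hs => ⟨hs.1, hs.2.trans_lt ht.2⟩
    have hA : 0 ≤ A₀ := by
      refine le_trans (mul_nonneg (hf.nonneg 0 ⟨le_refl _, hpos.trans ht.2⟩ x v) ?_) (hA₀ x v)
      have : 0 ≤ nsq v := Finset.sum_nonneg fun i _ => sq_nonneg _
      positivity
    set I : ℝ := ∫ τ in Ioc 0 t, m τ with hI
    have hη : ∀ η : ℝ, 0 < η → f t x v * (1 + nsq v) ^ p ≤
        (A₀ + η) * Real.exp (η * t + K * (I + η)) := by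
      intro η hη
      obtain ⟨B, hBc, hBpos, hB0, hBu, hBi⟩ := barrier_fn hpos (hm.mono_set hsub)
        (fun s hs => hm0 s (hsub hs)) hK hA hη
      have := mp_lt hf p hQ hpos ht.2 hBc hBpos
        (fun y w => by rw [hB0]; linarith [hA₀ y w]) hη hBi
        (fun s hs => add_nonneg hη.le (mul_nonneg hK (hm0 s (hsub hs)))) t ⟨hpos.le, le_refl _⟩ x v
      exact this.le.trans (hBu t ⟨hpos.le, le_refl _⟩)
    have hlim : Tendsto (fun η : ℝ => (A₀ + η) * Real.exp (η * t + K * (I + η))) (𝓝[>] 0)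
        (𝓝 ((A₀ + 0) * Real.exp (0 * t + K * (I + 0)))) := by
      have : Continuous fun η : ℝ => (A₀ + η) * Real.exp (η * t + K * (I + η)) := by fun_prop
      exact (this.tendsto 0).mono_left nhdsWithin_le_nhds
    have := ge_of_tendsto hlim (by
      filter_upwards [self_mem_nhdsWithin] with η h1 using hη η h1)
    simpa using this

end Pool.Agent.H82.BK
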