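import Pool.Agent.H82.BK.Defs
import Pool.Agent.H25.Kin.Per

/-!
# Module Touch: the first touching point

Let `F(t,x,v) = f t x v * (1+nsq v)^p`. `S = {(t,x,v) : t ∈ [0,T₁], x ∈ [0,1]^d, B t ≤ F(t,x,v)}` is compact: `F` and `B` are
continuous on `[0,T₁]`, and `v` is bounded on `S`, because `B ≥ β₀ > 0` on `[0,T₁]` (compactness) while
`F ≤ C (1+‖v‖)^(-1)` (`hf.decay` with `N = 2p+1`, `1+nsq v ≤ (d+1)(1+‖v‖)²`). `S` is nonempty: translate `x` by integers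
(`periodic`; see Per.lean / `exists x in [0,1]^d with the same values`, tools in Kin/Per.lean, Kin/Slice.lean). Take a
point of `S` with the smallest `t = t₀` (`IsCompact.exists_isMinOn`). `t₀ > 0` by `h0`. For `t < t₀` there is no point
of `S`, hence `F < B` for `x ∈ [0,1]^d`, hence for all `x` (periodicity). By continuity in `t` (`t → t₀-`) `F ≤ B` at
`t₀`, so at the point of `S` equality holds.
-/

set_option autoImplicit false

open MeasureTheory Set Filter Topology Pool.Agent.H25.Kin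
open scoped ENNReal

namespace Pool.Agent.H82.BK

variable {d : ℕ}

/-- reduction of the position to the unit cube -/
private lemma touch_per {F : Vec d → ℝ} (hF : Per F) (x : Vec d) :
    ∃ y ∈ Icc (0 : Vec d) 1, F y = F x := by
  refine ⟨fun i => Int.fract (x i), ⟨fun i => Int.fract_nonneg _, fun i => (Int.fract_lt_one _).le⟩, ?_⟩
  have hl : (fun i => (-(⌊x i⌋ : ℤ) : ℝ)) ∈
      Submodule.span ℤ (Set.range (Pi.basisFun ℝ (Fin d))) := by
    have e : (fun i => (-(⌊x i⌋ : ℤ) : ℝ)) = ∑ i, (-⌊x i⌋ : ℤ) • (Pi.basisFun ℝ (Fin d) i) := by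
      funext j
      rw [Finset.sum_apply]
      simp only [Pi.basisFun_apply, Pi.smul_apply, Pi.single_apply]
      rw [Finset.sum_eq_single j]
      · simp
      · intro b _ hb
        simp [Ne.symm hb]
      · intro h
        exact absurd (Finset.mem_univ _) h
    rw [e]
    exact Submodule.sum_mem _ fun i _ => Submodule.smul_mem _ _
      (Submodule.subset_span (Set.mem_range_self i))
  have h := hF.span hl x
  have e2 : (fun i => (-(⌊x i⌋ : ℤ) : ℝ)) + x = fun i => Int.fract (x i) := by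
    funext i
    simp only [Pi.add_apply, Int.fract]
    ring
  rw [e2] at h
  exact h

/-- velocities with a large value of `F` are bounded -/
private lemma touch_bdd {T : ℝ} {Q f : ℝ → Vec d → Vec d → ℝ} (hf : IsClassicalSol T Q f) (p : ℕ)
    {T₁ : ℝ} (hT₁ : T₁ < T) {β : ℝ} (hβ : 0 < β) :
    ∃ R : ℝ, ∀ t ∈ Icc 0 T₁, ∀ x v, β ≤ f t x v * (1 + nsq v) ^ p → ‖v‖ ≤ R := by
  obtain ⟨C, hC⟩ := hf.decay T₁ hT₁ (2 * p + 1)
  refine ⟨((d : ℝ) + 1) ^ p * C / β, fun t ht x v h => ?_⟩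
  have h0 : 0 ≤ f t x v := hf.nonneg t ⟨ht.1, ht.2.trans_lt hT₁⟩ x v
  have h1 := hC t ht x v
  have hn := norm_nonneg v
  have h2 : 1 + nsq v ≤ ((d : ℝ) + 1) * (1 + ‖v‖) ^ 2 := by
    have h3 := sq_le v
    have h4 : (0 : ℝ) ≤ d := Nat.cast_nonneg _
    nlinarith [mul_nonneg h4 hn]
  have h5 : (1 + nsq v) ^ p ≤ ((d : ℝ) + 1) ^ p * (1 + ‖v‖) ^ (2 * p) := by
    rw [pow_mul, ← mul_pow]
    exact pow_le_pow_left₀ (by have := sq_nonneg' v; linarith) h2 p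
  have h6 : f t x v * (1 + nsq v) ^ p ≤ f t x v * (((d : ℝ) + 1) ^ p * (1 + ‖v‖) ^ (2 * p)) :=
    mul_le_mul_of_nonneg_left h5 h0
  rw [le_div_iff₀ hβ]
  have h7 : β * (1 + ‖v‖) ≤ ((d : ℝ) + 1) ^ p * C := by
    calc β * (1 + ‖v‖) ≤ (f t x v * (((d : ℝ) + 1) ^ p * (1 + ‖v‖) ^ (2 * p))) * (1 + ‖v‖) := by
          gcongr
          exact h.trans h6
      _ = ((d : ℝ) + 1) ^ p * ((1 + ‖v‖) ^ (2 * p + 1) * f t x v) := by ring
      _ ≤ ((d : ℝ) + 1) ^ p * C := by gcongr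
  nlinarith

theorem first_touch {T : ℝ} {Q f : ℝ → Vec d → Vec d → ℝ} (hf : IsClassicalSol T Q f) (p : ℕ)
    {T₁ : ℝ} (hT₀ : 0 ≤ T₁) (hT₁ : T₁ < T) {B : ℝ → ℝ} (hB : ContinuousOn B (Icc 0 T₁))
    (hB0 : ∀ t ∈ Icc 0 T₁, 0 < B t) (h0 : ∀ x v, f 0 x v * (1 + nsq v) ^ p < B 0)
    (hex : ∃ t ∈ Icc 0 T₁, ∃ x v, B t ≤ f t x v * (1 + nsq v) ^ p) :
    ∃ t₀ ∈ Ioc 0 T₁, ∃ x₀ v₀, f t₀ x₀ v₀ * (1 + nsq v₀) ^ p = B t₀ ∧
      (∀ t ∈ Ico 0 t₀, ∀ x v, f t x v * (1 + nsq v) ^ p < B t) ∧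
      (∀ x v, f t₀ x v * (1 + nsq v) ^ p ≤ B t₀) := by
  obtain ⟨tm, htm, hmin⟩ := isCompact_Icc.exists_isMinOn (nonempty_Icc.2 hT₀) hB
  have hβ := hB0 tm htm
  obtain ⟨R, hR⟩ := touch_bdd hf p hT₁ hβ
  have hsub : Icc (0 : ℝ) T₁ ⊆ Ico 0 T := fun t ht => ⟨ht.1, ht.2.trans_lt hT₁⟩
  have hper : ∀ t ∈ Icc (0 : ℝ) T₁, ∀ v : Vec d, Per fun x => f t x v := fun t ht v x i =>
    hf.periodic t (hsub ht) x v i
  set K : Set (ℝ × Vec d × Vec d) := Icc 0 T₁ ×ˢ (Icc (0 : Vec d) 1 ×ˢ Metric.closedBall (0 : Vec d) R)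
    with hK
  have hKc : IsCompact K := isCompact_Icc.prod (isCompact_Icc.prod (isCompact_closedBall _ _))
  have hnq : Continuous (nsq : Vec d → ℝ) := by unfold nsq; fun_prop
  have hFc : ContinuousOn (fun q : ℝ × Vec d × Vec d => unc f q * (1 + nsq q.2.2) ^ p)
      (Ico 0 T ×ˢ univ) := by
    refine (show ContinuousOn (unc f) (Ico 0 T ×ˢ univ) from hf.isCont).mul ?_
    exact ((continuous_const.add (hnq.comp (continuous_snd.comp continuous_snd))).pow p).continuousOn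
  have hGc : ContinuousOn (fun q : ℝ × Vec d × Vec d => unc f q * (1 + nsq q.2.2) ^ p - B q.1) K := by
    refine (hFc.mono fun q hq => ⟨hsub hq.1, mem_univ _⟩).sub ?_
    exact hB.comp continuous_fst.continuousOn fun q hq => hq.1
  set S : Set (ℝ × Vec d × Vec d) :=
    K ∩ (fun q : ℝ × Vec d × Vec d => unc f q * (1 + nsq q.2.2) ^ p - B q.1) ⁻¹' Ici 0 with hS
  have hSc : IsCompact S := hKc.of_isClosed_subset
    (hGc.preimage_isClosed_of_isClosed hKc.isClosed isClosed_Ici) inter_subset_left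
  have hmem : ∀ t ∈ Icc (0 : ℝ) T₁, ∀ x v, B t ≤ f t x v * (1 + nsq v) ^ p →
      ∃ y, (t, y, v) ∈ S := by
    intro t ht x v h
    obtain ⟨y, hy, hyx⟩ := touch_per (hper t ht v) x
    refine ⟨y, ⟨⟨ht, hy, ?_⟩, ?_⟩⟩
    · rw [Metric.mem_closedBall, dist_zero_right]
      exact hR t ht x v ((hmin ht).trans h)
    · simp only [mem_preimage, mem_Ici, unc]
      have : f t y v = f t x v := hyx
      rw [this]
      linarith
  obtain ⟨t1, ht1, x1, v1, h1⟩ := hex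
  obtain ⟨y1, hy1⟩ := hmem t1 ht1 x1 v1 h1
  obtain ⟨q, hqS, hq⟩ := hSc.exists_isMinOn ⟨_, hy1⟩ (f := fun q : ℝ × Vec d × Vec d => q.1)
    continuous_fst.continuousOn
  obtain ⟨t₀, x₀, v₀⟩ := q
  have ht₀ : t₀ ∈ Icc 0 T₁ := hqS.1.1
  have hge : B t₀ ≤ f t₀ x₀ v₀ * (1 + nsq v₀) ^ p := by
    have := hqS.2
    simp only [mem_preimage, mem_Ici, unc] at this
    linarith
  have hlt : ∀ t ∈ Ico 0 t₀, ∀ x v, f t x v * (1 + nsq v) ^ p < B t := by
    intro t ht x v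
    by_contra hcon
    push Not at hcon
    obtain ⟨y, hy⟩ := hmem t ⟨ht.1, ht.2.le.trans ht₀.2⟩ x v hcon
    have h2 : t₀ ≤ t := hq hy
    exact absurd ht.2 (not_lt.2 h2)
  have hpos : 0 < t₀ := by
    rcases ht₀.1.lt_or_eq with h | h
    · exact h
    · exfalso
      subst h
      exact absurd hge (not_le.2 (h0 x₀ v₀))
  have hle : ∀ x v, f t₀ x v * (1 + nsq v) ^ p ≤ B t₀ := by
    intro x v
    have hc : ContinuousOn (fun t : ℝ => f t x v * (1 + nsq v) ^ p) (Icc 0 T₁) := by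
      have h3 : ContinuousOn (fun t : ℝ => (fun q : ℝ × Vec d × Vec d =>
          unc f q * (1 + nsq q.2.2) ^ p) (t, x, v)) (Icc 0 T₁) := by
        refine hFc.comp (Continuous.continuousOn (by fun_prop)) fun t ht => ⟨hsub ht, mem_univ _⟩
      exact h3
    have hne : (𝓝[Ico 0 t₀] t₀).NeBot := by
      rw [← mem_closure_iff_nhdsWithin_neBot, closure_Ico hpos.ne]
      exact ⟨hpos.le, le_rfl⟩
    have hs : Ico 0 t₀ ⊆ Icc 0 T₁ := fun t ht => ⟨ht.1, ht.2.le.trans ht₀.2⟩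
    have l1 : Tendsto (fun t : ℝ => f t x v * (1 + nsq v) ^ p) (𝓝[Ico 0 t₀] t₀)
        (𝓝 (f t₀ x v * (1 + nsq v) ^ p)) := (hc t₀ ht₀).mono hs
    have l2 : Tendsto B (𝓝[Ico 0 t₀] t₀) (𝓝 (B t₀)) := (hB t₀ ht₀).mono hs
    refine le_of_tendsto_of_tendsto l1 l2 ?_
    filter_upwards [self_mem_nhdsWithin] with t ht
    exact (hlt t ht x v).le
  exact ⟨t₀, ⟨hpos, ht₀.2⟩, x₀, v₀, le_antisymm (hle x₀ v₀) hge, hlt, hle⟩

/-- derivative along the characteristic -/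
lemma char_deriv {T : ℝ} {Q f : ℝ → Vec d → Vec d → ℝ} (hf : IsClassicalSol T Q f) {t₀ : ℝ}
    (ht : t₀ ∈ Ioo 0 T) (x₀ v₀ : Vec d) :
    HasDerivAt (fun τ : ℝ => f (t₀ + τ) (x₀ + τ • v₀) v₀) (Q t₀ x₀ v₀) 0 := by
  have h := hf.hasDerivAt_char ht (x₀ - t₀ • v₀) v₀
  have e : x₀ - t₀ • v₀ + t₀ • v₀ = x₀ := sub_add_cancel _ _
  rw [e] at h
  have h2 : HasDerivAt (fun τ : ℝ => t₀ + τ) 1 0 := (hasDerivAt_id (0 : ℝ)).const_add t₀
  have h3 : HasDerivAt (fun s => f s (x₀ - t₀ • v₀ + s • v₀) v₀) (Q t₀ x₀ v₀) (t₀ + 0) := by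
    rw [add_zero]; exact h
  have h4 := HasDerivAt.comp (0 : ℝ) h3 h2
  rw [mul_one] at h4
  have e2 : ((fun s => f s (x₀ - t₀ • v₀ + s • v₀) v₀) ∘ fun τ : ℝ => t₀ + τ) =
      fun τ : ℝ => f (t₀ + τ) (x₀ + τ • v₀) v₀ := by
    funext τ
    simp only [Function.comp_apply]
    congr 1
    rw [add_smul]
    abel
  rw [e2] at h4
  exact h4

end Pool.Agent.H82.BK
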