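import Pool.Agent.H82.BK.Op
import Pool.Agent.H82.BK.MaxPr

/-!
# Consequences of weighted bounds: mass, energy and entropy
-/

set_option autoImplicit false

open MeasureTheory Set Filter Topology Pool.Agent.H25.Kin
open scoped ENNReal

namespace Pool.Agent.H82.BK

variable {d : ℕ}

/-- The hydrodynamic upper bounds on `[0,T) × 𝕋^d`: the mass, energy and entropy densities
`∫ f dv`, `∫ f |v|² dv`, `∫ f log f dv` are bounded above, uniformly in `t ∈ [0,T)` and `x`. -/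
def HydroUpper (T : ℝ) (f : ℝ → Vec d → Vec d → ℝ) : Prop :=
  ∃ M : ℝ, ∀ t ∈ Ico 0 T, ∀ x, (∫ v, f t x v ≤ M) ∧ (∫ v, f t x v * nsq v ≤ M) ∧
    ∫ v, f t x v * Real.log (f t x v) ≤ M

/-- The moment of order `q` is bounded by an integrable function of time:
`∫ f(t,x,v) (1+|v|²)^(q/2) dv ≤ m(t)` for all `t ∈ (0,T)` and `x`, with `∫_0^T m < ∞`. -/
def MomentInL1 (q T : ℝ) (f : ℝ → Vec d → Vec d → ℝ) : Prop :=
  ∃ m : ℝ → ℝ, IntegrableOn m (Ioo 0 T) ∧
    ∀ t ∈ Ioo 0 T, ∀ x, ∫ v, f t x v * (1 + nsq v) ^ (q / 2) ≤ m t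

/-- Rapid decay up to time `T`: `f ≤ C_N (1+|v|)^(-N)` on `[0,T)` for every `N`. -/
def RapidUpTo (T : ℝ) (f : ℝ → Vec d → Vec d → ℝ) : Prop :=
  ∀ N : ℕ, ∃ C : ℝ, ∀ t ∈ Ico 0 T, ∀ x v, (1 + ‖v‖) ^ N * f t x v ≤ C

lemma one_add_nsq_le (v : Vec d) : 1 + nsq v ≤ (d + 1) * (1 + ‖v‖) ^ 2 := by
  have h := sq_le v
  have h1 := norm_nonneg v
  nlinarith [mul_nonneg (Nat.cast_nonneg (α := ℝ) d) h1]

lemma norm_le_nsq (v : Vec d) : (1 + ‖v‖) ^ 2 ≤ 2 * (1 + nsq v) := by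
  have h := norm_sq_le_sq v
  nlinarith [sq_nonneg (1 - ‖v‖)]

lemma one_le_nsq (v : Vec d) : 1 ≤ 1 + nsq v := by linarith [sq_nonneg' v]

/-- the initial weighted bound -/
lemma init_bound {T : ℝ} {Q f : ℝ → Vec d → Vec d → ℝ} (hf : IsClassicalSol T Q f) (hT : 0 < T)
    (p : ℕ) : ∃ A₀ : ℝ, ∀ x v, f 0 x v * (1 + nsq v) ^ p ≤ A₀ := by
  obtain ⟨C, hC⟩ := hf.decay 0 hT (2 * p)
  refine ⟨(d + 1) ^ p * C, fun x v => ?_⟩
  have h0 := hf.nonneg 0 ⟨le_rfl, hT⟩ x v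
  have h1 := hC 0 ⟨le_rfl, le_rfl⟩ x v
  have h2 : (1 + nsq v) ^ p ≤ (d + 1) ^ p * (1 + ‖v‖) ^ (2 * p) := by
    rw [pow_mul, ← mul_pow]
    exact pow_le_pow_left₀ (by linarith [one_le_nsq v]) (one_add_nsq_le v) p
  calc f 0 x v * (1 + nsq v) ^ p ≤ f 0 x v * ((d + 1) ^ p * (1 + ‖v‖) ^ (2 * p)) :=
        mul_le_mul_of_nonneg_left h2 h0
    _ = (d + 1) ^ p * ((1 + ‖v‖) ^ (2 * p) * f 0 x v) := by ring
    _ ≤ (d + 1) ^ p * C := mul_le_mul_of_nonneg_left h1 (by positivity)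

/-- rapid decay up to `T` gives the hydrodynamic upper bounds -/
lemma RapidUpTo.hydro {T : ℝ} {Q f : ℝ → Vec d → Vec d → ℝ} (hf : IsClassicalSol T Q f)
    (h : RapidUpTo T f) : HydroUpper T f := by
  obtain ⟨C, hC⟩ := h (d + 3)
  obtain ⟨C', hC'⟩ := h 0
  have hC0 : ∀ t ∈ Ico 0 T, ∀ x v, 0 ≤ C := fun t ht x v =>
    le_trans (mul_nonneg (pow_nonneg (w_pos v).le _) (hf.nonneg t ht x v)) (hC t ht x v)
  have hw : Integrable (fun v : Vec d => ((1 + ‖v‖) ^ (d + 1))⁻¹) := integrable_wt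
  set W := ∫ v : Vec d, ((1 + ‖v‖) ^ (d + 1))⁻¹ with hW
  have hW0 : 0 ≤ W := integral_nonneg fun v => inv_nonneg.2 (pow_nonneg (w_pos v).le _)
  set L := Real.log (max C' 1) with hL
  have hL0 : 0 ≤ L := Real.log_nonneg (le_max_right _ _)
  refine ⟨(d + 1) * |C| * W * (1 + L), fun t ht x => ?_⟩
  have hdec : ∀ v, f t x v ≤ |C| * ((1 + ‖v‖) ^ (d + 1))⁻¹ ∧
      f t x v * nsq v ≤ ((d + 1) * |C|) * ((1 + ‖v‖) ^ (d + 1))⁻¹ := by
    intro v
    have h0 := hf.nonneg t ht x v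
    have h1 := (hC t ht x v).trans (le_abs_self C)
    have hwp := w_pos v
    have h1w := one_le_w v
    constructor
    · rw [← div_eq_mul_inv, le_div_iff₀ (pow_pos hwp _)]
      refine le_trans ?_ h1
      rw [mul_comm]
      exact mul_le_mul_of_nonneg_right (pow_le_pow_right₀ h1w (by omega)) h0
    · rw [← div_eq_mul_inv, le_div_iff₀ (pow_pos hwp _)]
      have h2 : nsq v ≤ (d + 1) * (1 + ‖v‖) ^ 2 := by linarith [one_add_nsq_le v]
      calc f t x v * nsq v * (1 + ‖v‖) ^ (d + 1)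
          ≤ f t x v * ((d + 1) * (1 + ‖v‖) ^ 2) * (1 + ‖v‖) ^ (d + 1) := by gcongr
        _ = (d + 1) * ((1 + ‖v‖) ^ (d + 3) * f t x v) := by ring
        _ ≤ (d + 1) * |C| := mul_le_mul_of_nonneg_left h1 (by positivity)
  have hfn := fun v => hf.nonneg t ht x v
  have hmass : ∫ v, f t x v ≤ |C| * W := by
    rw [hW, ← integral_const_mul]
    exact integral_mono_of_nonneg (Eventually.of_forall hfn) (hw.const_mul _)
      (Eventually.of_forall fun v => (hdec v).1)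
  have hd0 : (0 : ℝ) ≤ d := Nat.cast_nonneg d
  have hA : 0 ≤ |C| * W := by positivity
  have hB : |C| * W ≤ (d + 1) * |C| * W := by nlinarith
  refine ⟨?_, ?_, ?_⟩
  · calc ∫ v, f t x v ≤ |C| * W := hmass
      _ ≤ (d + 1) * |C| * W := hB
      _ ≤ (d + 1) * |C| * W * (1 + L) := by nlinarith [mul_nonneg (hA.trans hB) hL0]
  · have h3 : ∫ v, f t x v * nsq v ≤ ((d + 1) * |C|) * W := by
      rw [hW, ← integral_const_mul]
      exact integral_mono_of_nonneg
        (Eventually.of_forall fun v => mul_nonneg (hfn v) (sq_nonneg' v)) (hw.const_mul _)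
        (Eventually.of_forall fun v => (hdec v).2)
    nlinarith [mul_nonneg (hA.trans hB) hL0]
  · have hpt : ∀ v, f t x v * Real.log (f t x v) ≤ L * f t x v := by
      intro v
      rcases (hfn v).eq_or_lt with h0 | h0
      · rw [← h0]; simp
      · have h1 := hC' t ht x v
        rw [pow_zero, one_mul] at h1
        have h2 : Real.log (f t x v) ≤ L := Real.log_le_log h0 (h1.trans (le_max_left _ _))
        calc f t x v * Real.log (f t x v) ≤ f t x v * L := mul_le_mul_of_nonneg_left h2 h0.le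
          _ = L * f t x v := mul_comm _ _
    have hm0 : 0 ≤ ∫ v, f t x v := integral_nonneg hfn
    have h4 : ∫ v, f t x v * Real.log (f t x v) ≤ L * ∫ v, f t x v := by
      by_cases hi : Integrable (fun v => f t x v * Real.log (f t x v))
      · have hfi : Integrable (fun v => f t x v) := by
          by_contra hcon
          -- `f t x` is integrable: continuous and rapidly decaying
          exact hcon (by
            have hcont : Continuous (f t x) := by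
              have h5 : Continuous fun v : Vec d => ((t, x, v) : ℝ × Vec d × Vec d) := by fun_prop
              have h6 : ∀ v : Vec d, ((t, x, v) : ℝ × Vec d × Vec d) ∈ Ico 0 T ×ˢ (univ : Set (Vec d × Vec d)) :=
                fun v => ⟨ht, mem_univ _⟩
              exact (hf.isCont.comp_continuous h5 h6)
            refine (hw.const_mul |C|).mono' hcont.aestronglyMeasurable
              (Eventually.of_forall fun v => ?_)
            rw [Real.norm_eq_abs, abs_of_nonneg (hfn v)]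
            exact (hdec v).1)
        rw [← integral_const_mul]
        exact integral_mono hi (hfi.const_mul L) hpt
      · rw [integral_undef hi]; positivity
    have h5 : L * ∫ v, f t x v ≤ L * (|C| * W) := mul_le_mul_of_nonneg_left hmass hL0
    nlinarith [mul_nonneg hL0 (hA.trans hB), mul_nonneg hL0 hA, mul_nonneg hL0 (sub_nonneg.2 hB)]

/-- bounded mass and energy control the moments of order `≤ 2` -/
lemma HydroUpper.moment {q T : ℝ} {Q f : ℝ → Vec d → Vec d → ℝ} (hf : IsClassicalSol T Q f)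
    (hq : q ≤ 2) (h : HydroUpper T f) : MomentInL1 q T f := by
  obtain ⟨M, hM⟩ := h
  refine ⟨fun _ => M + M, by simp [IntegrableOn], fun t ht x => ?_⟩
  have ht' : t ∈ Ico 0 T := ⟨ht.1.le, ht.2⟩
  have hn := IsClassicalSol.nice hf ht x
  have hfn := fun v => hf.nonneg t ht' x v
  have i1 : Integrable (fun v => f t x v) := hn.rd.integrable hn.cont.aestronglyMeasurable
  have i2 : Integrable (fun v => f t x v * nsq v) :=
    (hn.rd.mul_PG PG.nsq).integrable (hn.cont.mul continuous_sq).aestronglyMeasurable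
  have hM' := hM t ht' x
  calc ∫ v, f t x v * (1 + nsq v) ^ (q / 2) ≤ ∫ v, (f t x v + f t x v * nsq v) := by
        refine integral_mono_of_nonneg (Eventually.of_forall fun v => mul_nonneg (hfn v)
          (Real.rpow_nonneg (by linarith [one_le_nsq v]) _)) (i1.add i2) (Eventually.of_forall fun v => ?_)
        have h1 : (1 + nsq v) ^ (q / 2) ≤ (1 + nsq v) ^ (1 : ℝ) :=
          Real.rpow_le_rpow_of_exponent_le (one_le_nsq v) (by linarith)
        rw [Real.rpow_one] at h1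
        simp only
        nlinarith [hfn v]
    _ = (∫ v, f t x v) + ∫ v, f t x v * nsq v := integral_add i1 i2
    _ ≤ M + M := add_le_add hM'.1 hM'.2.1

/-- weighted bounds for all large powers give rapid decay -/
lemma rapid_of_weighted {T : ℝ} {f : ℝ → Vec d → Vec d → ℝ}
    (hf0 : ∀ t ∈ Ico 0 T, ∀ x v, 0 ≤ f t x v)
    (h : ∀ N : ℕ, ∃ p : ℕ, N ≤ 2 * p ∧ ∃ C : ℝ, ∀ t ∈ Ico 0 T, ∀ x v, f t x v * (1 + nsq v) ^ p ≤ C) :
    RapidUpTo T f := by
  intro N
  obtain ⟨p, hp, C, hC⟩ := h N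
  refine ⟨2 ^ p * C, fun t ht x v => ?_⟩
  have h0 := hf0 t ht x v
  have h1 : (1 + ‖v‖) ^ N ≤ 2 ^ p * (1 + nsq v) ^ p := by
    calc (1 + ‖v‖) ^ N ≤ (1 + ‖v‖) ^ (2 * p) := pow_le_pow_right₀ (one_le_w v) hp
      _ = ((1 + ‖v‖) ^ 2) ^ p := by rw [pow_mul]
      _ ≤ (2 * (1 + nsq v)) ^ p := pow_le_pow_left₀ (by positivity) (norm_le_nsq v) p
      _ = 2 ^ p * (1 + nsq v) ^ p := mul_pow _ _ _
  calc (1 + ‖v‖) ^ N * f t x v ≤ (2 ^ p * (1 + nsq v) ^ p) * f t x v :=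
        mul_le_mul_of_nonneg_right h1 h0
    _ = 2 ^ p * (f t x v * (1 + nsq v) ^ p) := by ring
    _ ≤ 2 ^ p * C := mul_le_mul_of_nonneg_left (hC t ht x v) (by positivity)

/-- **the quantitative estimate**, `γ ≥ 0` -/
theorem weighted_estimate {γ s : ℝ} (hd : 2 ≤ d) (hs : s ∈ Ioo (0 : ℝ) 1) (hγ : 0 ≤ γ)
    (hγ2 : γ + 2 * s ≤ 2) {b : ℝ → ℝ} (hb : IsKernel d s b) (p : ℕ) (hp : (d : ℝ) + γ + 4 ≤ 2 * p) :
    ∃ K : ℝ, 0 ≤ K ∧ ∀ T : ℝ, ∀ f : ℝ → Vec d → Vec d → ℝ, IsBoltzmannSol γ b T f →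
      ∀ m : ℝ → ℝ, IntegrableOn m (Ioo 0 T) →
      (∀ t ∈ Ioo 0 T, ∀ x, ∫ v, f t x v * (1 + nsq v) ^ ((γ + 2 * s) / 2) ≤ m t) →
      ∀ A₀ : ℝ, (∀ x v, f 0 x v * (1 + nsq v) ^ p ≤ A₀) →
      ∀ t ∈ Ico 0 T, ∀ x v, f t x v * (1 + nsq v) ^ p ≤
        A₀ * Real.exp (K * ∫ τ in Ioc 0 t, m τ) := by
  obtain ⟨C, Ca, H⟩ := exists_hyp hd hs.1 hs.2 (by linarith [hs.1] : 0 ≤ γ + 2 * s) hγ2 hb
  obtain ⟨K, hK0, hK⟩ := op_bound H hp
  refine ⟨2 * K, by positivity, fun T f hf m hm hmom A₀ hA₀ t ht x v => ?_⟩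
  have hg2 : 0 ≤ (γ + 2 * s) / 2 := by linarith [hs.1]
  have hm0 : ∀ t ∈ Ioo 0 T, 0 ≤ m t := fun t ht => le_trans
    (integral_nonneg fun v => mul_nonneg (hf.nonneg t ⟨ht.1.le, ht.2⟩ 0 v)
      (Real.rpow_nonneg (by linarith [one_le_nsq v]) _)) (hmom t ht 0)
  refine max_principle hf p (by positivity : 0 ≤ 2 * K) hm hm0 ?_ hA₀ t ht x v
  intro t ht x v hdom
  have hn := IsClassicalSol.nice hf ht x
  have hfn := fun u => hf.nonneg t ⟨ht.1.le, ht.2⟩ x u
  have h1 := hK (f t x) hn hfn v hdom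
  have h2 : ∫ z, f t x z * wgt γ s v z ≤ 2 * m t := by
    have h3 : ∀ z, f t x z * wgt γ s v z ≤ 2 * (f t x z * (1 + nsq z) ^ ((γ + 2 * s) / 2)) := by
      intro z
      have h4 : wgt γ s v z ≤ 2 * (1 + nsq z) ^ ((γ + 2 * s) / 2) := by
        unfold wgt
        rw [min_eq_right hγ, Real.rpow_zero]
        have := Real.one_le_rpow (one_le_nsq z) hg2
        linarith
      nlinarith [hfn z]
    have i0 : Integrable (fun z => f t x z * (1 + nsq z) ^ ((γ + 2 * s) / 2)) := by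
      have i2 : Integrable (fun v => f t x v * (1 + nsq v)) :=
        (hn.rd.mul_PG ((PG.const (1 : ℝ)).add PG.nsq)).integrable
          (hn.cont.mul (continuous_const.add continuous_sq)).aestronglyMeasurable
      refine i2.mono' ?_ (Eventually.of_forall fun z => ?_)
      · refine (hn.cont.mul ?_).aestronglyMeasurable
        exact (continuous_const.add continuous_sq).rpow_const fun z => Or.inr hg2
      · rw [Real.norm_eq_abs, abs_of_nonneg (mul_nonneg (hfn z)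
          (Real.rpow_nonneg (by linarith [one_le_nsq z]) _))]
        have h5 : (1 + nsq z) ^ ((γ + 2 * s) / 2) ≤ (1 + nsq z) ^ (1 : ℝ) :=
          Real.rpow_le_rpow_of_exponent_le (one_le_nsq z) (by linarith)
        rw [Real.rpow_one] at h5
        exact mul_le_mul_of_nonneg_left h5 (hfn z)
    calc ∫ z, f t x z * wgt γ s v z
        ≤ ∫ z, 2 * (f t x z * (1 + nsq z) ^ ((γ + 2 * s) / 2)) :=
          integral_mono_of_nonneg (Eventually.of_forall fun z => mul_nonneg (hfn z)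
            (wgt_nonneg γ s v z)) (i0.const_mul 2) (Eventually.of_forall h3)
      _ = 2 * ∫ z, f t x z * (1 + nsq z) ^ ((γ + 2 * s) / 2) := integral_const_mul _ _
      _ ≤ 2 * m t := mul_le_mul_of_nonneg_left (hmom t ht x) (by norm_num)
  calc boltzQ γ b (f t x) v ≤ K * f t x v * ∫ z, f t x z * wgt γ s v z := h1
    _ ≤ K * f t x v * (2 * m t) := mul_le_mul_of_nonneg_left h2 (mul_nonneg hK0 (hfn v))
    _ = 2 * K * f t x v * m t := by ring

/-- integrability of the moment in time gives rapid decay up to `T`, `γ ≥ 0` -/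
theorem moment_rapid {γ s : ℝ} (hd : 2 ≤ d) (hs : s ∈ Ioo (0 : ℝ) 1) (hγ : 0 ≤ γ)
    (hγ2 : γ + 2 * s ≤ 2) {b : ℝ → ℝ} (hb : IsKernel d s b) {T : ℝ}
    {f : ℝ → Vec d → Vec d → ℝ} (hf : IsBoltzmannSol γ b T f) (h : MomentInL1 (γ + 2 * s) T f) :
    RapidUpTo T f := by
  rcases le_or_gt T 0 with hT | hT
  · intro N
    exact ⟨0, fun t ht => absurd (ht.1.trans_lt ht.2) (not_lt.2 hT)⟩
  obtain ⟨m, hm, hmom⟩ := h
  refine rapid_of_weighted hf.nonneg fun N => ?_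
  obtain ⟨p, hp⟩ := exists_nat_ge (max (((d : ℝ) + γ + 4) / 2) N)
  have hp1 : (d : ℝ) + γ + 4 ≤ 2 * p := by
    have := (le_max_left _ _).trans hp
    linarith
  have hp2 : N ≤ 2 * p := by
    have h1 : (N : ℝ) ≤ p := (le_max_right _ _).trans hp
    have h2 : N ≤ p := by exact_mod_cast h1
    omega
  obtain ⟨K, hK0, hK⟩ := weighted_estimate hd hs hγ hγ2 hb p hp1
  obtain ⟨A₀, hA₀⟩ := init_bound hf hT p
  have hA0 : 0 ≤ A₀ := le_trans (mul_nonneg (hf.nonneg 0 ⟨le_rfl, hT⟩ 0 0)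
    (pow_nonneg (by linarith [one_le_nsq (0 : Vec d)]) p)) (hA₀ 0 0)
  have hm0 : ∀ t ∈ Ioo 0 T, 0 ≤ m t := fun t ht => le_trans
    (integral_nonneg fun v => mul_nonneg (hf.nonneg t ⟨ht.1.le, ht.2⟩ 0 v)
      (Real.rpow_nonneg (by linarith [one_le_nsq v]) _)) (hmom t ht 0)
  refine ⟨p, hp2, A₀ * Real.exp (K * ∫ τ in Ioo 0 T, m τ), fun t ht x v => ?_⟩
  refine (hK T f hf m hm hmom A₀ hA₀ t ht x v).trans ?_
  refine mul_le_mul_of_nonneg_left (Real.exp_le_exp.2 (mul_le_mul_of_nonneg_left ?_ hK0)) hA0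
  refine setIntegral_mono_set hm ?_ (HasSubset.Subset.eventuallyLE ?_)
  · filter_upwards [ae_restrict_mem measurableSet_Ioo] with τ hτ using hm0 τ hτ
  · exact fun τ hτ => ⟨hτ.1, hτ.2.trans_lt ht.2⟩

end Pool.Agent.H82.BK
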