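import Pool.Agent.H82.BK.Defs

/-!
# Module Barrier2: `barrier_fn` (helper86) with monotonicity
-/

set_option autoImplicit false

open MeasureTheory Set Filter Topology Pool.Agent.H25.Kin
open scoped ENNReal

namespace Pool.Agent.H82.BK

theorem barrier_fn_mono {m : ℝ → ℝ} {T₁ : ℝ} (hT₁ : 0 < T₁) (hm : IntegrableOn m (Ioc 0 T₁))
    (hm0 : ∀ t ∈ Ioc 0 T₁, 0 ≤ m t) {K : ℝ} (hK : 0 ≤ K) {A₀ : ℝ} (hA : 0 ≤ A₀) {η : ℝ} (hη : 0 < η) :
    ∃ B : ℝ → ℝ, ContinuousOn B (Icc 0 T₁) ∧ (∀ t ∈ Icc 0 T₁, 0 < B t) ∧ B 0 = A₀ + η ∧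
      (∀ t ∈ Icc 0 T₁, B t ≤ (A₀ + η) * Real.exp (η * t + K * ((∫ τ in Ioc 0 t, m τ) + η))) ∧
      (∀ t₀ ∈ Ioc 0 T₁, ∀ᶠ τ in 𝓝[>] (0 : ℝ), B (t₀ - τ) * (1 + τ * (η + K * m t₀)) ≤ B t₀) ∧
      Monotone B := by
  classical
  set f : ℝ → ℝ := (Ioc 0 T₁).indicator m with hf
  have hfi : Integrable f volume := hm.integrable_indicator measurableSet_Ioc
  have hf0 : ∀ x, 0 ≤ f x := fun x => Set.indicator_nonneg hm0 x
  obtain ⟨g, hfg, hg, hgi, hgt, hgl⟩ := exists_lt_lowerSemicontinuous_integral_lt f hfi hη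
  set G : ℝ → ℝ := fun x => (g x).toReal with hG
  have hbot : ∀ x, g x ≠ ⊥ := fun x h => by
    have := hfg x
    rw [h] at this
    exact not_lt_bot this
  have hfG : ∀ᵐ x ∂volume, f x ≤ G x := by
    filter_upwards [hgt] with x hx
    have h1 := hfg x
    rw [← EReal.coe_toReal hx.ne (hbot x)] at h1
    exact (EReal.coe_lt_coe_iff.1 h1).le
  have hint : ∀ a b, IntervalIntegrable G volume a b := fun a b => hgi.intervalIntegrable
  have hposA : 0 < A₀ + η := by linarith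
  have hcont : Continuous fun t => ∫ x in (0 : ℝ)..t, G x :=
    intervalIntegral.continuous_primitive hint 0
  refine ⟨fun t => (A₀ + η) * Real.exp (η * t + K * ∫ x in (0 : ℝ)..t, G x), ?_, ?_, ?_, ?_, ?_, ?_⟩
  · have : Continuous fun t => (A₀ + η) * Real.exp (η * t + K * ∫ x in (0 : ℝ)..t, G x) := by
      fun_prop
    exact this.continuousOn
  · intro t _
    positivity
  · simp
  · intro t ht
    have h1 : ∫ x in (0 : ℝ)..t, G x ≤ (∫ τ in Ioc 0 t, m τ) + η := by
      rw [intervalIntegral.integral_of_le ht.1]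
      have e1 : ∫ x in Ioc 0 t, G x = (∫ x in Ioc 0 t, f x) + ∫ x in Ioc 0 t, (G x - f x) := by
        rw [integral_sub hgi.integrableOn hfi.integrableOn]
        ring
      have e2 : ∫ x in Ioc 0 t, f x = ∫ x in Ioc 0 t, m x := by
        refine setIntegral_congr_fun measurableSet_Ioc (fun x hx => ?_)
        exact Set.indicator_of_mem (show x ∈ Ioc 0 T₁ from ⟨hx.1, hx.2.trans ht.2⟩) m
      have e3 : ∫ x in Ioc 0 t, (G x - f x) ≤ ∫ x, (G x - f x) := by
        refine setIntegral_le_integral (hgi.sub hfi) ?_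
        filter_upwards [hfG] with x hx
        simpa using hx
      have e4 : ∫ x, (G x - f x) = (∫ x, G x) - ∫ x, f x := integral_sub hgi hfi
      rw [e1, e2]
      linarith
    show (A₀ + η) * Real.exp (η * t + K * ∫ x in (0 : ℝ)..t, G x) ≤ _
    gcongr
  · intro t₀ ht₀
    have hft : f t₀ = m t₀ := Set.indicator_of_mem ht₀ m
    have hlow : ∀ᶠ x in 𝓝 t₀, ((m t₀ : ℝ) : EReal) < g x := by
      have := hfg t₀
      rw [hft] at this
      exact hg t₀ _ this
    obtain ⟨δ, hδ, hball⟩ := Metric.eventually_nhds_iff.1 hlow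
    have hev : Ioo (0 : ℝ) δ ∈ 𝓝[>] (0 : ℝ) := Ioo_mem_nhdsGT hδ
    filter_upwards [hev] with τ hτ
    have h1 : τ * m t₀ ≤ ∫ x in (t₀ - τ)..t₀, G x := by
      have h2 : ∫ _ in (t₀ - τ)..t₀, m t₀ = τ * m t₀ := by
        rw [intervalIntegral.integral_const]
        simp
      rw [← h2]
      refine intervalIntegral.integral_mono_ae_restrict (by linarith [hτ.1])
        intervalIntegrable_const (hint _ _) ?_
      rw [Filter.EventuallyLE, ae_restrict_iff' measurableSet_Icc]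
      filter_upwards [hgt] with x hx hx2
      have h3 : ((m t₀ : ℝ) : EReal) < g x := by
        apply hball
        rw [Real.dist_eq, abs_lt]
        constructor
        · linarith [hx2.1, hτ.2]
        · linarith [hx2.2, hτ.1]
      rw [← EReal.coe_toReal hx.ne (hbot x)] at h3
      exact (EReal.coe_lt_coe_iff.1 h3).le
    have h4 : ∫ x in (0 : ℝ)..t₀, G x =
        (∫ x in (0 : ℝ)..(t₀ - τ), G x) + ∫ x in (t₀ - τ)..t₀, G x :=
      (intervalIntegral.integral_add_adjacent_intervals (hint _ _) (hint _ _)).symm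
    have h5 : Real.exp (η * t₀ + K * ∫ x in (0 : ℝ)..t₀, G x) =
        Real.exp (η * (t₀ - τ) + K * ∫ x in (0 : ℝ)..(t₀ - τ), G x) *
          Real.exp (η * τ + K * ∫ x in (t₀ - τ)..t₀, G x) := by
      rw [← Real.exp_add, h4]
      congr 1
      ring
    have h6 : 1 + τ * (η + K * m t₀) ≤ Real.exp (η * τ + K * ∫ x in (t₀ - τ)..t₀, G x) := by
      have h7 := Real.add_one_le_exp (η * τ + K * ∫ x in (t₀ - τ)..t₀, G x)
      have h8 : K * (τ * m t₀) ≤ K * ∫ x in (t₀ - τ)..t₀, G x := mul_le_mul_of_nonneg_left h1 hK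
      nlinarith
    show (A₀ + η) * Real.exp (η * (t₀ - τ) + K * ∫ x in (0 : ℝ)..(t₀ - τ), G x) *
      (1 + τ * (η + K * m t₀)) ≤ (A₀ + η) * Real.exp (η * t₀ + K * ∫ x in (0 : ℝ)..t₀, G x)
    rw [h5, ← mul_assoc]
    exact mul_le_mul_of_nonneg_left h6 (by positivity)
  · intro t t' htt
    have hG0 : ∀ᵐ x ∂volume, 0 ≤ G x := by
      filter_upwards [hfG] with x hx using (hf0 x).trans hx
    have h1 : (∫ x in (0 : ℝ)..t, G x) + ∫ x in t..t', G x = ∫ x in (0 : ℝ)..t', G x :=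
      intervalIntegral.integral_add_adjacent_intervals (hint _ _) (hint _ _)
    have h2 : 0 ≤ ∫ x in t..t', G x := by
      rw [intervalIntegral.integral_of_le htt]
      exact integral_nonneg_of_ae (ae_restrict_of_ae hG0)
    have h3 : K * ∫ x in (0 : ℝ)..t, G x ≤ K * ∫ x in (0 : ℝ)..t', G x :=
      mul_le_mul_of_nonneg_left (by linarith) hK
    have h4 : η * t ≤ η * t' := mul_le_mul_of_nonneg_left htt hη.le
    exact mul_le_mul_of_nonneg_left (Real.exp_le_exp.2 (by linarith)) hposA.le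

end Pool.Agent.H82.BK
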