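import Pool.Agent.H82.BK.CVa

/-!
# Module CV: the change of variables at fixed `σ`

`∫_k F(k) dk = ∫_{m·σ>0} F(kap σ m) 2^(d-1) |m|²/(m·σ)² dm`.
Proof: `lintegral_image_eq_lintegral_abs_det_fderiv_mul` on `S = {m·σ>0}` (open, measurable) with
`kap_deriv` (choose `B`), `kap_injOn`, `kap_image`; the complement of the image is null (`ray_null`), so
`∫⁻ k, F k = ∫⁻ k in {-len k < dot k σ}, F k` (`setLIntegral_congr`/`lintegral_add_compl`).
-/

set_option autoImplicit false

open MeasureTheory Set Filter Topology Pool.Agent.H25.Kin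
open scoped ENNReal

namespace Pool.Agent.H82.BK

variable {d : ℕ} {σ : Vec d}

theorem cv (hd : 2 ≤ d) (hσ : nsq σ = 1) {F : Vec d → ℝ≥0∞} (hF : Measurable F) :
    ∫⁻ k, F k = ∫⁻ m in {m : Vec d | 0 < dot m σ},
      F (kap σ m) * ENNReal.ofReal (2 ^ (d - 1) * (nsq m / dot m σ ^ 2)) := by
  classical
  have hcont : Continuous fun m : Vec d => dot m σ := by
    unfold dot
    fun_prop
  have hS : MeasurableSet {m : Vec d | 0 < dot m σ} :=
    (isOpen_lt continuous_const hcont).measurableSet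
  have hex : ∀ m : Vec d, ∃ B : Vec d →L[ℝ] Vec d, 0 < dot m σ →
      (HasFDerivAt (kap σ) B m ∧ |B.det| = 2 ^ (d - 1) * (nsq m / dot m σ ^ 2)) := by
    intro m
    by_cases h : 0 < dot m σ
    · obtain ⟨B, hB⟩ := kap_deriv hd hσ h
      exact ⟨B, fun _ => hB⟩
    · exact ⟨0, fun h' => absurd h' h⟩
  choose B hB using hex
  have h1 := lintegral_image_eq_lintegral_abs_det_fderiv_mul
    (volume : Measure (Vec d)) hS (f := kap σ) (f' := B)
    (fun m hm => (hB m hm).1.hasFDerivWithinAt) (kap_injOn hσ) F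
  rw [kap_image hσ] at h1
  have h2 : ∫⁻ k, F k = ∫⁻ k in {k : Vec d | -len k < dot k σ}, F k := by
    have hm : MeasurableSet {k : Vec d | -len k < dot k σ} :=
      (isOpen_lt continuous_len.neg hcont).measurableSet
    rw [← lintegral_add_compl F hm]
    have h3 : ∫⁻ k in {k : Vec d | -len k < dot k σ}ᶜ, F k = 0 := by
      have h4 : (volume : Measure (Vec d)) {k : Vec d | -len k < dot k σ}ᶜ = 0 := ray_null hd hσ
      rw [Measure.restrict_eq_zero.2 h4, lintegral_zero_measure]
    rw [h3, add_zero]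
  rw [h2, h1]
  apply setLIntegral_congr_fun hS
  intro m hm
  simp only
  rw [(hB m hm).2, mul_comm]

end Pool.Agent.H82.BK
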