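import Pool.Agent.H82.BK.Touch

/-!
# Module Touch2: the first touching point for a general weight

The same proof as `first_touch` (module Touch) with `(1+nsq v)^p` replaced by a weight `W t v`, continuous on
`[0,T₁] × ℝ^d`, `0 ≤ W ≤ (1+nsq v)^p`: `F(t,x,v) = f t x v * W t v`, compactness because
`F ≤ f (1+nsq v)^p ≤ C (1+‖v‖)^(-1)` and `B ≥ β₀ > 0`.
-/

set_option autoImplicit false

open MeasureTheory Set Filter Topology Pool.Agent.H25.Kin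
open scoped ENNReal

namespace Pool.Agent.H82.BK

variable {d : ℕ}

/-- reduction of the position to the unit cube -/
private lemma t2_per {F : Vec d → ℝ} (hF : Per F) (x : Vec d) :
    ∃ y ∈ Icc (0 : Vec d) 1, F y = F x := by
  refine ⟨fun i => Int.fract (x i), ⟨fun i => Int.fract_nonneg _, fun i => (Int.fract_lt_one _).le⟩, ?_⟩
  have hl : (fun i => (-(⌊x i⌋ : ℤ) : ℝ)) ∈
      Submodule.span ℤ (Set.range (Pi.basisFun ℝ (Fin d))) := by
    have e : (fun i => (-(⌊x i⌋ : ℤ) : ℝ)) = ∑ i, (-⌊x i⌋ : ℤ) • (Pi.basisFun ℝ (Fin d) i) := by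
      funext j
      rw [Finset.sum_apply]
      simp only [Pi.basisFun_apply, Pi.smul_apply, Pi.single_apply]
      rw [Finset.sum_eq_single j]
      · simp
      · intro b _ hb
        simp [Ne.symm hb]
      · intro h
        exact absurd (Finset.mem_univ _) h
    rw [e]
    exact Submodule.sum_mem _ fun i _ => Submodule.smul_mem _ _
      (Submodule.subset_span (Set.mem_range_self i))
  have h := hF.span hl x
  have e2 : (fun i => (-(⌊x i⌋ : ℤ) : ℝ)) + x = fun i => Int.fract (x i) := by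
    funext i
    simp only [Pi.add_apply, Int.fract]
    ring
  rw [e2] at h
  exact h

/-- velocities with a large value of `F` are bounded -/
private lemma t2_bdd {T : ℝ} {Q f : ℝ → Vec d → Vec d → ℝ} (hf : IsClassicalSol T Q f) (p : ℕ)
    {T₁ : ℝ} (hT₁ : T₁ < T) {β : ℝ} (hβ : 0 < β) :
    ∃ R : ℝ, ∀ t ∈ Icc 0 T₁, ∀ x v, β ≤ f t x v * (1 + nsq v) ^ p → ‖v‖ ≤ R := by
  obtain ⟨C, hC⟩ := hf.decay T₁ hT₁ (2 * p + 1)
  refine ⟨((d : ℝ) + 1) ^ p * C / β, fun t ht x v h => ?_⟩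
  have h0 : 0 ≤ f t x v := hf.nonneg t ⟨ht.1, ht.2.trans_lt hT₁⟩ x v
  have h1 := hC t ht x v
  have hn := norm_nonneg v
  have h2 : 1 + nsq v ≤ ((d : ℝ) + 1) * (1 + ‖v‖) ^ 2 := by
    have h3 := sq_le v
    have h4 : (0 : ℝ) ≤ d := Nat.cast_nonneg _
    nlinarith [mul_nonneg h4 hn]
  have h5 : (1 + nsq v) ^ p ≤ ((d : ℝ) + 1) ^ p * (1 + ‖v‖) ^ (2 * p) := by
    rw [pow_mul, ← mul_pow]
    exact pow_le_pow_left₀ (by have := sq_nonneg' v; linarith) h2 p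
  have h6 : f t x v * (1 + nsq v) ^ p ≤ f t x v * (((d : ℝ) + 1) ^ p * (1 + ‖v‖) ^ (2 * p)) :=
    mul_le_mul_of_nonneg_left h5 h0
  rw [le_div_iff₀ hβ]
  have h7 : β * (1 + ‖v‖) ≤ ((d : ℝ) + 1) ^ p * C := by
    calc β * (1 + ‖v‖) ≤ (f t x v * (((d : ℝ) + 1) ^ p * (1 + ‖v‖) ^ (2 * p))) * (1 + ‖v‖) := by
          gcongr
          exact h.trans h6
      _ = ((d : ℝ) + 1) ^ p * ((1 + ‖v‖) ^ (2 * p + 1) * f t x v) := by ring
      _ ≤ ((d : ℝ) + 1) ^ p * C := by gcongr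
  nlinarith

theorem first_touch_weight {T : ℝ} {Q f : ℝ → Vec d → Vec d → ℝ} (hf : IsClassicalSol T Q f) (p : ℕ)
    {T₁ : ℝ} (hT₀ : 0 ≤ T₁) (hT₁ : T₁ < T) {B : ℝ → ℝ} (hB : ContinuousOn B (Icc 0 T₁))
    (hB0 : ∀ t ∈ Icc 0 T₁, 0 < B t) {W : ℝ → Vec d → ℝ}
    (hW : ContinuousOn (fun q : ℝ × Vec d => W q.1 q.2) (Icc 0 T₁ ×ˢ univ))
    (hW0 : ∀ t ∈ Icc 0 T₁, ∀ v, 0 ≤ W t v) (hW1 : ∀ t ∈ Icc 0 T₁, ∀ v, W t v ≤ (1 + nsq v) ^ p)
    (h0 : ∀ x v, f 0 x v * W 0 v < B 0)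
    (hex : ∃ t ∈ Icc 0 T₁, ∃ x v, B t ≤ f t x v * W t v) :
    ∃ t₀ ∈ Ioc 0 T₁, ∃ x₀ v₀, f t₀ x₀ v₀ * W t₀ v₀ = B t₀ ∧
      (∀ t ∈ Ico 0 t₀, ∀ x v, f t x v * W t v < B t) ∧
      (∀ x v, f t₀ x v * W t₀ v ≤ B t₀) := by
  obtain ⟨tm, htm, hmin⟩ := isCompact_Icc.exists_isMinOn (nonempty_Icc.2 hT₀) hB
  have hβ := hB0 tm htm
  obtain ⟨R, hR⟩ := t2_bdd hf p hT₁ hβ
  have hsub : Icc (0 : ℝ) T₁ ⊆ Ico 0 T := fun t ht => ⟨ht.1, ht.2.trans_lt hT₁⟩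
  have hper : ∀ t ∈ Icc (0 : ℝ) T₁, ∀ v : Vec d, Per fun x => f t x v := fun t ht v x i =>
    hf.periodic t (hsub ht) x v i
  set K : Set (ℝ × Vec d × Vec d) := Icc 0 T₁ ×ˢ (Icc (0 : Vec d) 1 ×ˢ Metric.closedBall (0 : Vec d) R)
    with hK
  have hKc : IsCompact K := isCompact_Icc.prod (isCompact_Icc.prod (isCompact_closedBall _ _))
  have hFc : ContinuousOn (fun q : ℝ × Vec d × Vec d => unc f q * W q.1 q.2.2)
      (Icc 0 T₁ ×ˢ univ) := by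
    refine ((show ContinuousOn (unc f) (Ico 0 T ×ˢ univ) from hf.isCont).mono
      fun q hq => ⟨hsub hq.1, mem_univ _⟩).mul ?_
    exact hW.comp (f := fun q : ℝ × Vec d × Vec d => (q.1, q.2.2))
      (Continuous.continuousOn (by fun_prop)) fun q hq => ⟨hq.1, mem_univ _⟩
  have hGc : ContinuousOn (fun q : ℝ × Vec d × Vec d => unc f q * W q.1 q.2.2 - B q.1) K := by
    refine (hFc.mono fun q hq => ⟨hq.1, mem_univ _⟩).sub ?_
    exact hB.comp continuous_fst.continuousOn fun q hq => hq.1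
  set S : Set (ℝ × Vec d × Vec d) :=
    K ∩ (fun q : ℝ × Vec d × Vec d => unc f q * W q.1 q.2.2 - B q.1) ⁻¹' Ici 0 with hS
  have hSc : IsCompact S := hKc.of_isClosed_subset
    (hGc.preimage_isClosed_of_isClosed hKc.isClosed isClosed_Ici) inter_subset_left
  have hmem : ∀ t ∈ Icc (0 : ℝ) T₁, ∀ x v, B t ≤ f t x v * W t v →
      ∃ y, (t, y, v) ∈ S := by
    intro t ht x v h
    obtain ⟨y, hy, hyx⟩ := t2_per (hper t ht v) x
    refine ⟨y, ⟨⟨ht, hy, ?_⟩, ?_⟩⟩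
    · rw [Metric.mem_closedBall, dist_zero_right]
      refine hR t ht x v (((hmin ht).trans h).trans ?_)
      exact mul_le_mul_of_nonneg_left (hW1 t ht v) (hf.nonneg t (hsub ht) x v)
    · simp only [mem_preimage, mem_Ici, unc]
      have : f t y v = f t x v := hyx
      rw [this]
      linarith
  obtain ⟨t1, ht1, x1, v1, h1⟩ := hex
  obtain ⟨y1, hy1⟩ := hmem t1 ht1 x1 v1 h1
  obtain ⟨q, hqS, hq⟩ := hSc.exists_isMinOn ⟨_, hy1⟩ (f := fun q : ℝ × Vec d × Vec d => q.1)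
    continuous_fst.continuousOn
  obtain ⟨t₀, x₀, v₀⟩ := q
  have ht₀ : t₀ ∈ Icc 0 T₁ := hqS.1.1
  have hge : B t₀ ≤ f t₀ x₀ v₀ * W t₀ v₀ := by
    have := hqS.2
    simp only [mem_preimage, mem_Ici, unc] at this
    linarith
  have hlt : ∀ t ∈ Ico 0 t₀, ∀ x v, f t x v * W t v < B t := by
    intro t ht x v
    by_contra hcon
    push Not at hcon
    obtain ⟨y, hy⟩ := hmem t ⟨ht.1, ht.2.le.trans ht₀.2⟩ x v hcon
    have h2 : t₀ ≤ t := hq hy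
    exact absurd ht.2 (not_lt.2 h2)
  have hpos : 0 < t₀ := by
    rcases ht₀.1.lt_or_eq with h | h
    · exact h
    · exfalso
      subst h
      exact absurd hge (not_le.2 (h0 x₀ v₀))
  have hle : ∀ x v, f t₀ x v * W t₀ v ≤ B t₀ := by
    intro x v
    have hc : ContinuousOn (fun t : ℝ => f t x v * W t v) (Icc 0 T₁) := by
      have h3 : ContinuousOn (fun t : ℝ => (fun q : ℝ × Vec d × Vec d =>
          unc f q * W q.1 q.2.2) (t, x, v)) (Icc 0 T₁) := by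
        refine hFc.comp (Continuous.continuousOn (by fun_prop)) fun t ht => ⟨ht, mem_univ _⟩
      exact h3
    have hne : (𝓝[Ico 0 t₀] t₀).NeBot := by
      rw [← mem_closure_iff_nhdsWithin_neBot, closure_Ico hpos.ne]
      exact ⟨hpos.le, le_rfl⟩
    have hs : Ico 0 t₀ ⊆ Icc 0 T₁ := fun t ht => ⟨ht.1, ht.2.le.trans ht₀.2⟩
    have l1 : Tendsto (fun t : ℝ => f t x v * W t v) (𝓝[Ico 0 t₀] t₀)
        (𝓝 (f t₀ x v * W t₀ v)) := (hc t₀ ht₀).mono hs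
    have l2 : Tendsto B (𝓝[Ico 0 t₀] t₀) (𝓝 (B t₀)) := (hB t₀ ht₀).mono hs
    refine le_of_tendsto_of_tendsto l1 l2 ?_
    filter_upwards [self_mem_nhdsWithin] with t ht
    exact (hlt t ht x v).le
  exact ⟨t₀, ⟨hpos, ht₀.2⟩, x₀, v₀, le_antisymm (hle x₀ v₀) hge, hlt, hle⟩

end Pool.Agent.H82.BK
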