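import Pool.Agent.H25.Kin.BMain

/-!
# Definitions for the operator bound at a touching point (MP_c15324_an)
-/

set_option autoImplicit false

open MeasureTheory Set Filter Topology Pool.Agent.H25.Kin
open scoped ENNReal

namespace Pool.Agent.H82.BK

variable {d : ℕ}

/-- the angular kernel with the grazing collisions `x > 1 - ε` removed -/
noncomputable def bcut (b : ℝ → ℝ) (ε x : ℝ) : ℝ := if x ≤ 1 - ε then b x else 0

/-- the kernel folded to `[0,1]` -/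
noncomputable def bt (b : ℝ → ℝ) (ε x : ℝ) : ℝ :=
  (if 0 < x then bcut b ε x else 0) + (if 0 ≤ x then bcut b ε (-x) else 0)

/-- the relative velocity `k = 2m - (|m|²/(m·σ)) σ`, inverse of `k ↦ (k + |k|σ)/2` -/
noncomputable def kap (σ m : Vec d) : Vec d := (2 : ℝ) • m - (nsq m / dot m σ) • σ

/-- the displacement `h = v' - v = (|m|²/(m·σ)) σ - m` -/
noncomputable def hh (σ m : Vec d) : Vec d := (nsq m / dot m σ) • σ - m

/-- the cosine `c = m·σ/|m|` of the half angle -/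
noncomputable def co (m σ : Vec d) : ℝ := dot m σ / len m

/-- the kernel in the variable `c`: `2^(d-1) c^(-2-γ) β(2c²-1)` -/
noncomputable def Kn (d : ℕ) (γ : ℝ) (β : ℝ → ℝ) (c : ℝ) : ℝ :=
  2 ^ (d - 1) * c ^ (-2 - γ) * β (2 * c ^ 2 - 1)

/-- the weight `(1+|z|²)^((γ+2s)/2) + |v-z|^(min γ 0)` -/
noncomputable def wgt (γ s : ℝ) (v z : Vec d) : ℝ :=
  (1 + nsq z) ^ ((γ + 2 * s) / 2) + len (v - z) ^ (min γ 0)

/-- gain of the cut-off operator -/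
noncomputable def Gn (γ : ℝ) (b : ℝ → ℝ) (ε : ℝ) (g : Vec d → ℝ) (v : Vec d) : ℝ≥0∞ :=
  ∫⁻ w, ∫⁻ σ, ENNReal.ofReal (kerB γ b ε v w σ * (g (post' v w σ) * g (post v w σ))) ∂(surf d)

/-- loss of the cut-off operator -/
noncomputable def Ls (γ : ℝ) (b : ℝ → ℝ) (ε : ℝ) (g : Vec d → ℝ) (v : Vec d) : ℝ≥0∞ :=
  ∫⁻ w, ∫⁻ σ, ENNReal.ofReal (kerB γ b ε v w σ * (g w * g v)) ∂(surf d)

/-- the main region: `v' = v + h` is not in the exceptional region `|v'|² < a/4 ≤ |h|²/1`,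
`a = 1 + |v|²` -/
def MainR (v h : Vec d) : Prop := ¬ (nsq (v + h) < (1 + nsq v) / 4 ∧ (1 + nsq v) / 4 ≤ nsq h)

open Classical in
/-- main gain, angular integral at fixed `m = v - z`:
`∫_{m·σ>0} K(c) g(v+h) 1[not exceptional] dσ` -/
noncomputable def GM (γ : ℝ) (b : ℝ → ℝ) (ε : ℝ) (g : Vec d → ℝ) (v m : Vec d) : ℝ≥0∞ :=
  ∫⁻ σ in {σ : Vec d | 0 < dot m σ}, (if MainR v (hh σ m) then
    ENNReal.ofReal (Kn d γ (bt b ε) (co m σ) * g (v + hh σ m)) else 0) ∂(surf d)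

/-- exceptional gain, angular integral at fixed `m = v - z` -/
noncomputable def GE (γ : ℝ) (b : ℝ → ℝ) (ε : ℝ) (g : Vec d → ℝ) (v m : Vec d) : ℝ≥0∞ :=
  ∫⁻ σ in {σ : Vec d | 0 < dot m σ},
    ENNReal.ofReal (Kn d γ (fun x => bt b ε (-x)) (co m σ) * g (v + hh σ m)) ∂(surf d)

/-- angular mass of the folded kernel, `B_ε = ∫ bt(e·σ) dσ` -/
noncomputable def BB (b : ℝ → ℝ) (ε : ℝ) (e : Vec d) : ℝ≥0∞ :=
  ∫⁻ σ, ENNReal.ofReal (bt b ε (dot e σ)) ∂(surf d)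

/-- the unit vector `m/|m|` -/
noncomputable def dir (m : Vec d) : Vec d := (len m)⁻¹ • m

end Pool.Agent.H82.BK
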