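import Pool.Agent.H82.BK.Geo

/-!
# Module CVa: the map `kap σ m = 2m - (|m|²/(m·σ)) σ` on the half space `{m·σ > 0}`

Proofs (`|σ| = 1`, `0 < m·σ`):
* `|kap|² = 4|m|² - 4 (|m|²/(m·σ)) (m·σ) + |m|⁴/(m·σ)² = |m|⁴/(m·σ)²`, hence `len (kap σ m) = |m|²/(m·σ)`.
* left inverse: `(1/2)(kap σ m + len (kap σ m) σ) = m`.
* `kap·σ = 2 m·σ - |m|²/(m·σ)`.
* image: if `k·σ > -|k|` put `m = (k+|k|σ)/2`: `m·σ = (k·σ+|k|)/2 > 0`, `|m|² = |k|(|k|+k·σ)/2`, `|m|²/(m·σ) = |k|`,
  `kap σ m = k+|k|σ-|k|σ = k`. Conversely `kap·σ + |kap| = 2 m·σ > 0`.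
* the complement of the image is `{k·σ ≤ -|k|}`; there `k = -|k|σ` (equality in Cauchy-Schwarz:
  `|k + |k|σ|² = |k|² + 2|k| k·σ + |k|² ≤ 0`), so it is contained in the line `ℝσ`, a proper subspace (d ≥ 2):
  `Measure.addHaar_submodule` (`Submodule.span ℝ {σ} ≠ ⊤` by `finrank_span_singleton`).
* derivative: with `B w = 2 w - (2 (m·w)/(m·σ) - |m|² (σ·w)/(m·σ)²) σ`; determinant: `B = 2 (1 - (1/2) σ ⊗ ℓ)`,
  `ℓ(w) = 2 (m·w)/(m·σ) - |m|² (σ·w)/(m·σ)²`, `det = 2^d (1 - ℓ(σ)/2) = 2^d |m|²/(2 (m·σ)²)`.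
  For the determinant copy the proof of `det_dil` in Pool/Agent/H25/Kin/Cap.lean
  (`Matrix.det_one_add_replicateCol_mul_replicateRow`). `hasFDerivAt_sq` is in Basic/Sym of that library.
-/

set_option autoImplicit false

open MeasureTheory Set Filter Topology Pool.Agent.H25.Kin
open scoped ENNReal

namespace Pool.Agent.H82.BK

variable {d : ℕ} {m σ : Vec d}

lemma len_kap (hσ : nsq σ = 1) (h : 0 < dot m σ) : len (kap σ m) = nsq m / dot m σ := by
  have hm := ne_zero_of_dot h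
  have h0 : dot m σ ≠ 0 := h.ne'
  have h1 : nsq (kap σ m) = (nsq m / dot m σ) ^ 2 := by
    unfold kap
    rw [nsq_sub, nsq_smul, nsq_smul, smul_dot, dot_smul, hσ]
    field_simp
    ring
  unfold len
  rw [h1, Real.sqrt_sq (div_nonneg (sq_nonneg' m) h.le)]

lemma dot_kap (hσ : nsq σ = 1) : dot (kap σ m) σ = 2 * dot m σ - nsq m / dot m σ := by
  unfold kap
  rw [dot_comm, dot_sub, dot_smul, dot_smul, dot_self, hσ, dot_comm σ m]
  ring

lemma kap_left (hσ : nsq σ = 1) (h : 0 < dot m σ) :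
    (1 / 2 : ℝ) • (kap σ m + len (kap σ m) • σ) = m := by
  rw [len_kap hσ h]
  unfold kap
  rw [sub_add_cancel, smul_smul]
  norm_num

lemma kap_injOn (hσ : nsq σ = 1) : InjOn (kap σ) {m : Vec d | 0 < dot m σ} := by
  intro m hm m' hm' heq
  rw [← kap_left hσ hm, ← kap_left hσ hm', heq]

lemma kap_image (hσ : nsq σ = 1) :
    kap σ '' {m : Vec d | 0 < dot m σ} = {k : Vec d | -len k < dot k σ} := by
  ext k
  constructor
  · rintro ⟨m, hm, rfl⟩
    change -len (kap σ m) < dot (kap σ m) σ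
    rw [dot_kap hσ, len_kap hσ hm]
    have : 0 < dot m σ := hm
    linarith
  · intro hk
    change -len k < dot k σ at hk
    have h1 : dot ((1 / 2 : ℝ) • (k + len k • σ)) σ = (dot k σ + len k) / 2 := by
      rw [smul_dot, dot_comm, dot_add, dot_smul, dot_self, hσ, dot_comm σ k]
      ring
    have h2 : nsq ((1 / 2 : ℝ) • (k + len k • σ)) = len k * ((dot k σ + len k) / 2) := by
      rw [nsq_smul, nsq_add, nsq_smul, dot_smul, hσ, ← len_sq k]
      ring
    have h3 : 0 < (dot k σ + len k) / 2 := by linarith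
    refine ⟨(1 / 2 : ℝ) • (k + len k • σ), ?_, ?_⟩
    · change 0 < dot _ σ
      rw [h1]
      exact h3
    · unfold kap
      rw [h1, h2, mul_div_assoc, div_self h3.ne', mul_one, smul_smul]
      norm_num

lemma ray_null (hd : 2 ≤ d) (hσ : nsq σ = 1) :
    (volume : Measure (Vec d)) {k : Vec d | ¬ (-len k < dot k σ)} = 0 := by
  have hsub : {k : Vec d | ¬ (-len k < dot k σ)} ⊆ (Submodule.span ℝ {σ} : Set (Vec d)) := by
    intro k hk
    change ¬ (-len k < dot k σ) at hk
    push Not at hk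
    have h1 : nsq (k + len k • σ) ≤ 0 := by
      rw [nsq_add, nsq_smul, dot_smul, hσ, ← len_sq k]
      have h2 := len_nonneg k
      nlinarith
    have h2 : k + len k • σ = 0 := by
      by_contra hne
      exact absurd (sq_pos_of_ne hne) (not_lt.mpr h1)
    have h3 : k = (-len k) • σ := by
      rw [neg_smul]
      exact eq_neg_of_add_eq_zero_left h2
    rw [SetLike.mem_coe, h3]
    exact Submodule.smul_mem _ _ (Submodule.mem_span_singleton_self σ)
  refine measure_mono_null hsub (Measure.addHaar_submodule volume _ ?_)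
  intro htop
  have hne : σ ≠ 0 := by
    rintro rfl
    simp [nsq] at hσ
  have h1 : Module.finrank ℝ (Submodule.span ℝ {σ} : Submodule ℝ (Vec d)) = 1 :=
    finrank_span_singleton hne
  rw [htop, finrank_top, Module.finrank_fin_fun] at h1
  omega

lemma kap_deriv (hd : 2 ≤ d) (hσ : nsq σ = 1) (h : 0 < dot m σ) : ∃ B : Vec d →L[ℝ] Vec d,
    HasFDerivAt (kap σ) B m ∧ |B.det| = 2 ^ (d - 1) * (nsq m / dot m σ ^ 2) := by
  have h0 : dot m σ ≠ 0 := h.ne'
  set D1 : Vec d →L[ℝ] ℝ :=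
    ∑ i, (2 * m i) • ContinuousLinearMap.proj (R := ℝ) (φ := fun _ : Fin d => ℝ) i with hD1
  set D2 : Vec d →L[ℝ] ℝ :=
    ∑ i, (σ i) • ContinuousLinearMap.proj (R := ℝ) (φ := fun _ : Fin d => ℝ) i with hD2
  have e1 : HasFDerivAt (nsq : Vec d → ℝ) D1 m := hasFDerivAt_sq m
  have hD2a : ∀ w, D2 w = dot w σ := by
    intro w
    rw [hD2, ContinuousLinearMap.sum_apply]
    unfold dot
    refine Finset.sum_congr rfl fun i _ => ?_
    rw [ContinuousLinearMap.smul_apply, ContinuousLinearMap.proj_apply, smul_eq_mul, mul_comm]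
  have hD1a : D1 σ = 2 * dot m σ := by
    rw [hD1, ContinuousLinearMap.sum_apply]
    unfold dot
    rw [Finset.mul_sum]
    refine Finset.sum_congr rfl fun i _ => ?_
    rw [ContinuousLinearMap.smul_apply, ContinuousLinearMap.proj_apply, smul_eq_mul]
    ring
  have e2 : HasFDerivAt (fun w : Vec d => dot w σ) D2 m := by
    have h1 : (fun w : Vec d => dot w σ) = D2 := funext fun w => (hD2a w).symm
    rw [h1]
    exact D2.hasFDerivAt
  have e3 := (hasDerivAt_inv h0).comp_hasFDerivAt m e2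
  have e4 := e1.mul e3
  have e5 := ((hasFDerivAt_id m).const_smul (2 : ℝ)).sub (e4.smul_const σ)
  set l : Vec d →L[ℝ] ℝ := nsq m • (-(dot m σ ^ 2)⁻¹) • D2 +
    ((fun y : ℝ => y⁻¹) ∘ fun w : Vec d => dot w σ) m • D1 with hl
  refine ⟨(2 : ℝ) • ContinuousLinearMap.id ℝ (Vec d) - l.smulRight σ, ?_, ?_⟩
  · refine e5.congr_of_eventuallyEq (Filter.Eventually.of_forall fun w => ?_)
    change kap σ w = (2 : ℝ) • w - (nsq w * (dot w σ)⁻¹) • σ
    unfold kap
    rw [div_eq_mul_inv]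
  · have h1 : l σ = 2 - nsq m / dot m σ ^ 2 := by
      rw [hl]
      simp only [ContinuousLinearMap.add_apply, ContinuousLinearMap.smul_apply,
        Function.comp_apply, smul_eq_mul, hD1a, hD2a, dot_self, hσ]
      field_simp
      ring
    have h2 : (((2 : ℝ) • ContinuousLinearMap.id ℝ (Vec d) - l.smulRight σ : Vec d →L[ℝ] Vec d) :
        Vec d →ₗ[ℝ] Vec d) =
        (2 : ℝ) • LinearMap.transvection (-((1 / 2 : ℝ) • (l : Vec d →ₗ[ℝ] ℝ))) σ := by
      refine LinearMap.ext fun w => ?_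
      rw [LinearMap.smul_apply, LinearMap.transvection.apply]
      simp only [ContinuousLinearMap.coe_coe, ContinuousLinearMap.sub_apply,
        ContinuousLinearMap.smul_apply, ContinuousLinearMap.id_apply,
        ContinuousLinearMap.smulRight_apply, LinearMap.neg_apply, LinearMap.smul_apply,
        smul_eq_mul, smul_add, smul_smul]
      rw [sub_eq_add_neg, ← neg_smul]
      congr 2
      ring
    rw [ContinuousLinearMap.det, h2, LinearMap.det_smul, LinearMap.transvection.det,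
      Module.finrank_fin_fun]
    simp only [LinearMap.neg_apply, LinearMap.smul_apply, ContinuousLinearMap.coe_coe,
      smul_eq_mul, h1]
    have h3 : (2 : ℝ) ^ d = 2 ^ (d - 1) * 2 := by
      rw [← pow_succ]
      congr 1
      omega
    have h4 : (2 : ℝ) ^ d * (1 + -(1 / 2 * (2 - nsq m / dot m σ ^ 2))) =
        2 ^ (d - 1) * (nsq m / dot m σ ^ 2) := by
      rw [h3]
      ring
    rw [h4]
    refine abs_of_nonneg ?_
    have := sq_nonneg' m
    positivity

end Pool.Agent.H82.BK
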