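import Pool.Agent.H82.BK.Geo

/-!
# Module Exc: the exceptional gain

`|z|² < a/4`, `a/4 ≤ |m|²`, `z = v-m`. The kernel `Kn d γ (bt b ε (-·)) c = 2^(d-1) c^(-2-γ) bt(1-2c²)` vanishes unless `2c² ≤ 1`
(`bt_neg`). For `0 < c`, `2c² ≤ 1`: `1+|v+h|² = a+|h|²+2z·h ≥ (a+|h|²)/2` (`|2 z·h| ≤ 2 (√a/2) len h ≤ (a+|h|²)/2`),
`|h|² = |m|²(1-c²)/c² ≥ a/(8c²)`, so `1+|v+h|² ≥ a/(16c²)`, `g(v+h) ≤ g(v) (16c²)^p`; `bt(1-2c²) ≤ 2C (2c²)^(-B)` (`bt_le`,
`B = (d-1)/2+s`). So the integrand is `≤ 2^(d-1) 2C 16^p 2^(-B) g(v) c^(2p-2-γ-2B) ≤ L g(v)` as `2p-2-γ-2B = 2p-d-1-γ-2s ≥ 0`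
and `c ≤ 1`; `surf d` is a finite measure.
-/

set_option autoImplicit false

open MeasureTheory Set Filter Topology Pool.Agent.H25.Kin
open scoped ENNReal

namespace Pool.Agent.H82.BK

variable {d : ℕ}

private lemma dot_exc {v m σ : Vec d} (hσ : nsq σ = 1) (hd : 0 < dot m σ)
    (h1 : nsq (v - m) < (1 + nsq v) / 4) (h2 : (1 + nsq v) / 4 ≤ nsq m)
    (hc : 2 * co m σ ^ 2 ≤ 1) :
    1 + nsq v ≤ 16 * co m σ ^ 2 * (1 + nsq (v + hh σ m)) := by
  have hcp := co_pos hd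
  have hc2 : 0 < co m σ ^ 2 := by positivity
  have hv : 0 ≤ nsq v := sq_nonneg' v
  have hm : 0 ≤ nsq m := sq_nonneg' m
  have hh0 : 0 ≤ nsq (hh σ m) := sq_nonneg' _
  have hh1 : co m σ ^ 2 * nsq (hh σ m) = nsq m * (1 - co m σ ^ 2) := by
    rw [nsq_hh hσ hd]; field_simp
  have e1 := one_add_nsq_add v hd
  have e2 := dot_sq_le (v - m) (hh σ m)
  have e3 : (2 * dot (v - m) (hh σ m)) ^ 2 ≤ ((1 + nsq v + nsq (hh σ m)) / 2) ^ 2 := by
    nlinarith [sq_nonneg (1 + nsq v - nsq (hh σ m))]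
  have e4 := (abs_le_of_sq_le_sq' e3 (by positivity)).1
  have e5 : (1 + nsq v + nsq (hh σ m)) / 2 ≤ 1 + nsq (v + hh σ m) := by linarith
  have e6 : (1 + nsq v) / 8 ≤ co m σ ^ 2 * nsq (hh σ m) := by
    rw [hh1]
    nlinarith
  have e7 : co m σ ^ 2 * ((1 + nsq v + nsq (hh σ m)) / 2) ≤
      co m σ ^ 2 * (1 + nsq (v + hh σ m)) := mul_le_mul_of_nonneg_left e5 hc2.le
  nlinarith

private lemma rpow_exc {c γ B : ℝ} {p : ℕ} (hc : 0 < c) (hc1 : c ≤ 1)
    (hE : 0 ≤ -2 - γ - 2 * B + 2 * p) :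
    c ^ (-2 - γ) * (2 * c ^ 2) ^ (-B) * (16 * c ^ 2) ^ p ≤ 2 ^ (-B) * 16 ^ p := by
  have h1 : (2 * c ^ 2) ^ (-B) = 2 ^ (-B) * c ^ (-2 * B) := by
    rw [Real.mul_rpow (by norm_num) (by positivity), ← Real.rpow_natCast c 2,
      ← Real.rpow_mul hc.le]
    congr 2
    push_cast
    ring
  have h2 : (16 * c ^ 2) ^ p = 16 ^ p * c ^ (2 * (p : ℝ)) := by
    rw [mul_pow, ← pow_mul, ← Real.rpow_natCast c (2 * p)]
    push_cast
    ring
  have h3 : c ^ (-2 - γ) * c ^ (-2 * B) * c ^ (2 * (p : ℝ)) ≤ 1 := by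
    rw [← Real.rpow_add hc, ← Real.rpow_add hc]
    exact Real.rpow_le_one hc.le hc1 (by linarith)
  have h4 : (0 : ℝ) ≤ 2 ^ (-B) * 16 ^ p := by positivity
  calc c ^ (-2 - γ) * (2 * c ^ 2) ^ (-B) * (16 * c ^ 2) ^ p
      = (2 ^ (-B) * 16 ^ p) * (c ^ (-2 - γ) * c ^ (-2 * B) * c ^ (2 * (p : ℝ))) := by
        rw [h1, h2]; ring
    _ ≤ (2 ^ (-B) * 16 ^ p) * 1 := mul_le_mul_of_nonneg_left h3 h4
    _ = _ := mul_one _

theorem exc_bound {γ s : ℝ} {b : ℝ → ℝ} {C Ca : ℝ} (H : Hyp d γ s b C Ca) {p : ℕ}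
    (hp : (d : ℝ) + γ + 4 ≤ 2 * p) :
    ∃ K : ℝ, 0 ≤ K ∧ ∀ g : Vec d → ℝ, Measurable g → (∀ u, 0 ≤ g u) → ∀ v : Vec d,
      (∀ u, g u * (1 + nsq u) ^ p ≤ g v * (1 + nsq v) ^ p) → ∀ m : Vec d,
      nsq (v - m) < (1 + nsq v) / 4 → (1 + nsq v) / 4 ≤ nsq m → ∀ ε > 0,
      GE γ b ε g v m ≤ ENNReal.ofReal (K * g v) := by
  set B : ℝ := ((d : ℝ) - 1) / 2 + s with hB
  have hC0 : 0 ≤ C := H.bd.1
  set L : ℝ := 2 ^ (d - 1) * (2 * C) * (2 ^ (-B) * 16 ^ p) with hL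
  have hL0 : 0 ≤ L := by positivity
  refine ⟨L * (surf d univ).toReal, by positivity, ?_⟩
  intro g hgm hg0 v hgv m h1 h2 ε hε
  have key : ∀ σ : Vec d, nsq σ = 1 → 0 < dot m σ →
      Kn d γ (fun x => bt b ε (-x)) (co m σ) * g (v + hh σ m) ≤ L * g v := by
    intro σ hσ hd
    have hcp := co_pos hd
    have hc1 := co_le_one (m := m) hσ
    have hgv0 := hg0 v
    unfold Kn
    show 2 ^ (d - 1) * co m σ ^ (-2 - γ) * bt b ε (-(2 * co m σ ^ 2 - 1)) * g (v + hh σ m) ≤ L * g v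
    rcases lt_or_ge (-(2 * co m σ ^ 2 - 1)) 0 with hx | hx
    · rw [bt_neg hx]
      simp only [mul_zero, zero_mul]
      positivity
    · have hc2 : 2 * co m σ ^ 2 ≤ 1 := by linarith
      have hbt := bt_le (ε := ε) H.bd H.β0 hx (by have : 0 < co m σ ^ 2 := by positivity
                                                  linarith)
      have hx1 : 1 - -(2 * co m σ ^ 2 - 1) = 2 * co m σ ^ 2 := by ring
      rw [hx1] at hbt
      have hbn := bt_nonneg (ε := ε) H.bd hε (x := -(2 * co m σ ^ 2 - 1)) (by linarith)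
        (by have : 0 < co m σ ^ 2 := by positivity
            linarith)
      have hge := dot_exc hσ hd h1 h2 hc2
      have ha : 0 < 1 + nsq v := by have := sq_nonneg' v; linarith
      have ha' : 0 < 1 + nsq (v + hh σ m) := by have := sq_nonneg' (v + hh σ m); linarith
      have hg1 : g (v + hh σ m) ≤ g v * (16 * co m σ ^ 2) ^ p := by
        have h3 := hgv (v + hh σ m)
        have h4 : (1 + nsq v) ^ p ≤ (16 * co m σ ^ 2) ^ p * (1 + nsq (v + hh σ m)) ^ p := by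
          rw [← mul_pow]
          exact pow_le_pow_left₀ ha.le hge p
        have h5 : g (v + hh σ m) * (1 + nsq (v + hh σ m)) ^ p ≤
            (g v * (16 * co m σ ^ 2) ^ p) * (1 + nsq (v + hh σ m)) ^ p := by
          calc _ ≤ g v * (1 + nsq v) ^ p := h3
            _ ≤ g v * ((16 * co m σ ^ 2) ^ p * (1 + nsq (v + hh σ m)) ^ p) :=
                mul_le_mul_of_nonneg_left h4 hgv0
            _ = _ := by ring
        exact le_of_mul_le_mul_right h5 (by positivity)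
      have hrp := rpow_exc (c := co m σ) (γ := γ) (B := B) (p := p) hcp hc1 (by
        have := H.hs1
        rw [hB]
        linarith)
      have hc3 : 0 ≤ co m σ ^ (-2 - γ) := Real.rpow_nonneg hcp.le _
      calc 2 ^ (d - 1) * co m σ ^ (-2 - γ) * bt b ε (-(2 * co m σ ^ 2 - 1)) * g (v + hh σ m)
          ≤ 2 ^ (d - 1) * co m σ ^ (-2 - γ) * (2 * C * (2 * co m σ ^ 2) ^ (-B)) *
            (g v * (16 * co m σ ^ 2) ^ p) := by
            apply mul_le_mul _ hg1 (hg0 _) (by positivity)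
            exact mul_le_mul_of_nonneg_left hbt (by positivity)
        _ = 2 ^ (d - 1) * (2 * C) * g v *
            (co m σ ^ (-2 - γ) * (2 * co m σ ^ 2) ^ (-B) * (16 * co m σ ^ 2) ^ p) := by ring
        _ ≤ 2 ^ (d - 1) * (2 * C) * g v * (2 ^ (-B) * 16 ^ p) :=
            mul_le_mul_of_nonneg_left hrp (by positivity)
        _ = L * g v := by rw [hL]; ring
  unfold GE
  calc ∫⁻ σ in {σ : Vec d | 0 < dot m σ},
        ENNReal.ofReal (Kn d γ (fun x => bt b ε (-x)) (co m σ) * g (v + hh σ m)) ∂(surf d)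
      ≤ ∫⁻ σ in {σ : Vec d | 0 < dot m σ}, ENNReal.ofReal (L * g v) ∂(surf d) := by
        apply lintegral_mono_ae
        filter_upwards [ae_restrict_of_ae surf_ae, ae_restrict_mem (measurableSet_half m)]
          with σ hσ hd
        exact ENNReal.ofReal_le_ofReal (key σ hσ hd)
    _ = ENNReal.ofReal (L * g v) * surf d {σ : Vec d | 0 < dot m σ} := by
        rw [setLIntegral_const]
    _ ≤ ENNReal.ofReal (L * g v) * surf d univ := by gcongr; exact subset_univ _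
    _ = ENNReal.ofReal (L * (surf d univ).toReal * g v) := by
        have h0 : 0 ≤ L * g v := mul_nonneg hL0 (hg0 v)
        rw [show L * (surf d univ).toReal * g v = (L * g v) * (surf d univ).toReal by ring,
          ENNReal.ofReal_mul h0, ENNReal.ofReal_toReal (measure_ne_top _ _)]

end Pool.Agent.H82.BK
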