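import Pool.Agent.H82.BK.Coll

/-!
# Module Fold: folding of the kernel and the exceptional region

`gain_split`. Proof. `kerB γ b ε v w σ = len (v-w) ^ γ * bcut b ε (cosTh v w σ)`. On `|σ| = 1`, `x = cosTh ∈ [-1,1]`.
Let `Φ(w',v') = ofReal (g w' * g v')`.
(1) `∫∫ ofReal(len^γ bcut(x)) Φ(w',v') = ∫∫ ofReal(len^γ 1[x>0] bcut(x)) Φ + ∫∫ ofReal(len^γ 1[x≤0] bcut(x)) Φ`; in the
second integral replace `σ` by `-σ` (`neg_preserving`; `post v w (-σ) = post' v w σ`, `cosTh v w (-σ) = - cosTh v w σ`):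
it becomes `∫∫ ofReal(len^γ 1[x≥0] bcut(-x)) Φ` (Φ symmetric). Sum: `∫∫ ofReal(len^γ bt(x)) Φ`.
(2) Split `Φ = Φ 1[MainR] + Φ 1[not MainR]` with the region as a function of `v'`: `not MainR v (v'-v)` iff
`nsq v' < a/4 ∧ a/4 ≤ nsq (v'-v)`. Apply `coll_cv` with `β = bt b ε`, `Φ₁(w',v') = if MainR v (v'-v) then Φ else 0`: main part.
(3) In the exceptional part replace `σ` by `-σ` (so `x → -x`, `v' ↔ w'`) and apply `coll_cv` with
`β = fun x => bt b ε (-x)`, `Φ₂(w',v') = if nsq w' < a/4 ∧ a/4 ≤ nsq (w'-v) then Φ else 0`; for `w' = v - m` the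
condition is `nsq (v-m) < a/4 ∧ a/4 ≤ nsq m`, independent of `σ`.
Then `ofReal(len m ^ γ * Kn) * ofReal(g(v-m) g(v+h)) = ofReal(len m ^ γ g(v-m)) * ofReal(Kn * g(v+h))`: here `Kn` may be
negative only outside `|σ| = 1` (`bt_nonneg`, a.e.).
-/

set_option autoImplicit false

open MeasureTheory Set Filter Topology Pool.Agent.H25.Kin
open scoped ENNReal

namespace Pool.Agent.H82.BK

variable {d : ℕ}

private lemma fold_post_neg (v w σ : Vec d) : post v w (-σ) = post' v w σ := by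
  unfold post post'; rw [smul_neg, ← sub_eq_add_neg]

private lemma fold_post'_neg (v w σ : Vec d) : post' v w (-σ) = post v w σ := by
  unfold post post'; rw [smul_neg, sub_neg_eq_add]

private lemma fold_cosTh_neg (v w σ : Vec d) : cosTh v w (-σ) = -cosTh v w σ := by
  unfold cosTh; rw [neg_dot, neg_div]

/-- the collisional integral -/
private noncomputable def foldJ (γ : ℝ) (v : Vec d) (β : ℝ → ℝ) (Φ : Vec d → Vec d → ℝ≥0∞) :
    ℝ≥0∞ :=
  ∫⁻ w, ∫⁻ σ, ENNReal.ofReal (len (v - w) ^ γ * β (cosTh v w σ)) *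
    Φ (post' v w σ) (post v w σ) ∂(surf d)

private lemma fold_m0 (v : Vec d) : Measurable fun q : Vec d × Vec d => ((v, q.1, q.2) : Vec d × Vec d × Vec d) :=
    measurable_const.prodMk (measurable_fst.prodMk measurable_snd)
private lemma fold_m1 (γ : ℝ) (v : Vec d) : Measurable fun q : Vec d × Vec d => len (v - q.1) ^ γ := by
  have h : Measurable fun q : Vec d × Vec d => v - q.1 := measurable_const.sub measurable_fst
  exact (continuous_len.measurable.comp h).pow_const γ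
private lemma fold_m2 (v : Vec d) : Measurable fun q : Vec d × Vec d => cosTh v q.1 q.2 := by
  have := measurable_cosTh (d := d)
  exact this.comp (fold_m0 v)
private lemma fold_m3 (v : Vec d) : Measurable fun q : Vec d × Vec d => post' v q.1 q.2 := by
  have := (continuous_post' (d := d)).measurable
  exact this.comp (fold_m0 v)
private lemma fold_m4 (v : Vec d) : Measurable fun q : Vec d × Vec d => post v q.1 q.2 := by
  have := (continuous_post (d := d)).measurable
  exact this.comp (fold_m0 v)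
private lemma fold_meas (γ : ℝ) (v : Vec d) {β : ℝ → ℝ} (hβ : Measurable β)
    {Φ : Vec d → Vec d → ℝ≥0∞} (hΦ : Measurable fun p : Vec d × Vec d => Φ p.1 p.2) :
    Measurable fun q : Vec d × Vec d =>
      ENNReal.ofReal (len (v - q.1) ^ γ * β (cosTh v q.1 q.2)) *
        Φ (post' v q.1 q.2) (post v q.1 q.2) := by
  have m2 : Measurable fun q : Vec d × Vec d => β (cosTh v q.1 q.2) := hβ.comp (fold_m2 v)
  have m5 : Measurable fun q : Vec d × Vec d => Φ (post' v q.1 q.2) (post v q.1 q.2) :=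
    Measurable.comp (g := fun p : Vec d × Vec d => Φ p.1 p.2) hΦ ((fold_m3 v).prodMk (fold_m4 v))
  exact ((fold_m1 γ v).mul m2).ennreal_ofReal.mul m5

private lemma fold_meas' (γ : ℝ) (v : Vec d) {β : ℝ → ℝ} (hβ : Measurable β)
    {Φ : Vec d → Vec d → ℝ≥0∞} (hΦ : Measurable fun p : Vec d × Vec d => Φ p.1 p.2) (w : Vec d) :
    Measurable fun σ : Vec d =>
      ENNReal.ofReal (len (v - w) ^ γ * β (cosTh v w σ)) * Φ (post' v w σ) (post v w σ) := by
  have h2 : Measurable fun σ : Vec d => ((w, σ) : Vec d × Vec d) := measurable_const.prodMk measurable_id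
  have m2 : Measurable fun σ : Vec d => β (cosTh v w σ) := hβ.comp ((fold_m2 v).comp h2)
  have m3 : Measurable fun σ : Vec d => post' v w σ := (fold_m3 v).comp h2
  have m4 : Measurable fun σ : Vec d => post v w σ := (fold_m4 v).comp h2
  have m5 : Measurable fun σ : Vec d => Φ (post' v w σ) (post v w σ) :=
    Measurable.comp (g := fun p : Vec d × Vec d => Φ p.1 p.2) hΦ (m3.prodMk m4)
  exact (measurable_const.mul m2).ennreal_ofReal.mul m5

/-- exchange `σ ↦ -σ` -/
private lemma fold_neg (hd : 1 ≤ d) (γ : ℝ) (v : Vec d) {β : ℝ → ℝ} (hβ : Measurable β)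
    {Φ : Vec d → Vec d → ℝ≥0∞} (hΦ : Measurable fun p : Vec d × Vec d => Φ p.1 p.2) :
    foldJ γ v β Φ = foldJ γ v (fun x => β (-x)) (fun a b => Φ b a) := by
  unfold foldJ
  refine lintegral_congr fun w => ?_
  rw [← (neg_preserving hd).lintegral_comp (fold_meas' γ v hβ hΦ w)]
  refine lintegral_congr fun σ => ?_
  rw [fold_post_neg, fold_post'_neg, fold_cosTh_neg]

private lemma fold_congr (_ : 1 ≤ d) (γ : ℝ) (v : Vec d) {β β' : ℝ → ℝ}
    {Φ Φ' : Vec d → Vec d → ℝ≥0∞} (hβ : ∀ x, β x = β' x) (hΦ : ∀ a b, Φ a b = Φ' a b) :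
    foldJ γ v β Φ = foldJ γ v β' Φ' := by
  have e1 : β = β' := funext hβ
  have e2 : Φ = Φ' := funext fun a => funext fun b => hΦ a b
  rw [e1, e2]

/-- additivity in the kernel -/
private lemma fold_add_ker (γ : ℝ) (v : Vec d) {β₁ β₂ : ℝ → ℝ} (hβ₁ : Measurable β₁)
    (h₁ : ∀ x, -1 ≤ x → x ≤ 1 → 0 ≤ β₁ x) (h₂ : ∀ x, -1 ≤ x → x ≤ 1 → 0 ≤ β₂ x)
    {Φ : Vec d → Vec d → ℝ≥0∞} (hΦ : Measurable fun p : Vec d × Vec d => Φ p.1 p.2) :
    foldJ γ v (fun x => β₁ x + β₂ x) Φ = foldJ γ v β₁ Φ + foldJ γ v β₂ Φ := by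
  unfold foldJ
  rw [← lintegral_add_left (fold_meas γ v hβ₁ hΦ).lintegral_prod_right']
  refine lintegral_congr fun w => ?_
  rw [← lintegral_add_left (fold_meas' γ v hβ₁ hΦ w)]
  refine lintegral_congr_ae ?_
  filter_upwards [surf_ae] with σ hσ
  have hx := abs_le.1 (abs_cosTh_le (v := v) (w := w) hσ)
  have hl := Real.rpow_nonneg (len_nonneg (v - w)) γ
  rw [mul_add, ENNReal.ofReal_add (mul_nonneg hl (h₁ _ hx.1 hx.2)) (mul_nonneg hl (h₂ _ hx.1 hx.2)),
    add_mul]

/-- additivity in the function -/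
private lemma fold_add_fun (γ : ℝ) (v : Vec d) {β : ℝ → ℝ} (hβ : Measurable β)
    {Φ₁ Φ₂ : Vec d → Vec d → ℝ≥0∞} (hΦ₁ : Measurable fun p : Vec d × Vec d => Φ₁ p.1 p.2) :
    foldJ γ v β (fun a b => Φ₁ a b + Φ₂ a b) = foldJ γ v β Φ₁ + foldJ γ v β Φ₂ := by
  unfold foldJ
  rw [← lintegral_add_left (fold_meas γ v hβ hΦ₁).lintegral_prod_right']
  refine lintegral_congr fun w => ?_
  rw [← lintegral_add_left (fold_meas' γ v hβ hΦ₁ w)]
  refine lintegral_congr fun σ => ?_
  rw [mul_add]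

private lemma fold_meas_region (v : Vec d) :
    MeasurableSet {h : Vec d | MainR v h} := by
  have h1 : Measurable fun h : Vec d => nsq (v + h) :=
    continuous_sq.measurable.comp (measurable_const.add measurable_id)
  have h2 : Measurable fun h : Vec d => nsq h := continuous_sq.measurable
  have : {h : Vec d | MainR v h} =
      ({h : Vec d | nsq (v + h) < (1 + nsq v) / 4} ∩ {h : Vec d | (1 + nsq v) / 4 ≤ nsq h})ᶜ := by
    ext h; simp [MainR]
  rw [this]
  exact ((measurableSet_lt h1 measurable_const).inter (measurableSet_le measurable_const h2)).compl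

open Classical in
/-- the function of the pair, restricted to the main region -/
private noncomputable def foldP1 (g : Vec d → ℝ) (v a b : Vec d) : ℝ≥0∞ :=
  if MainR v (b - v) then ENNReal.ofReal (g a * g b) else 0

open Classical in
private noncomputable def foldP2 (g : Vec d → ℝ) (v a b : Vec d) : ℝ≥0∞ :=
  if MainR v (b - v) then 0 else ENNReal.ofReal (g a * g b)

private lemma foldP1_meas {g : Vec d → ℝ} (hg : Measurable g) (v : Vec d) :
    Measurable fun p : Vec d × Vec d => foldP1 g v p.1 p.2 := by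
  unfold foldP1
  refine Measurable.ite ?_ ((hg.comp measurable_fst).mul (hg.comp measurable_snd)).ennreal_ofReal
    measurable_const
  exact (measurable_snd.sub measurable_const) (fold_meas_region v)

private lemma foldP2_meas {g : Vec d → ℝ} (hg : Measurable g) (v : Vec d) :
    Measurable fun p : Vec d × Vec d => foldP2 g v p.1 p.2 := by
  unfold foldP2
  refine Measurable.ite ?_ measurable_const
    ((hg.comp measurable_fst).mul (hg.comp measurable_snd)).ennreal_ofReal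
  exact (measurable_snd.sub measurable_const) (fold_meas_region v)

private lemma fold_Gn (γ : ℝ) (b : ℝ → ℝ) (ε : ℝ) {g : Vec d → ℝ} (hg0 : ∀ u, 0 ≤ g u) (v : Vec d) :
    Gn γ b ε g v = foldJ γ v (bcut b ε) (fun a b => ENNReal.ofReal (g a * g b)) := by
  unfold Gn foldJ
  refine lintegral_congr fun w => lintegral_congr fun σ => ?_
  have e : kerB γ b ε v w σ = len (v - w) ^ γ * bcut b ε (cosTh v w σ) := by
    unfold kerB bcut
    split_ifs <;> simp
  rw [e]
  rw [← ENNReal.ofReal_mul' (mul_nonneg (hg0 _) (hg0 _))]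

/-- the kernel in terms of `c` is nonnegative on the sphere -/
private lemma fold_Kn_nonneg {γ : ℝ} {β' : ℝ → ℝ} (h : ∀ x, -1 ≤ x → x ≤ 1 → 0 ≤ β' x) {m σ : Vec d}
    (hσ : nsq σ = 1) (hm : 0 < dot m σ) : 0 ≤ Kn d γ β' (co m σ) := by
  have h1 := co_pos hm
  have h2 := co_le_one (m := m) hσ
  unfold Kn
  refine mul_nonneg (mul_nonneg (by positivity) (Real.rpow_nonneg h1.le _)) (h _ ?_ ?_)
  · nlinarith
  · nlinarith

private noncomputable def foldPhi (g : Vec d → ℝ) (a b : Vec d) : ℝ≥0∞ := ENNReal.ofReal (g a * g b)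

private lemma foldPhi_meas {g : Vec d → ℝ} (hg : Measurable g) :
    Measurable fun p : Vec d × Vec d => foldPhi g p.1 p.2 := by
  unfold foldPhi
  exact ((hg.comp measurable_fst).mul (hg.comp measurable_snd)).ennreal_ofReal

private noncomputable def foldb1 (b : ℝ → ℝ) (ε x : ℝ) : ℝ := if 0 < x then bcut b ε x else 0
private noncomputable def foldb2 (b : ℝ → ℝ) (ε x : ℝ) : ℝ := if x ≤ 0 then bcut b ε x else 0
private noncomputable def foldb3 (b : ℝ → ℝ) (ε x : ℝ) : ℝ := if 0 ≤ x then bcut b ε (-x) else 0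

private lemma foldb1_meas {b : ℝ → ℝ} (hb : Measurable b) (ε : ℝ) : Measurable (foldb1 b ε) :=
  Measurable.ite measurableSet_Ioi (measurable_bcut hb ε) measurable_const
private lemma foldb2_meas {b : ℝ → ℝ} (hb : Measurable b) (ε : ℝ) : Measurable (foldb2 b ε) :=
  Measurable.ite measurableSet_Iic (measurable_bcut hb ε) measurable_const

private lemma foldb1_nn {b : ℝ → ℝ} {C β ε : ℝ} (hC : AngBound b C β) (hε : 0 < ε) (x : ℝ)
    (h1 : -1 ≤ x) (h2 : x ≤ 1) : 0 ≤ foldb1 b ε x := by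
  unfold foldb1
  split_ifs
  · exact bcut_nonneg hC hε h1 h2
  · exact le_rfl

private lemma foldb2_nn {b : ℝ → ℝ} {C β ε : ℝ} (hC : AngBound b C β) (hε : 0 < ε) (x : ℝ)
    (h1 : -1 ≤ x) (h2 : x ≤ 1) : 0 ≤ foldb2 b ε x := by
  unfold foldb2
  split_ifs
  · exact bcut_nonneg hC hε h1 h2
  · exact le_rfl

private lemma foldb3_nn {b : ℝ → ℝ} {C β ε : ℝ} (hC : AngBound b C β) (hε : 0 < ε) (x : ℝ)
    (h1 : -1 ≤ x) (h2 : x ≤ 1) : 0 ≤ foldb3 b ε x := by
  unfold foldb3
  split_ifs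
  · exact bcut_nonneg hC hε (by linarith) (by linarith)
  · exact le_rfl

private lemma fold_Gn_bt (hd1 : 1 ≤ d) (γ : ℝ) {b : ℝ → ℝ} (hb : Measurable b) {C β : ℝ}
    (hC : AngBound b C β) {ε : ℝ} (hε : 0 < ε) {g : Vec d → ℝ} (hg : Measurable g)
    (hg0 : ∀ u, 0 ≤ g u) (v : Vec d) : Gn γ b ε g v = foldJ γ v (bt b ε) (foldPhi g) := by
  have mΦ := foldPhi_meas hg
  have e0 : Gn γ b ε g v = foldJ γ v (bcut b ε) (foldPhi g) := fold_Gn γ b ε hg0 v
  have e2 : foldJ γ v (bcut b ε) (foldPhi g) =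
      foldJ γ v (fun x => foldb1 b ε x + foldb2 b ε x) (foldPhi g) := by
    refine fold_congr hd1 γ v (fun x => ?_) (fun _ _ => rfl)
    unfold foldb1 foldb2
    by_cases hx : 0 < x
    · rw [if_pos hx, if_neg (not_le.2 hx), add_zero]
    · rw [if_neg hx, if_pos (not_lt.1 hx), zero_add]
  have e3 : foldJ γ v (foldb2 b ε) (foldPhi g) = foldJ γ v (foldb3 b ε) (foldPhi g) := by
    rw [fold_neg hd1 γ v (foldb2_meas hb ε) mΦ]
    refine fold_congr hd1 γ v (fun x => ?_) (fun a b => ?_)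
    · unfold foldb2 foldb3
      by_cases hx : 0 ≤ x
      · rw [if_pos (by linarith), if_pos hx]
      · rw [if_neg (by push Not at hx ⊢; linarith), if_neg hx]
    · unfold foldPhi; rw [mul_comm]
  have e4 := fold_add_ker γ v (foldb1_meas hb ε) (foldb1_nn hC hε) (foldb2_nn hC hε) mΦ
  have e5 := fold_add_ker γ v (foldb1_meas hb ε) (foldb1_nn hC hε) (foldb3_nn hC hε) mΦ
  rw [e0, e2, e4, e3, ← e5]
  exact fold_congr hd1 γ v (fun x => by unfold foldb1 foldb3 bt; rfl) (fun _ _ => rfl)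

private lemma fold_split (hd1 : 1 ≤ d) (γ : ℝ) {b : ℝ → ℝ} (hb : Measurable b) (ε : ℝ)
    {g : Vec d → ℝ} (hg : Measurable g) (v : Vec d) :
    foldJ γ v (bt b ε) (foldPhi g) =
      foldJ γ v (bt b ε) (foldP1 g v) + foldJ γ v (bt b ε) (foldP2 g v) := by
  rw [← fold_add_fun γ v (measurable_bt hb ε) (foldP1_meas hg v)]
  refine fold_congr hd1 γ v (fun _ => rfl) (fun a b => ?_)
  unfold foldPhi foldP1 foldP2
  by_cases h : MainR v (b - v)
  · rw [if_pos h, if_pos h, add_zero]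
  · rw [if_neg h, if_neg h, zero_add]

private lemma fold_main (γ : ℝ) {b : ℝ → ℝ} {C β : ℝ}
    (hC : AngBound b C β) {ε : ℝ} (hε : 0 < ε) {g : Vec d → ℝ}
    (hg0 : ∀ u, 0 ≤ g u) (v m : Vec d) : ∫⁻ σ in {σ : Vec d | 0 < dot m σ},
      ENNReal.ofReal (len m ^ γ * Kn d γ (bt b ε) (co m σ)) * foldP1 g v (v - m) (v + hh σ m) ∂(surf d) =
      ENNReal.ofReal (len m ^ γ * g (v - m)) * GM γ b ε g v m := by
  unfold GM
  rw [← lintegral_const_mul' _ _ ENNReal.ofReal_ne_top]
  refine lintegral_congr_ae ?_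
  filter_upwards [ae_restrict_of_ae surf_ae, ae_restrict_mem (measurableSet_half m)] with σ hσ hm
  have hK := fold_Kn_nonneg (γ := γ) (fun x h1 h2 => bt_nonneg hC hε h1 h2) hσ hm
  have hl := Real.rpow_nonneg (len_nonneg m) γ
  unfold foldP1
  rw [add_sub_cancel_left]
  by_cases h : MainR v (hh σ m)
  · rw [if_pos h, if_pos h, ← ENNReal.ofReal_mul (mul_nonneg hl hK),
      ← ENNReal.ofReal_mul (mul_nonneg hl (hg0 _))]
    congr 1; ring
  · rw [if_neg h, if_neg h, mul_zero, mul_zero]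

open Classical in
private lemma fold_exc (γ : ℝ) {b : ℝ → ℝ} {C β : ℝ}
    (hC : AngBound b C β) {ε : ℝ} (hε : 0 < ε) {g : Vec d → ℝ}
    (hg0 : ∀ u, 0 ≤ g u) (v m : Vec d) : ∫⁻ σ in {σ : Vec d | 0 < dot m σ},
      ENNReal.ofReal (len m ^ γ * Kn d γ (fun x => bt b ε (-x)) (co m σ)) *
        foldP2 g v (v + hh σ m) (v - m) ∂(surf d) =
      ENNReal.ofReal (len m ^ γ * g (v - m)) *
        (if nsq (v - m) < (1 + nsq v) / 4 ∧ (1 + nsq v) / 4 ≤ nsq m then GE γ b ε g v m else 0) := by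
  have hreg : MainR v (v - m - v) ↔
      ¬ (nsq (v - m) < (1 + nsq v) / 4 ∧ (1 + nsq v) / 4 ≤ nsq m) := by
    unfold MainR
    have e6 : v + (v - m - v) = v - m := by abel
    have e7 : v - m - v = -m := by abel
    rw [e6, e7, Pool.Agent.H25.Kin.sq_neg]
  by_cases h : nsq (v - m) < (1 + nsq v) / 4 ∧ (1 + nsq v) / 4 ≤ nsq m
  · rw [if_pos h]
    unfold GE
    rw [← lintegral_const_mul' _ _ ENNReal.ofReal_ne_top]
    refine lintegral_congr_ae ?_
    filter_upwards [ae_restrict_of_ae surf_ae, ae_restrict_mem (measurableSet_half m)] with σ hσ hm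
    have hK := fold_Kn_nonneg (γ := γ) (β' := fun x => bt b ε (-x))
      (fun x h1 h2 => bt_nonneg hC hε (by linarith) (by linarith)) hσ hm
    have hl := Real.rpow_nonneg (len_nonneg m) γ
    unfold foldP2
    rw [if_neg (by rw [hreg]; exact not_not.2 h), ← ENNReal.ofReal_mul (mul_nonneg hl hK),
      ← ENNReal.ofReal_mul (mul_nonneg hl (hg0 _))]
    congr 1; ring
  · rw [if_neg h, mul_zero]
    refine lintegral_eq_zero_of_ae_eq_zero (Eventually.of_forall fun σ => ?_)
    simp only [Pi.zero_apply]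
    unfold foldP2
    rw [if_pos (hreg.2 h), mul_zero]

private lemma fold_c1 (hd : 2 ≤ d) (γ : ℝ) {b : ℝ → ℝ} (hb : Measurable b) {C β : ℝ}
    (hC : AngBound b C β) {ε : ℝ} (hε : 0 < ε) {g : Vec d → ℝ} (hg : Measurable g)
    (hg0 : ∀ u, 0 ≤ g u) (v : Vec d) : foldJ γ v (bt b ε) (foldP1 g v) =
      ∫⁻ m, ENNReal.ofReal (len m ^ γ * g (v - m)) * GM γ b ε g v m := by
  have h := coll_cv hd γ (measurable_bt hb ε) (foldP1_meas hg v) v
  exact h.trans (lintegral_congr fun m => fold_main γ hC hε hg0 v m)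

private lemma fold_P2s {g : Vec d → ℝ} (hg : Measurable g) (v : Vec d) :
    Measurable fun p : Vec d × Vec d => foldP2 g v p.2 p.1 := by
  unfold foldP2
  refine Measurable.ite ?_ measurable_const
    ((hg.comp measurable_snd).mul (hg.comp measurable_fst)).ennreal_ofReal
  exact (measurable_fst.sub measurable_const) (fold_meas_region v)

open Classical in
private lemma fold_c2 (hd : 2 ≤ d) (γ : ℝ) {b : ℝ → ℝ} (hb : Measurable b) {C β : ℝ}
    (hC : AngBound b C β) {ε : ℝ} (hε : 0 < ε) {g : Vec d → ℝ} (hg : Measurable g)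
    (hg0 : ∀ u, 0 ≤ g u) (v : Vec d) : foldJ γ v (bt b ε) (foldP2 g v) =
      ∫⁻ m, ENNReal.ofReal (len m ^ γ * g (v - m)) *
        (if nsq (v - m) < (1 + nsq v) / 4 ∧ (1 + nsq v) / 4 ≤ nsq m then GE γ b ε g v m else 0) := by
  have mbt' : Measurable fun x => bt b ε (-x) := (measurable_bt hb ε).comp measurable_neg
  have h := coll_cv hd γ mbt' (Φ := fun a b => foldP2 g v b a) (fold_P2s hg v) v
  rw [fold_neg (by omega : 1 ≤ d) γ v (measurable_bt hb ε) (foldP2_meas hg v)]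
  exact h.trans (lintegral_congr fun m => fold_exc γ hC hε hg0 v m)

open Classical in
theorem gain_split (hd : 2 ≤ d) (γ : ℝ) {b : ℝ → ℝ} (hb : Measurable b) {C β : ℝ}
    (hC : AngBound b C β) {ε : ℝ} (hε : 0 < ε) {g : Vec d → ℝ} (hg : Measurable g)
    (hg0 : ∀ u, 0 ≤ g u) (v : Vec d) :
    Gn γ b ε g v ≤ ∫⁻ m, ENNReal.ofReal (len m ^ γ * g (v - m)) * (GM γ b ε g v m +
      (if nsq (v - m) < (1 + nsq v) / 4 ∧ (1 + nsq v) / 4 ≤ nsq m then GE γ b ε g v m else 0)) := by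
  have hd1 : 1 ≤ d := by omega
  rw [fold_Gn_bt hd1 γ hb hC hε hg hg0 v, fold_split hd1 γ hb ε hg v, fold_c1 hd γ hb hC hε hg hg0 v,
    fold_c2 hd γ hb hC hε hg hg0 v]
  refine (le_lintegral_add _ _).trans (lintegral_mono fun m => ?_)
  rw [mul_add]

end Pool.Agent.H82.BK
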