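import Pool.Agent.H82.BK.Slow
import Pool.Agent.H82.BK.Main
import Pool.Agent.H82.BK.Exc
import Pool.Agent.H82.BK.Fold

/-!
# Module Comb: gain ≤ loss + K g(v) ∫ g(z) wgt(v,z) dz

Per velocity `m` (`a = 1+|v|²`, `z = v-m`): let `P(m) = GM + (if .. then GE else 0)`.
 * slow (`|z|² ≤ δ²a`, `a ≥ a₀`): `P ≤ GM + GE ≤ ofReal(g v) BB` (`slow_bound`).
 * otherwise `√a ≤ L(1+|z|)`; `P ≤ ofReal(g v) BB + ofReal(K₁ g(v) (1+|m|²/a)^s) + (if exceptional then ofReal (K₂ g v) else 0)`.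
   `len m ^ γ (1+|m|²/a)^s ≤ L wgt(v,z)`: `(1+|m|²/a)^s ≤ 1 + (len m)^(2s) a^(-s)`. If `γ ≥ 0`: `len m ≤ len v + len z ≤
   √a + len z ≤ L'(1+|z|²)^(1/2)`, `a ≥ 1`, so both terms are `≤ L''(1+|z|²)^((γ+2s)/2)`. If `γ < 0`: `len m ^ γ` is the second
   term of `wgt`, and `len m ≤ √a (1+len z)`, `(len m)^(γ+2s) a^(-s) ≤ a^(γ/2) (1+len z)^(γ+2s) ≤ L''(1+|z|²)^((γ+2s)/2)`.
   In the exceptional case `len m ≥ √a/2 ≥ 1/2` and `|m| ≤ 3√a/2`: `len m ^ γ ≤ L wgt` in the same way.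
Multiply by `ofReal(len m ^ γ * g(v-m))` and integrate (`lintegral_mono_ae`, `m ≠ 0` a.e.), `loss_eq`, `gain_split`, and
`∫⁻ m, ofReal(K g(v) g(v-m) wgt γ s v (v-m)) = ∫⁻ z, ofReal(K g(v) g(z) wgt γ s v z)` (`lintegral_sub_left_eq_self`).
-/

set_option autoImplicit false

open MeasureTheory Set Filter Topology Pool.Agent.H25.Kin
open scoped ENNReal

namespace Pool.Agent.H82.BK

variable {d : ℕ}

private lemma comb_pw {γ s L₁ : ℝ} (hs : 0 < s) (hs1 : s < 1) (h0 : 0 ≤ γ + 2 * s)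
    (h2 : γ + 2 * s ≤ 2) (hL : 0 ≤ L₁) {M a Z l : ℝ} (hl : 0 < l) (hM : l ^ 2 = M) (ha : 1 ≤ a)
    (hZ : 1 ≤ Z) (hMZ : M ≤ L₁ * Z) :
    l ^ γ * (1 + M / a) ^ s ≤
      (2 * (L₁ + 1)) * (Z ^ ((γ + 2 * s) / 2) + l ^ (min γ 0)) := by
  have hM0 : 0 < M := by rw [← hM]; positivity
  have hZ0 : 0 < Z := by linarith
  have ha0 : 0 < a := by linarith
  have hE0 : 0 ≤ (γ + 2 * s) / 2 := by linarith
  have hE1 : (γ + 2 * s) / 2 ≤ 1 := by linarith
  have hMa : M / a ≤ M := div_le_self hM0.le ha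
  have hMa0 : 0 < M / a := div_pos hM0 ha0
  have hLE : (L₁ + 1) ^ ((γ + 2 * s) / 2) ≤ L₁ + 1 := by
    calc (L₁ + 1) ^ ((γ + 2 * s) / 2) ≤ (L₁ + 1) ^ (1 : ℝ) :=
          Real.rpow_le_rpow_of_exponent_le (by linarith) hE1
      _ = L₁ + 1 := Real.rpow_one _
  have hZE : 0 < Z ^ ((γ + 2 * s) / 2) := Real.rpow_pos_of_pos hZ0 _
  have hlm : 0 < l ^ (min γ 0) := Real.rpow_pos_of_pos hl _
  have hlg : ∀ x : ℝ, l ^ x = M ^ (x / 2) := by
    intro x
    rw [← hM, ← Real.rpow_natCast, ← Real.rpow_mul hl.le]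
    congr 1
    push_cast
    ring
  have hbd : M ≤ (L₁ + 1) * Z := by nlinarith
  rcases le_or_gt 0 γ with hγ | hγ
  · have h3 : l ^ γ ≤ ((L₁ + 1) * Z) ^ (γ / 2) := by
      rw [hlg γ]
      exact Real.rpow_le_rpow hM0.le hbd (by linarith)
    have h4 : (1 + M / a) ^ s ≤ ((L₁ + 1) * Z) ^ s := by
      refine Real.rpow_le_rpow (by linarith) ?_ hs.le
      nlinarith
    have hp0 : 0 < (L₁ + 1) * Z := by positivity
    calc l ^ γ * (1 + M / a) ^ s ≤ ((L₁ + 1) * Z) ^ (γ / 2) * ((L₁ + 1) * Z) ^ s :=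
          mul_le_mul h3 h4 (Real.rpow_nonneg (by linarith) _) (Real.rpow_nonneg hp0.le _)
      _ = ((L₁ + 1) * Z) ^ ((γ + 2 * s) / 2) := by
          rw [← Real.rpow_add hp0]
          congr 1
          ring
      _ = (L₁ + 1) ^ ((γ + 2 * s) / 2) * Z ^ ((γ + 2 * s) / 2) :=
          Real.mul_rpow (by linarith) hZ0.le
      _ ≤ (L₁ + 1) * Z ^ ((γ + 2 * s) / 2) := mul_le_mul_of_nonneg_right hLE hZE.le
      _ ≤ (2 * (L₁ + 1)) * (Z ^ ((γ + 2 * s) / 2) + l ^ (min γ 0)) := by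
          have h5 : 0 ≤ (L₁ + 1) * Z ^ ((γ + 2 * s) / 2) := by positivity
          have h6 : 0 ≤ (L₁ + 1) * l ^ (min γ 0) := by positivity
          linarith
  · have hmin : min γ 0 = γ := min_eq_left hγ.le
    rw [hmin]
    have hlγ : 0 < l ^ γ := Real.rpow_pos_of_pos hl _
    have h2s : (2 : ℝ) ^ s ≤ 2 := by
      calc (2 : ℝ) ^ s ≤ 2 ^ (1 : ℝ) := Real.rpow_le_rpow_of_exponent_le (by norm_num) hs1.le
        _ = 2 := Real.rpow_one _
    rcases le_or_gt M a with h | h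
    · have h3 : M / a ≤ 1 := (div_le_one ha0).2 h
      have h4 : (1 + M / a) ^ s ≤ 2 :=
        (Real.rpow_le_rpow (by linarith) (by linarith) hs.le).trans h2s
      calc l ^ γ * (1 + M / a) ^ s ≤ l ^ γ * 2 := mul_le_mul_of_nonneg_left h4 hlγ.le
        _ ≤ (2 * (L₁ + 1)) * (Z ^ ((γ + 2 * s) / 2) + l ^ γ) := by
            have h5 : 0 ≤ (2 * (L₁ + 1)) * Z ^ ((γ + 2 * s) / 2) := by positivity
            have h6 : 0 ≤ L₁ * l ^ γ := by positivity
            nlinarith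
    · have h3 : 1 ≤ M / a := (one_le_div ha0).2 h.le
      have h4 : (1 + M / a) ^ s ≤ 2 * M ^ s := by
        calc (1 + M / a) ^ s ≤ (2 * M) ^ s :=
              Real.rpow_le_rpow (by linarith) (by linarith) hs.le
          _ = 2 ^ s * M ^ s := Real.mul_rpow (by norm_num) hM0.le
          _ ≤ 2 * M ^ s := mul_le_mul_of_nonneg_right h2s (Real.rpow_nonneg hM0.le _)
      calc l ^ γ * (1 + M / a) ^ s ≤ l ^ γ * (2 * M ^ s) := mul_le_mul_of_nonneg_left h4 hlγ.le
        _ = 2 * (M ^ (γ / 2) * M ^ s) := by rw [hlg γ]; ring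
        _ = 2 * M ^ ((γ + 2 * s) / 2) := by
            rw [← Real.rpow_add hM0]
            congr 2
            ring
        _ ≤ 2 * ((L₁ + 1) * Z) ^ ((γ + 2 * s) / 2) := by
            have := Real.rpow_le_rpow hM0.le hbd hE0
            linarith
        _ = 2 * ((L₁ + 1) ^ ((γ + 2 * s) / 2) * Z ^ ((γ + 2 * s) / 2)) := by
            rw [Real.mul_rpow (by linarith) hZ0.le]
        _ ≤ 2 * ((L₁ + 1) * Z ^ ((γ + 2 * s) / 2)) := by
            have := mul_le_mul_of_nonneg_right hLE hZE.le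
            linarith
        _ ≤ (2 * (L₁ + 1)) * (Z ^ ((γ + 2 * s) / 2) + l ^ γ) := by
            have h6 : 0 ≤ (L₁ + 1) * l ^ γ := by positivity
            linarith

private lemma comb_nsq_nonneg (z : Vec d) : 0 ≤ nsq z := Finset.sum_nonneg fun i _ => sq_nonneg _

private lemma comb_cont_nsq : Continuous fun z : Vec d => nsq z := by
  unfold nsq
  fun_prop

private lemma comb_meas_wgt (γ s : ℝ) (v : Vec d) : Measurable fun z : Vec d => wgt γ s v z := by
  unfold wgt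
  refine Measurable.add ?_ ?_
  · exact (measurable_const.add comb_cont_nsq.measurable).pow_const _
  · have : Continuous fun z : Vec d => len (v - z) := by
      unfold len
      exact (comb_cont_nsq.comp (continuous_const.sub continuous_id)).sqrt
    exact this.measurable.pow_const _

theorem gain_le_loss {γ s : ℝ} {b : ℝ → ℝ} {C Ca : ℝ} (H : Hyp d γ s b C Ca) {p : ℕ}
    (hp : (d : ℝ) + γ + 4 ≤ 2 * p) :
    ∃ K : ℝ, 0 ≤ K ∧ ∀ g : Vec d → ℝ, Measurable g → (∀ u, 0 ≤ g u) → ∀ v : Vec d,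
      (∀ u, g u * (1 + nsq u) ^ p ≤ g v * (1 + nsq v) ^ p) → ∀ ε > 0,
      Gn γ b ε g v ≤ Ls γ b ε g v + ∫⁻ z, ENNReal.ofReal (K * g v * (g z * wgt γ s v z)) := by
  obtain ⟨δ, hδ, a₀, ha₀, hslow⟩ := slow_bound H hp
  obtain ⟨K₁, hK₁, hmain⟩ := main_bound H p
  obtain ⟨K₂, hK₂, hexc⟩ := exc_bound H hp
  set L₀ : ℝ := (δ ^ 2)⁻¹ + a₀ with hL₀
  have hL₀0 : 0 < L₀ := by
    have : 0 < (δ ^ 2)⁻¹ := by positivity
    linarith
  set L₁ : ℝ := 2 * (L₀ + 1) with hL₁
  have hL₁0 : 0 < L₁ := by linarith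
  refine ⟨(K₁ + K₂) * (2 * (L₁ + 1)), by positivity, ?_⟩
  intro g hg hg0 v htouch ε hε
  set K : ℝ := (K₁ + K₂) * (2 * (L₁ + 1)) with hK
  have ha1 : 1 ≤ 1 + nsq v := by linarith [comb_nsq_nonneg v]
  have hgv : 0 ≤ g v := hg0 v
  have hsub : ∀ m : Vec d, v - (v - m) = m := fun m => sub_sub_cancel v m
  -- pointwise bound
  have hpt : ∀ m : Vec d, m ≠ 0 → ∀ E : ℝ≥0∞, E ≤ GE γ b ε g v m →
      (¬ (nsq (v - m) < (1 + nsq v) / 4 ∧ (1 + nsq v) / 4 ≤ nsq m) → E = 0) →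
      ENNReal.ofReal (len m ^ γ * g (v - m)) * (GM γ b ε g v m + E) ≤
        ENNReal.ofReal (len m ^ γ * g (v - m)) * (ENNReal.ofReal (g v) * BB b ε (dir m)) +
        ENNReal.ofReal (K * g v * (g (v - m) * wgt γ s v (v - m))) := by
    intro m hm E hE hE0
    by_cases hsl : nsq (v - m) ≤ δ ^ 2 * (1 + nsq v) ∧ a₀ ≤ 1 + nsq v
    · have h1 : GM γ b ε g v m + E ≤ ENNReal.ofReal (g v) * BB b ε (dir m) :=
        (add_le_add_right hE _).trans (hslow g hg hg0 v htouch m hm hsl.1 hsl.2 ε hε)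
      exact (mul_le_mul_right h1 _).trans le_self_add
    · have hnz := comb_nsq_nonneg (v - m)
      have haZ : 1 + nsq v ≤ L₀ * (1 + nsq (v - m)) := by
        have hδi : 0 < (δ ^ 2)⁻¹ := by positivity
        by_cases h : nsq (v - m) ≤ δ ^ 2 * (1 + nsq v)
        · have h' : ¬ (a₀ ≤ 1 + nsq v) := fun h' => hsl ⟨h, h'⟩
          push Not at h'
          nlinarith [mul_nonneg hδi.le (by linarith : (0 : ℝ) ≤ 1 + nsq (v - m)),
            mul_nonneg (by linarith : (0 : ℝ) ≤ a₀) hnz]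
        · push Not at h
          have h5 : 1 + nsq v ≤ (δ ^ 2)⁻¹ * nsq (v - m) := by
            rw [inv_mul_eq_div, le_div_iff₀ (by positivity), mul_comm]
            exact h.le
          nlinarith [mul_nonneg (by linarith : (0 : ℝ) ≤ a₀) hnz]
      have hMZ : nsq m ≤ L₁ * (1 + nsq (v - m)) := by
        have h6 := nsq_par v (v - m)
        rw [hsub m] at h6
        have h7 := comb_nsq_nonneg (v + (v - m))
        rw [hL₁]
        nlinarith
      have hlm : 0 < len m := len_pos hm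
      have hpw := comb_pw (γ := γ) H.hs H.hs1 H.h0 H.h2 hL₁0.le hlm (len_sq m) ha1
        (by linarith : (1 : ℝ) ≤ 1 + nsq (v - m)) hMZ
      have hw : wgt γ s v (v - m) =
          (1 + nsq (v - m)) ^ ((γ + 2 * s) / 2) + len m ^ (min γ 0) := by
        unfold wgt
        rw [hsub m]
      rw [← hw] at hpw
      have hMa0 : 0 ≤ nsq m / (1 + nsq v) := div_nonneg (comb_nsq_nonneg m) (by linarith)
      have hρ1 : 1 ≤ (1 + nsq m / (1 + nsq v)) ^ s :=
        Real.one_le_rpow (by linarith) H.hs.le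
      have hlγ : 0 < len m ^ γ := Real.rpow_pos_of_pos hlm _
      have hP : GM γ b ε g v m + E ≤ ENNReal.ofReal (g v) * BB b ε (dir m) +
          ENNReal.ofReal (g v * (K₁ * (1 + nsq m / (1 + nsq v)) ^ s + K₂)) := by
        have h1 := hmain g hg hg0 v htouch m hm ε hε
        have h2 : E ≤ ENNReal.ofReal (K₂ * g v) := by
          by_cases hex : nsq (v - m) < (1 + nsq v) / 4 ∧ (1 + nsq v) / 4 ≤ nsq m
          · exact hE.trans (hexc g hg hg0 v htouch m hex.1 hex.2 ε hε)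
          · rw [hE0 hex]; exact zero_le
        calc GM γ b ε g v m + E ≤ (ENNReal.ofReal (g v) * BB b ε (dir m) +
              ENNReal.ofReal (K₁ * g v * (1 + nsq m / (1 + nsq v)) ^ s)) +
              ENNReal.ofReal (K₂ * g v) := add_le_add h1 h2
          _ = ENNReal.ofReal (g v) * BB b ε (dir m) +
              ENNReal.ofReal (g v * (K₁ * (1 + nsq m / (1 + nsq v)) ^ s + K₂)) := by
              rw [add_assoc, ← ENNReal.ofReal_add
                (mul_nonneg (mul_nonneg hK₁ hgv) (by linarith)) (mul_nonneg hK₂ hgv)]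
              congr 2
              ring
      calc ENNReal.ofReal (len m ^ γ * g (v - m)) * (GM γ b ε g v m + E)
          ≤ ENNReal.ofReal (len m ^ γ * g (v - m)) * (ENNReal.ofReal (g v) * BB b ε (dir m) +
            ENNReal.ofReal (g v * (K₁ * (1 + nsq m / (1 + nsq v)) ^ s + K₂))) :=
            mul_le_mul_right hP _
        _ = ENNReal.ofReal (len m ^ γ * g (v - m)) * (ENNReal.ofReal (g v) * BB b ε (dir m)) +
            ENNReal.ofReal ((len m ^ γ * g (v - m)) *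
              (g v * (K₁ * (1 + nsq m / (1 + nsq v)) ^ s + K₂))) := by
            rw [mul_add, ENNReal.ofReal_mul (mul_nonneg hlγ.le (hg0 _))]
        _ ≤ _ := by
            refine add_le_add_right (ENNReal.ofReal_le_ofReal ?_) _
            have h8 : K₁ * (1 + nsq m / (1 + nsq v)) ^ s + K₂ ≤
                (K₁ + K₂) * (1 + nsq m / (1 + nsq v)) ^ s := by nlinarith
            have h9 : len m ^ γ * (K₁ * (1 + nsq m / (1 + nsq v)) ^ s + K₂) ≤
                K * wgt γ s v (v - m) := by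
              calc len m ^ γ * (K₁ * (1 + nsq m / (1 + nsq v)) ^ s + K₂)
                  ≤ len m ^ γ * ((K₁ + K₂) * (1 + nsq m / (1 + nsq v)) ^ s) :=
                    mul_le_mul_of_nonneg_left h8 hlγ.le
                _ = (K₁ + K₂) * (len m ^ γ * (1 + nsq m / (1 + nsq v)) ^ s) := by ring
                _ ≤ (K₁ + K₂) * ((2 * (L₁ + 1)) * wgt γ s v (v - m)) :=
                    mul_le_mul_of_nonneg_left hpw (by linarith)
                _ = K * wgt γ s v (v - m) := by rw [hK]; ring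
            calc (len m ^ γ * g (v - m)) * (g v * (K₁ * (1 + nsq m / (1 + nsq v)) ^ s + K₂))
                = (g v * g (v - m)) * (len m ^ γ * (K₁ * (1 + nsq m / (1 + nsq v)) ^ s + K₂)) := by
                  ring
              _ ≤ (g v * g (v - m)) * (K * wgt γ s v (v - m)) :=
                  mul_le_mul_of_nonneg_left h9 (mul_nonneg hgv (hg0 _))
              _ = K * g v * (g (v - m) * wgt γ s v (v - m)) := by ring
  have hΦ : Measurable fun z : Vec d => ENNReal.ofReal (K * g v * (g z * wgt γ s v z)) :=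
    ((hg.mul (comb_meas_wgt γ s v)).const_mul _).ennreal_ofReal
  have hΦ' : Measurable fun m : Vec d =>
      ENNReal.ofReal (K * g v * (g (v - m) * wgt γ s v (v - m))) :=
    hΦ.comp (measurable_const.sub measurable_id)
  refine (gain_split H.hd γ H.bm H.bd hε hg hg0 v).trans ?_
  have hle : ∫⁻ m, ENNReal.ofReal (len m ^ γ * g (v - m)) * (GM γ b ε g v m +
      (if nsq (v - m) < (1 + nsq v) / 4 ∧ (1 + nsq v) / 4 ≤ nsq m then GE γ b ε g v m else 0)) ≤
      ∫⁻ m, (ENNReal.ofReal (len m ^ γ * g (v - m)) * (ENNReal.ofReal (g v) * BB b ε (dir m)) +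
        ENNReal.ofReal (K * g v * (g (v - m) * wgt γ s v (v - m)))) := by
    refine lintegral_mono_ae ?_
    filter_upwards [ae_ne H.hd1 (0 : Vec d)] with m hm
    refine hpt m hm.symm _ ?_ ?_
    · split_ifs
      · exact le_refl _
      · exact zero_le
    · intro h
      rw [if_neg h]
  refine (le_of_eq ?_).trans (hle.trans ?_)
  · refine lintegral_congr fun m => ?_
    congr 2
  · rw [lintegral_add_right _ hΦ', ← loss_eq H.hd γ H.bm H.bd hε hg hg0 v]
    refine add_le_add_right (le_of_eq ?_) _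
    exact lintegral_sub_left_eq_self
      (fun z : Vec d => ENNReal.ofReal (K * g v * (g z * wgt γ s v z))) v

end Pool.Agent.H82.BK
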