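import Pool.Agent.H82.BK.Defs

/-!
# Module Interp: interpolation between a small moment and the barrier at scale `A`

Pointwise, for `A ≥ 1`, `r = len z`, `g(z) ≤ A (1+|z|²/A²)^(-p)`:
 `g(z) (1+|z|²/A²)^s ≤ 2 g(z) (1+|z|²)^(η/2) + 4^p (1+‖z‖)^(-(d+1))·const`.
* `r ≤ A`: `(1+r²/A²)^s ≤ 2^s ≤ 2`.
* `A < r ≤ A^(1+η/2)`: `(1+r²/A²)^s ≤ (2r²/A²)^s ≤ 2 (r/A)^(2s) ≤ 2 A^(sη) ≤ 2 A^η ≤ 2 r^η ≤ 2 (1+|z|²)^(η/2)`.
* `r > A^(1+η/2)`: `g(z) ≤ A (A²/r²)^p`, `(1+r²/A²)^s ≤ 2 (r/A)^(2s) ≤ 2 r²`, so the product is `≤ 2 A^(2p+1) r^(2-2p)`, and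
  `A ≤ r^(1/(1+η/2))` gives `≤ 2 r^(2 + (2p+1)/(1+η/2) - 2p) ≤ 2 r^(-(d+1))` if `p η - 1 ≥ (d+3)(1+η/2)`
  (`2 + ((2p+1) - 2p(1+η/2))/(1+η/2) = 2 + (1-pη)/(1+η/2) ≤ -(d+1)`), and `r ≥ 1`, `r ≥ ‖z‖` (`norm_le_len`), so
  `r^(-(d+1)) ≤ 2^(d+1) (1+‖z‖)^(-(d+1))`.
Integrate (`integrable_wt`). The left side is integrable because `g` is `Nice` (`(1+|z|²/A²)^s ≤ 1+|z|²`).
-/

set_option autoImplicit false

open MeasureTheory Set Filter Topology Pool.Agent.H25.Kin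
open scoped ENNReal

namespace Pool.Agent.H82.BK

variable {d : ℕ}

private lemma Interp_key {d q : ℕ} {η A r : ℝ} (hη : 0 < η)
    (hp : ((d : ℝ) + 3) * (1 + η / 2) + 1 ≤ ((q : ℝ) + 1) * η) (hA : 1 ≤ A)
    (hr : A ^ (1 + η / 2) < r) : A ^ (2 * q + 1) * r ^ (d + 1) ≤ r ^ (2 * q) := by
  have hκ : 0 < 1 + η / 2 := by positivity
  have hA0 : 0 < A := by linarith
  have h1 : 1 ≤ A ^ (1 + η / 2) := Real.one_le_rpow hA hκ.le
  have hr1 : 1 ≤ r := by linarith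
  have hr0 : 0 < r := by linarith
  have hAr : A ≤ r ^ (1 / (1 + η / 2)) := by
    have h2 : (A ^ (1 + η / 2)) ^ (1 / (1 + η / 2)) = A := by
      rw [← Real.rpow_mul hA0.le, mul_one_div_cancel hκ.ne', Real.rpow_one]
    calc A = (A ^ (1 + η / 2)) ^ (1 / (1 + η / 2)) := h2.symm
      _ ≤ r ^ (1 / (1 + η / 2)) :=
        Real.rpow_le_rpow (by positivity) hr.le (by positivity)
  have h3 : A ^ (2 * q + 1) ≤ r ^ (((2 * q + 1 : ℕ) : ℝ) / (1 + η / 2)) := by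
    calc A ^ (2 * q + 1) ≤ (r ^ (1 / (1 + η / 2))) ^ (2 * q + 1) :=
          pow_le_pow_left₀ hA0.le hAr _
      _ = r ^ (((2 * q + 1 : ℕ) : ℝ) / (1 + η / 2)) := by
          rw [← Real.rpow_natCast, ← Real.rpow_mul hr0.le]
          congr 1
          field_simp
  calc A ^ (2 * q + 1) * r ^ (d + 1)
      ≤ r ^ (((2 * q + 1 : ℕ) : ℝ) / (1 + η / 2)) * r ^ (d + 1) := by gcongr
    _ = r ^ (((2 * q + 1 : ℕ) : ℝ) / (1 + η / 2) + ((d + 1 : ℕ) : ℝ)) := by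
        rw [Real.rpow_add hr0, Real.rpow_natCast]
    _ ≤ r ^ (((2 * q : ℕ)) : ℝ) := by
        refine Real.rpow_le_rpow_of_exponent_le hr1 ?_
        rw [← le_sub_iff_add_le, div_le_iff₀ hκ]
        push_cast
        have hd : (0 : ℝ) ≤ d := by positivity
        nlinarith
    _ = r ^ (2 * q) := Real.rpow_natCast _ _

private lemma Interp_pt {d p : ℕ} {s η A r y ρ : ℝ} (hs : s ∈ Ioo (0 : ℝ) 1) (hη : 0 < η)
    (hp : ((d : ℝ) + 3) * (1 + η / 2) + 1 ≤ p * η) (hA : 1 ≤ A) (hρ : 0 ≤ ρ) (hρr : ρ ≤ r)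
    (hy : 0 ≤ y) (hyA : y * (1 + r ^ 2 / A ^ 2) ^ p ≤ A) :
    y * (1 + r ^ 2 / A ^ 2) ^ s ≤
      2 * (y * (1 + r ^ 2) ^ (η / 2)) + 2 ^ (d + 1) * ((1 + ρ) ^ (d + 1))⁻¹ := by
  have hr : 0 ≤ r := hρ.trans hρr
  have hA0 : 0 < A := by linarith
  have hx0 : 0 ≤ r ^ 2 / A ^ 2 := by positivity
  have hs1 : (1 + r ^ 2 / A ^ 2) ^ s ≤ 1 + r ^ 2 / A ^ 2 := by
    conv_rhs => rw [← Real.rpow_one (1 + r ^ 2 / A ^ 2)]
    exact Real.rpow_le_rpow_of_exponent_le (by linarith) hs.2.le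
  have hη1 : 1 ≤ (1 + r ^ 2) ^ (η / 2) :=
    Real.one_le_rpow (by nlinarith [sq_nonneg r]) (by positivity)
  have hw : 0 ≤ 2 ^ (d + 1) * ((1 + ρ) ^ (d + 1))⁻¹ := by positivity
  rcases le_total r A with h | h
  · have h1 : r ^ 2 / A ^ 2 ≤ 1 := by
      rw [div_le_one (by positivity)]
      exact pow_le_pow_left₀ hr h 2
    have h2 : y * (1 + r ^ 2 / A ^ 2) ^ s ≤ y * 2 :=
      mul_le_mul_of_nonneg_left (by linarith) hy
    have h3 : y * 1 ≤ y * (1 + r ^ 2) ^ (η / 2) := mul_le_mul_of_nonneg_left hη1 hy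
    linarith
  · have hr1 : 1 ≤ r := hA.trans h
    have hr0 : 0 < r := by linarith
    have hxx : 1 ≤ r ^ 2 / A ^ 2 := by
      rw [one_le_div (by positivity)]
      exact pow_le_pow_left₀ hA0.le h 2
    rcases le_or_gt r (A ^ (1 + η / 2)) with h' | h'
    · have h1 : r ^ 2 / A ^ 2 ≤ A ^ η := by
        rw [div_le_iff₀ (by positivity)]
        calc r ^ 2 ≤ (A ^ (1 + η / 2)) ^ 2 := pow_le_pow_left₀ hr h' 2
          _ = A ^ η * A ^ 2 := by
            rw [← Real.rpow_natCast, ← Real.rpow_mul hA0.le, ← Real.rpow_natCast A 2,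
              ← Real.rpow_add hA0]
            congr 1
            push_cast
            ring
      have h2 : A ^ η ≤ (1 + r ^ 2) ^ (η / 2) := by
        calc A ^ η ≤ r ^ η := Real.rpow_le_rpow hA0.le h hη.le
          _ = (r ^ 2) ^ (η / 2) := by
            rw [← Real.rpow_natCast, ← Real.rpow_mul hr]
            congr 1
            push_cast
            ring
          _ ≤ (1 + r ^ 2) ^ (η / 2) :=
            Real.rpow_le_rpow (by positivity) (by linarith) (by positivity)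
      have h3 : y * (1 + r ^ 2 / A ^ 2) ^ s ≤ y * (2 * (1 + r ^ 2) ^ (η / 2)) :=
        mul_le_mul_of_nonneg_left (by linarith) hy
      linarith
    · have hp0 : p ≠ 0 := by
        rintro rfl
        have hd : (0 : ℝ) ≤ d := by positivity
        have : 0 < ((d : ℝ) + 3) * (1 + η / 2) := by positivity
        simp at hp
        linarith
      obtain ⟨q, rfl⟩ := Nat.exists_eq_succ_of_ne_zero hp0
      have hk := Interp_key (d := d) (q := q) hη (by simpa using hp) hA h'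
      have h1 : y * (1 + r ^ 2 / A ^ 2) * (r ^ 2 / A ^ 2) ^ q ≤ A := by
        refine le_trans ?_ hyA
        have e : (1 + r ^ 2 / A ^ 2) ^ (q + 1) = (1 + r ^ 2 / A ^ 2) * (1 + r ^ 2 / A ^ 2) ^ q :=
          pow_succ' _ _
        have e2 : (r ^ 2 / A ^ 2) ^ q ≤ (1 + r ^ 2 / A ^ 2) ^ q :=
          pow_le_pow_left₀ hx0 (by linarith) q
        rw [Nat.succ_eq_add_one, e, mul_assoc]
        exact mul_le_mul_of_nonneg_left (mul_le_mul_of_nonneg_left e2 (by linarith)) hy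
      have h2 : y * (1 + r ^ 2 / A ^ 2) * r ^ (2 * q) ≤ A ^ (2 * q + 1) := by
        have h3 : (r ^ 2 / A ^ 2) ^ q = r ^ (2 * q) / A ^ (2 * q) := by
          rw [div_pow, ← pow_mul, ← pow_mul]
        rw [h3, ← mul_div_assoc, div_le_iff₀ (by positivity)] at h1
        calc _ ≤ A * A ^ (2 * q) := h1
          _ = A ^ (2 * q + 1) := by ring
      have h4 : y * (1 + r ^ 2 / A ^ 2) * r ^ (d + 1) ≤ 1 := by
        have h5 : (y * (1 + r ^ 2 / A ^ 2) * r ^ (d + 1)) * r ^ (2 * q) ≤ 1 * r ^ (2 * q) := by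
          calc (y * (1 + r ^ 2 / A ^ 2) * r ^ (d + 1)) * r ^ (2 * q)
              = (y * (1 + r ^ 2 / A ^ 2) * r ^ (2 * q)) * r ^ (d + 1) := by ring
            _ ≤ A ^ (2 * q + 1) * r ^ (d + 1) := by gcongr
            _ ≤ 1 * r ^ (2 * q) := by rw [one_mul]; exact hk
        exact le_of_mul_le_mul_right h5 (by positivity)
      have h6 : y * (1 + r ^ 2 / A ^ 2) ≤ 2 ^ (d + 1) * ((1 + ρ) ^ (d + 1))⁻¹ := by
        rw [← div_eq_mul_inv, le_div_iff₀ (by positivity)]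
        calc y * (1 + r ^ 2 / A ^ 2) * (1 + ρ) ^ (d + 1)
            ≤ y * (1 + r ^ 2 / A ^ 2) * (2 * r) ^ (d + 1) := by
              gcongr
              linarith
          _ = 2 ^ (d + 1) * (y * (1 + r ^ 2 / A ^ 2) * r ^ (d + 1)) := by
              rw [mul_pow]; ring
          _ ≤ 2 ^ (d + 1) * 1 := by gcongr
          _ = 2 ^ (d + 1) := mul_one _
      have h7 : y * (1 + r ^ 2 / A ^ 2) ^ s ≤ y * (1 + r ^ 2 / A ^ 2) :=
        mul_le_mul_of_nonneg_left hs1 hy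
      have h8 : 0 ≤ y * (1 + r ^ 2) ^ (η / 2) := by positivity
      linarith

theorem interp (d : ℕ) {s η : ℝ} (hs : s ∈ Ioo (0 : ℝ) 1) (hη : 0 < η) {p : ℕ}
    (hp : ((d : ℝ) + 3) * (1 + η / 2) + 1 ≤ p * η) :
    ∃ K : ℝ, 0 ≤ K ∧ ∀ A : ℝ, 1 ≤ A → ∀ g : Vec d → ℝ, Nice g → (∀ u, 0 ≤ g u) →
      (∀ u, g u * (1 + nsq u / A ^ 2) ^ p ≤ A) →
      Integrable (fun z => g z * (1 + nsq z) ^ (η / 2)) →
      ∫ z, g z * (1 + nsq z / A ^ 2) ^ s ≤ 2 * (∫ z, g z * (1 + nsq z) ^ (η / 2)) + K := by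
  refine ⟨2 ^ (d + 1) * ∫ z, wt d z, mul_nonneg (by positivity)
    (integral_nonneg fun z => wt_nonneg z), fun A hA g _ hg0 hgA hint => ?_⟩
  have hA0 : 0 < A := by linarith
  have hR : Integrable fun z : Vec d =>
      2 * (g z * (1 + nsq z) ^ (η / 2)) + 2 ^ (d + 1) * wt d z :=
    (hint.const_mul 2).add (integrable_wt.const_mul _)
  have hle : ∀ z : Vec d, g z * (1 + nsq z / A ^ 2) ^ s ≤
      2 * (g z * (1 + nsq z) ^ (η / 2)) + 2 ^ (d + 1) * wt d z := by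
    intro z
    have h1 : nsq z = len z ^ 2 := (len_sq z).symm
    have h2 := hgA z
    rw [h1] at h2 ⊢
    exact Interp_pt hs hη hp hA (norm_nonneg z) (norm_le_len z) (hg0 z) h2
  have h0 : ∀ z : Vec d, 0 ≤ g z * (1 + nsq z / A ^ 2) ^ s := by
    intro z
    have := sq_nonneg' z
    have h3 : 0 ≤ nsq z / A ^ 2 := by positivity
    exact mul_nonneg (hg0 z) (Real.rpow_nonneg (by linarith) _)
  calc ∫ z, g z * (1 + nsq z / A ^ 2) ^ s
      ≤ ∫ z : Vec d, (2 * (g z * (1 + nsq z) ^ (η / 2)) + 2 ^ (d + 1) * wt d z) :=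
        integral_mono_of_nonneg (Eventually.of_forall h0) hR (Eventually.of_forall hle)
    _ = 2 * (∫ z, g z * (1 + nsq z) ^ (η / 2)) + 2 ^ (d + 1) * ∫ z, wt d z := by
        rw [integral_add (hint.const_mul 2) (integrable_wt.const_mul _), integral_const_mul,
          integral_const_mul]

end Pool.Agent.H82.BK
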