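import Pool.Agent.H82.BK.Touch2
import Pool.Agent.H82.BK.Barrier2

/-!
# Module MaxPr2: the maximum principle with a spreading barrier `A (1+|v|²/A²)^(-p)`, `A = A(t)`

As MaxPr. Fix `t* < T`, `η > 0`, `B` from `barrier_fn_mono` (module Barrier2, proved: the last component says `B` is
monotone, so `B ≥ B 0 = A₀+η ≥ 1` on `[0,t*]`), `W t v = (1+nsq v/(B t)²)^p`. If
`f W < B` fails take `t₀,x₀,v₀` from `first_touch_weight`. For small `τ > 0`, `B' = B(t₀-τ) ≤ B t₀`: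
`f(t₀-τ,x₀-τv₀,v₀) < B' (1+nsq v₀/B'²)^(-p) ≤ (B'/B t₀) B t₀ (1+nsq v₀/(B t₀)²)^(-p) = (B'/B t₀) f(t₀,x₀,v₀)`, and
`B'(1+τ(η+K m t₀)) ≤ B t₀`. So `f(t₀,x₀,v₀) - f(t₀-τ,..) ≥ f(t₀,x₀,v₀) (1 - 1/(1+τ(η+K m)))`; divide by `τ → 0+` (`char_deriv`):
`f(t₀,x₀,v₀) (η + K m t₀) ≤ Q t₀ x₀ v₀ ≤ K f(t₀,x₀,v₀) m t₀`: contradiction as `f(t₀,x₀,v₀) > 0`. Finally `η → 0+`: for fixed
`(t,x,v)`, `f(t,x,v) < B (1+nsq v/B²)^(-p)` and `B ≤ B_η := (A₀+η) exp(ηt+K(∫m+η))`, the function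
`B ↦ B (1+nsq v/B²)^(-p)` is nondecreasing and continuous on `[1,∞)`, `B_η → A₀ exp(K∫m)`.
-/

set_option autoImplicit false

open MeasureTheory Set Filter Topology Pool.Agent.H25.Kin
open scoped ENNReal

namespace Pool.Agent.H82.BK

variable {d : ℕ}

private lemma spread_nsq_nonneg (w : Vec d) : 0 ≤ nsq w := by
  unfold nsq
  positivity

private lemma spread_W_cont {T₁ : ℝ} {B : ℝ → ℝ} (hB : ContinuousOn B (Icc 0 T₁))
    (hB0 : ∀ t ∈ Icc 0 T₁, 0 < B t) (p : ℕ) :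
    ContinuousOn (fun q : ℝ × Vec d => (1 + nsq q.2 / (B q.1) ^ 2) ^ p) (Icc 0 T₁ ×ˢ univ) := by
  have hnq : Continuous (nsq : Vec d → ℝ) := by unfold nsq; fun_prop
  refine ContinuousOn.pow (continuousOn_const.add (ContinuousOn.div
    (hnq.comp continuous_snd).continuousOn ?_ fun q hq => ?_)) p
  · exact (hB.comp continuous_fst.continuousOn fun q hq => hq.1).pow 2
  · exact pow_ne_zero 2 (hB0 q.1 hq.1).ne'

/-- the derivative along the characteristic at a touching point -/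
private lemma spread_deriv {g : ℝ → ℝ} {q c : ℝ} (hd : HasDerivAt g q 0)
    (hev : ∀ᶠ τ in 𝓝[>] (0 : ℝ), g (-τ) * (1 + τ * c) ≤ g 0) : g 0 * c ≤ q := by
  have h1 : HasDerivAt (fun τ : ℝ => g (-τ)) (-q) 0 := by
    have h2 : HasDerivAt (fun τ : ℝ => -τ) (-1) 0 := (hasDerivAt_id (0 : ℝ)).neg
    have h3 : HasDerivAt g q (-0) := by rw [neg_zero]; exact hd
    have h4 := HasDerivAt.comp (0 : ℝ) h3 h2
    rw [mul_neg_one] at h4
    exact h4
  have h2 : HasDerivAt (fun τ : ℝ => 1 + τ * c) c 0 := by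
    have := ((hasDerivAt_id (0 : ℝ)).mul_const c).const_add 1
    simpa using this
  have h3 := h1.mul h2
  have e : -q * (1 + 0 * c) + g (-0) * c = -q + g 0 * c := by
    rw [neg_zero, zero_mul, add_zero, mul_one]
  have h4 : HasDerivAt (fun τ : ℝ => g (-τ) * (1 + τ * c)) (-q + g 0 * c) 0 := by
    rw [← e]
    exact h3
  have h5 := h4.tendsto_slope_zero_right
  have h6 : -q + g 0 * c ≤ 0 := by
    refine le_of_tendsto h5 ?_
    filter_upwards [hev, self_mem_nhdsWithin] with τ hτ hτ0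
    have hτ0' : 0 < τ := hτ0
    simp only [zero_add, neg_zero, zero_mul, add_zero, mul_one, smul_eq_mul]
    exact mul_nonpos_of_nonneg_of_nonpos (inv_nonneg.2 hτ0'.le) (by linarith)
  linarith

theorem max_principle_spread {T : ℝ} {Q f : ℝ → Vec d → Vec d → ℝ} (hf : IsClassicalSol T Q f)
    (p : ℕ) {K : ℝ} (hK : 0 ≤ K) {m : ℝ → ℝ} (hm : IntegrableOn m (Ioo 0 T))
    (hm0 : ∀ t ∈ Ioo 0 T, 0 ≤ m t)
    (hQ : ∀ t ∈ Ioo 0 T, ∀ x v, ∀ A : ℝ, 1 ≤ A → (∀ u, f t x u * (1 + nsq u / A ^ 2) ^ p ≤ A) →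
      f t x v * (1 + nsq v / A ^ 2) ^ p = A → Q t x v ≤ K * f t x v * m t)
    {A₀ : ℝ} (h1 : 1 ≤ A₀) (hA₀ : ∀ x v, f 0 x v * (1 + nsq v / A₀ ^ 2) ^ p ≤ A₀) :
    ∀ t ∈ Ico 0 T, ∀ x v,
      f t x v * (1 + nsq v / (A₀ * Real.exp (K * ∫ τ in Ioc 0 t, m τ)) ^ 2) ^ p ≤
        A₀ * Real.exp (K * ∫ τ in Ioc 0 t, m τ) := by
  intro t ht x v
  rcases ht.1.eq_or_lt with h0 | htpos
  · subst h0
    simpa using hA₀ x v
  have hnn : ∀ w : Vec d, 0 ≤ nsq w := fun w => spread_nsq_nonneg w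
  have hsub : Ioc 0 t ⊆ Ioo 0 T := fun s hs => ⟨hs.1, hs.2.trans_lt ht.2⟩
  have hmt : IntegrableOn m (Ioc 0 t) := hm.mono_set hsub
  have hmt0 : ∀ s ∈ Ioc 0 t, 0 ≤ m s := fun s hs => hm0 s (hsub hs)
  -- the bound for every `η > 0`
  have key : ∀ η : ℝ, 0 < η →
      f t x v * (1 + nsq v / ((A₀ + η) * Real.exp (η * t + K * ((∫ τ in Ioc 0 t, m τ) + η))) ^ 2) ^ p ≤
        (A₀ + η) * Real.exp (η * t + K * ((∫ τ in Ioc 0 t, m τ) + η)) := by
    intro η hη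
    obtain ⟨B, hBc, hBpos, hB0, hBle, hBstep, hBmono⟩ :=
      barrier_fn_mono htpos hmt hmt0 hK (by linarith : (0 : ℝ) ≤ A₀) hη
    have hB1 : ∀ s ∈ Icc 0 t, 1 ≤ B s := fun s hs => by
      have h2 := hBmono hs.1
      rw [hB0] at h2
      linarith
    have claim : ∀ s ∈ Icc 0 t, ∀ y w, f s y w * (1 + nsq w / (B s) ^ 2) ^ p < B s := by
      by_contra hcon
      push Not at hcon
      obtain ⟨s1, hs1, y1, w1, hc1⟩ := hcon
      obtain ⟨t₀, ht₀, x₀, v₀, heq, hlt, hle⟩ := first_touch_weight hf p htpos.le ht.2 hBc hBpos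
        (W := fun s w => (1 + nsq w / (B s) ^ 2) ^ p)
        (spread_W_cont hBc hBpos p)
        (fun s _ w => pow_nonneg (by have := hnn w; positivity) p)
        (fun s hs w => by
          refine pow_le_pow_left₀ (by have := hnn w; positivity) ?_ p
          have h2 : nsq w / (B s) ^ 2 ≤ nsq w :=
            div_le_self (hnn w) (one_le_pow₀ (hB1 s hs))
          linarith)
        (fun y w => by
          rw [hB0]
          have hf0 : 0 ≤ f 0 y w := hf.nonneg 0 ⟨le_rfl, htpos.trans ht.2⟩ y w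
          have h2 : (1 + nsq w / (A₀ + η) ^ 2) ^ p ≤ (1 + nsq w / A₀ ^ 2) ^ p := by
            refine pow_le_pow_left₀ (by have := hnn w; positivity) ?_ p
            have h3 : nsq w / (A₀ + η) ^ 2 ≤ nsq w / A₀ ^ 2 :=
              div_le_div_of_nonneg_left (hnn w) (by positivity)
                (pow_le_pow_left₀ (by linarith) (by linarith) 2)
            linarith
          have h4 := mul_le_mul_of_nonneg_left h2 hf0
          have h5 := hA₀ y w
          show f 0 y w * (1 + nsq w / (A₀ + η) ^ 2) ^ p < A₀ + η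
          linarith)
        ⟨s1, hs1, y1, w1, hc1⟩
      have ht₀I : t₀ ∈ Ioo 0 T := hsub ht₀
      have ht₀c : t₀ ∈ Icc 0 t := ⟨ht₀.1.le, ht₀.2⟩
      have hBt : 0 < B t₀ := hBpos t₀ ht₀c
      have hWt : 0 < (1 + nsq v₀ / (B t₀) ^ 2) ^ p := pow_pos (by have := hnn v₀; positivity) p
      have heq' : f t₀ x₀ v₀ * (1 + nsq v₀ / (B t₀) ^ 2) ^ p = B t₀ := heq
      have hF0 : 0 < f t₀ x₀ v₀ := by
        by_contra hneg
        push Not at hneg
        have := mul_nonpos_of_nonpos_of_nonneg hneg hWt.le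
        linarith
      have hq := hQ t₀ ht₀I x₀ v₀ (B t₀) (hB1 t₀ ht₀c) (fun u => hle x₀ u) heq'
      -- the inequality before the touching time
      have hev : ∀ᶠ τ in 𝓝[>] (0 : ℝ),
          f (t₀ + -τ) (x₀ + (-τ) • v₀) v₀ * (1 + τ * (η + K * m t₀)) ≤ f t₀ x₀ v₀ := by
        have hI : Ioo (0 : ℝ) t₀ ∈ 𝓝[>] (0 : ℝ) := Ioo_mem_nhdsGT ht₀.1
        filter_upwards [hBstep t₀ ht₀, hI] with τ hτ hτI
        have hs : t₀ + -τ ∈ Ico 0 t₀ := ⟨by linarith [hτI.2], by linarith [hτI.1]⟩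
        have hsc : t₀ + -τ ∈ Icc 0 t := ⟨hs.1, hs.2.le.trans ht₀.2⟩
        have h2 := hlt (t₀ + -τ) hs (x₀ + (-τ) • v₀) v₀
        have h2' : f (t₀ + -τ) (x₀ + (-τ) • v₀) v₀ * (1 + nsq v₀ / (B (t₀ + -τ)) ^ 2) ^ p <
            B (t₀ + -τ) := h2
        have hfs : 0 ≤ f (t₀ + -τ) (x₀ + (-τ) • v₀) v₀ :=
          hf.nonneg _ ⟨hsc.1, hsc.2.trans_lt ht.2⟩ _ _
        have hBs : 0 < B (t₀ + -τ) := hBpos _ hsc
        have hBB : B (t₀ + -τ) ≤ B t₀ := hBmono (by linarith [hτI.1])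
        have hWW : (1 + nsq v₀ / (B t₀) ^ 2) ^ p ≤ (1 + nsq v₀ / (B (t₀ + -τ)) ^ 2) ^ p := by
          refine pow_le_pow_left₀ (by have := hnn v₀; positivity) ?_ p
          have h3 : nsq v₀ / (B t₀) ^ 2 ≤ nsq v₀ / (B (t₀ + -τ)) ^ 2 :=
            div_le_div_of_nonneg_left (hnn v₀) (by positivity)
              (pow_le_pow_left₀ hBs.le hBB 2)
          linarith
        have h4 := mul_le_mul_of_nonneg_left hWW hfs
        have h5 : 0 < 1 + τ * (η + K * m t₀) := by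
          have := hmt0 t₀ ht₀
          have h6 : 0 ≤ K * m t₀ := mul_nonneg hK this
          have h7 := hτI.1
          positivity
        have h8 : f (t₀ + -τ) (x₀ + (-τ) • v₀) v₀ * (1 + nsq v₀ / (B t₀) ^ 2) ^ p ≤
            B (t₀ + -τ) := by linarith
        have h9 := mul_le_mul_of_nonneg_right h8 h5.le
        have h10 : B (t₀ + -τ) * (1 + τ * (η + K * m t₀)) ≤ B t₀ := by
          have : t₀ + -τ = t₀ - τ := by ring
          rw [this]
          exact hτ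
        have h11 : (f (t₀ + -τ) (x₀ + (-τ) • v₀) v₀ * (1 + τ * (η + K * m t₀))) *
            (1 + nsq v₀ / (B t₀) ^ 2) ^ p ≤ f t₀ x₀ v₀ * (1 + nsq v₀ / (B t₀) ^ 2) ^ p := by
          rw [heq']
          calc _ = f (t₀ + -τ) (x₀ + (-τ) • v₀) v₀ * (1 + nsq v₀ / (B t₀) ^ 2) ^ p *
                (1 + τ * (η + K * m t₀)) := by ring
            _ ≤ _ := h9.trans h10
        exact le_of_mul_le_mul_right h11 hWt
      have hd := char_deriv hf ht₀I x₀ v₀
      have hfin := spread_deriv (c := η + K * m t₀) hd (by simpa using hev)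
      simp only [add_zero, zero_smul] at hfin
      nlinarith [mul_pos hη hF0]
    have h2 := claim t ⟨htpos.le, le_rfl⟩ x v
    have h3 := hBle t ⟨htpos.le, le_rfl⟩
    have h4 : 0 < B t := hBpos t ⟨htpos.le, le_rfl⟩
    have hft : 0 ≤ f t x v := hf.nonneg t ht x v
    set E := (A₀ + η) * Real.exp (η * t + K * ((∫ τ in Ioc 0 t, m τ) + η)) with hE
    have h5 : (1 + nsq v / E ^ 2) ^ p ≤ (1 + nsq v / (B t) ^ 2) ^ p := by
      refine pow_le_pow_left₀ (by have := hnn v; positivity) ?_ p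
      have h6 : nsq v / E ^ 2 ≤ nsq v / (B t) ^ 2 :=
        div_le_div_of_nonneg_left (hnn v) (by positivity) (pow_le_pow_left₀ h4.le h3 2)
      linarith
    have h6 := mul_le_mul_of_nonneg_left h5 hft
    linarith
  -- the limit `η → 0`
  have hE0 : 0 < A₀ * Real.exp (K * ∫ τ in Ioc 0 t, m τ) := by positivity
  have hcE : Continuous fun η : ℝ =>
      (A₀ + η) * Real.exp (η * t + K * ((∫ τ in Ioc 0 t, m τ) + η)) := by fun_prop
  have hE00 : (A₀ + 0) * Real.exp (0 * t + K * ((∫ τ in Ioc 0 t, m τ) + 0)) =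
      A₀ * Real.exp (K * ∫ τ in Ioc 0 t, m τ) := by
    rw [add_zero, zero_mul, zero_add, add_zero]
  have l1 : Tendsto (fun η : ℝ => (A₀ + η) * Real.exp (η * t + K * ((∫ τ in Ioc 0 t, m τ) + η)))
      (𝓝[>] 0) (𝓝 (A₀ * Real.exp (K * ∫ τ in Ioc 0 t, m τ))) := by
    rw [← hE00]
    exact (hcE.tendsto 0).mono_left nhdsWithin_le_nhds
  have l2 : Tendsto (fun η : ℝ => f t x v *
      (1 + nsq v / ((A₀ + η) * Real.exp (η * t + K * ((∫ τ in Ioc 0 t, m τ) + η))) ^ 2) ^ p)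
      (𝓝[>] 0) (𝓝 (f t x v * (1 + nsq v / (A₀ * Real.exp (K * ∫ τ in Ioc 0 t, m τ)) ^ 2) ^ p)) :=
    (((tendsto_const_nhds.div (l1.pow 2) (by positivity)).const_add 1).pow p).const_mul (f t x v)
  refine le_of_tendsto_of_tendsto l2 l1 ?_
  filter_upwards [self_mem_nhdsWithin] with η hη
  exact key η hη

end Pool.Agent.H82.BK
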