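import Pool.Agent.H82.BK.Comb
import Pool.Agent.H82.BK.Real

/-!
# Module Op: THEOREM 1, the operator bound at a touching point

`gain_le_loss`, `wgt_integrable` (`∫⁻ ofReal(K g(v) g(z) wgt) = ofReal (K g(v) ∫ g wgt)`), `cut_le`, and the limit `ε → 0+`
(`boltz_tendsto`, `le_of_tendsto`).
-/

set_option autoImplicit false

open MeasureTheory Set Filter Topology Pool.Agent.H25.Kin
open scoped ENNReal

namespace Pool.Agent.H82.BK

variable {d : ℕ}

theorem op_bound {γ s : ℝ} {b : ℝ → ℝ} {C Ca : ℝ} (H : Hyp d γ s b C Ca) {p : ℕ}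
    (hp : (d : ℝ) + γ + 4 ≤ 2 * p) :
    ∃ K : ℝ, 0 ≤ K ∧ ∀ g : Vec d → ℝ, Nice g → (∀ u, 0 ≤ g u) → ∀ v : Vec d,
      (∀ u, g u * (1 + nsq u) ^ p ≤ g v * (1 + nsq v) ^ p) →
      boltzQ γ b g v ≤ K * g v * ∫ z, g z * wgt γ s v z := by
  obtain ⟨K, hK, hgl⟩ := gain_le_loss H hp
  refine ⟨K, hK, fun g hg hg0 v hv => ?_⟩
  have hR : 0 ≤ K * g v * ∫ z, g z * wgt γ s v z :=
    mul_nonneg (mul_nonneg hK (hg0 v))
      (integral_nonneg fun z => mul_nonneg (hg0 z) (wgt_nonneg γ s v z))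
  have hint : ∫⁻ z, ENNReal.ofReal (K * g v * (g z * wgt γ s v z)) =
      ENNReal.ofReal (K * g v * ∫ z, g z * wgt γ s v z) := by
    rw [← integral_const_mul, ofReal_integral_eq_lintegral_ofReal
      ((wgt_integrable H hg v).const_mul _)]
    exact Eventually.of_forall fun z =>
      mul_nonneg (mul_nonneg hK (hg0 v)) (mul_nonneg (hg0 z) (wgt_nonneg γ s v z))
  refine le_of_tendsto (boltz_tendsto H hg v) ?_
  filter_upwards [self_mem_nhdsWithin] with ε hε
  refine cut_le H hg hg0 hε v hR ?_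
  rw [← hint]
  exact hgl g hg.cont.measurable hg0 v hv ε hε

end Pool.Agent.H82.BK
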