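import Pool.Agent.H82.BK.Scale
import Pool.Agent.H82.BK.Op

/-!
# Module OpR: the operator bound at a touching point at scale `R ≥ 1` (`γ ≤ 0`)

Apply `op_bound` to `g_R(u) = g(R•u)` (`nice_scale`) at `v/R`: the domination hypothesis for `g` at scale `R` is the one of
`op_bound` for `g_R` (`nsq (R•u) = R² nsq u`, `nsq_smul`). With `boltzQ_scale`:
`boltzQ γ b g v = R^(d+γ) boltzQ γ b g_R (v/R) ≤ K g(v) R^(d+γ) ∫ g(R•z) wgt γ s (v/R) z dz = K g(v) R^γ ∫ g(z) wgt γ s (v/R) (z/R) dz`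
(`Measure.integral_comp_smul`), and `R^γ wgt γ s (v/R) (z/R) = R^γ (1+|z|²/R²)^((γ+2s)/2) + len(v-z)^γ ≤ (1+|z|²/R²)^s + len (v-z)^γ`
(`γ ≤ 0`: `min γ 0 = γ`, `R^γ ≤ 1`, `(γ+2s)/2 ≤ s`, base `≥ 1`; `len (R⁻¹•(v-z)) = R⁻¹ len (v-z)`, `len_smul`).
Integrability of the right side: `g` is `RD`, `(1+|z|²/R²)^s ≤ 1+|z|²`, and `wgt_integrable`.
-/

set_option autoImplicit false

open MeasureTheory Set Filter Topology Pool.Agent.H25.Kin
open scoped ENNReal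

namespace Pool.Agent.H82.BK

variable {d : ℕ}

private lemma opR_int {g : Vec d → ℝ} (hg : Nice g) {h : Vec d → ℝ} (hm : Measurable h)
    (h0 : ∀ z, 0 ≤ h z) (h1 : ∀ z, h z ≤ 1 + nsq z) : Integrable fun z : Vec d => g z * h z := by
  have e1 : RD (fun z : Vec d => g z * (1 + nsq z)) :=
    hg.rd.mul_PG ((PG.const (1 : ℝ)).add PG.nsq)
  have e2 : RD (fun z : Vec d => g z * h z) := by
    refine e1.mono 1 fun z => ?_
    have hn := sq_nonneg' z
    rw [norm_mul, norm_mul, one_mul, Real.norm_eq_abs (h z),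
      Real.norm_eq_abs (1 + nsq z), abs_of_nonneg (h0 z),
      abs_of_nonneg (by linarith : (0 : ℝ) ≤ 1 + nsq z)]
    exact mul_le_mul_of_nonneg_left (h1 z) (norm_nonneg _)
  exact e2.integrable (hg.cont.measurable.mul hm).aestronglyMeasurable

private lemma opR_pow {a x : ℝ} (hx : 1 ≤ x) (ha : a ≤ 1) : x ^ a ≤ x := by
  calc x ^ a ≤ x ^ (1 : ℝ) := Real.rpow_le_rpow_of_exponent_le hx ha
    _ = x := Real.rpow_one _

theorem op_bound_scaled {γ s : ℝ} {b : ℝ → ℝ} {C Ca : ℝ} (H : Hyp d γ s b C Ca) (hγ : γ ≤ 0) {p : ℕ}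
    (hp : (d : ℝ) + γ + 4 ≤ 2 * p) :
    ∃ K : ℝ, 0 ≤ K ∧ ∀ R : ℝ, 1 ≤ R → ∀ g : Vec d → ℝ, Nice g → (∀ u, 0 ≤ g u) → ∀ v : Vec d,
      (∀ u, g u * (1 + nsq u / R ^ 2) ^ p ≤ g v * (1 + nsq v / R ^ 2) ^ p) →
      boltzQ γ b g v ≤ K * g v * ∫ z, g z * ((1 + nsq z / R ^ 2) ^ s + len (v - z) ^ γ) := by
  obtain ⟨K, hK0, hK⟩ := op_bound H hp
  refine ⟨K, hK0, fun R hR g hg hg0 v hdom => ?_⟩
  have hR0 : 0 < R := by linarith
  have hR2 : (1 : ℝ) ≤ R ^ 2 := one_le_pow₀ hR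
  have hN := nice_scale hg hR0
  have hv : R • (R⁻¹ • v) = v := smul_inv_smul₀ hR0.ne' v
  have hn1 : ∀ u : Vec d, nsq (R • u) / R ^ 2 = nsq u := fun u => by
    rw [nsq_smul]
    field_simp
  have hn2 : ∀ u : Vec d, nsq (R⁻¹ • u) = nsq u / R ^ 2 := fun u => by
    rw [nsq_smul]
    field_simp
  have h1 := hK (fun u => g (R • u)) hN (fun u => hg0 _) (R⁻¹ • v) (fun u => by
    have h2 := hdom (R • u)
    rw [hn1] at h2
    rw [hv, hn2]
    exact h2)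
  have h3 := boltzQ_scale H hg hR0 (R⁻¹ • v)
  rw [hv] at h3 h1
  have hmin : min γ 0 = γ := min_eq_left hγ
  -- the integrand at scale `R`
  have hexp : (γ + 2 * s) / 2 ≤ s := by linarith
  have hexp1 : (γ + 2 * s) / 2 ≤ 1 := by have := H.h2; linarith
  have hwgt : ∀ z : Vec d, R ^ γ * wgt γ s (R⁻¹ • v) (R⁻¹ • z) =
      R ^ γ * (1 + nsq z / R ^ 2) ^ ((γ + 2 * s) / 2) + len (v - z) ^ γ := by
    intro z
    unfold wgt
    rw [hmin, hn2, ← smul_sub, len_smul (inv_nonneg.2 hR0.le),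
      Real.mul_rpow (inv_nonneg.2 hR0.le) (len_nonneg _), Real.inv_rpow hR0.le, mul_add,
      ← mul_assoc (R ^ γ) ((R ^ γ)⁻¹), mul_inv_cancel₀ (Real.rpow_pos_of_pos hR0 γ).ne', one_mul]
  -- substitution
  have hsub : ∫ z, g (R • z) * wgt γ s (R⁻¹ • v) z =
      R ^ (-(d : ℝ)) * ∫ z, g z * wgt γ s (R⁻¹ • v) (R⁻¹ • z) := by
    have h4 := Measure.integral_comp_smul (volume : Measure (Vec d))
      (fun z : Vec d => g z * wgt γ s (R⁻¹ • v) (R⁻¹ • z)) R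
    have h5 : (fun x : Vec d => g (R • x) * wgt γ s (R⁻¹ • v) (R⁻¹ • R • x)) =
        fun x => g (R • x) * wgt γ s (R⁻¹ • v) x := by
      funext x
      rw [inv_smul_smul₀ hR0.ne']
    rw [h5] at h4
    rw [h4, smul_eq_mul, Module.finrank_fin_fun, Real.rpow_neg hR0.le, Real.rpow_natCast,
      abs_of_nonneg (by positivity)]
  have hI : ∫ z, g z * wgt γ s (R⁻¹ • v) (R⁻¹ • z) =
      (R ^ γ)⁻¹ * ∫ z, g z * (R ^ γ * wgt γ s (R⁻¹ • v) (R⁻¹ • z)) := by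
    rw [← integral_const_mul]
    refine integral_congr_ae (Eventually.of_forall fun z => ?_)
    have : R ^ γ ≠ 0 := (Real.rpow_pos_of_pos hR0 γ).ne'
    show g z * wgt γ s (R⁻¹ • v) (R⁻¹ • z) =
      (R ^ γ)⁻¹ * (g z * (R ^ γ * wgt γ s (R⁻¹ • v) (R⁻¹ • z)))
    field_simp
  have hRγ : R ^ γ ≤ 1 := Real.rpow_le_one_of_one_le_of_nonpos hR hγ
  have hRγ0 : 0 < R ^ γ := Real.rpow_pos_of_pos hR0 γ
  have hq : ∀ z : Vec d, 1 ≤ 1 + nsq z / R ^ 2 := fun z => by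
    have h6 : 0 ≤ nsq z / R ^ 2 := div_nonneg (sq_nonneg' z) (by positivity)
    linarith
  have hq2 : ∀ z : Vec d, 1 + nsq z / R ^ 2 ≤ 1 + nsq z := fun z => by
    have h6 : nsq z / R ^ 2 ≤ nsq z := div_le_self (sq_nonneg' z) hR2
    linarith
  have hqm : ∀ a : ℝ, Measurable fun z : Vec d => (1 + nsq z / R ^ 2) ^ a := fun a =>
    ((continuous_const.add (continuous_sq.div_const _)).measurable).pow_const a
  have i1 : Integrable fun z : Vec d => g z * (1 + nsq z / R ^ 2) ^ s :=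
    opR_int hg (hqm s) (fun z => Real.rpow_nonneg (by linarith [hq z]) _) fun z =>
      (opR_pow (hq z) H.hs1.le).trans (hq2 z)
  have i2 : Integrable fun z : Vec d => g z * (1 + nsq z / R ^ 2) ^ ((γ + 2 * s) / 2) :=
    opR_int hg (hqm _) (fun z => Real.rpow_nonneg (by linarith [hq z]) _) fun z =>
      (opR_pow (hq z) hexp1).trans (hq2 z)
  have i3 : Integrable fun z : Vec d => g z * len (v - z) ^ γ := by
    have j1 := wgt_integrable H hg v
    have j2 : Integrable fun z : Vec d => g z * (1 + nsq z) ^ ((γ + 2 * s) / 2) :=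
      opR_int hg (((continuous_const.add continuous_sq).measurable).pow_const _)
        (fun z => Real.rpow_nonneg (by have := sq_nonneg' z; linarith) _) fun z =>
        opR_pow (by have := sq_nonneg' z; linarith) hexp1
    refine (j1.sub j2).congr (Eventually.of_forall fun z => ?_)
    simp only [Pi.sub_apply, wgt, hmin]
    ring
  have i4 : Integrable fun z : Vec d => g z * (R ^ γ * wgt γ s (R⁻¹ • v) (R⁻¹ • z)) := by
    refine ((i2.const_mul (R ^ γ)).add i3).congr (Eventually.of_forall fun z => ?_)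
    simp only [Pi.add_apply]
    rw [hwgt]
    ring
  have i5 : Integrable fun z : Vec d => g z * ((1 + nsq z / R ^ 2) ^ s + len (v - z) ^ γ) := by
    refine (i1.add i3).congr (Eventually.of_forall fun z => ?_)
    simp only [Pi.add_apply]
    ring
  have hmono : ∫ z, g z * (R ^ γ * wgt γ s (R⁻¹ • v) (R⁻¹ • z)) ≤
      ∫ z, g z * ((1 + nsq z / R ^ 2) ^ s + len (v - z) ^ γ) := by
    refine integral_mono i4 i5 fun z => ?_
    show g z * (R ^ γ * wgt γ s (R⁻¹ • v) (R⁻¹ • z)) ≤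
      g z * ((1 + nsq z / R ^ 2) ^ s + len (v - z) ^ γ)
    rw [hwgt]
    refine mul_le_mul_of_nonneg_left ?_ (hg0 z)
    have h7 : (1 + nsq z / R ^ 2) ^ ((γ + 2 * s) / 2) ≤ (1 + nsq z / R ^ 2) ^ s :=
      Real.rpow_le_rpow_of_exponent_le (hq z) hexp
    have h8 : 0 ≤ (1 + nsq z / R ^ 2) ^ ((γ + 2 * s) / 2) :=
      Real.rpow_nonneg (by linarith [hq z]) _
    have h9 : R ^ γ * (1 + nsq z / R ^ 2) ^ ((γ + 2 * s) / 2) ≤
        1 * (1 + nsq z / R ^ 2) ^ ((γ + 2 * s) / 2) := mul_le_mul_of_nonneg_right hRγ h8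
    linarith
  have hpow : R ^ ((d : ℝ) + γ) * (R ^ (-(d : ℝ)) * (R ^ γ)⁻¹) = 1 := by
    rw [Real.rpow_add hR0, Real.rpow_neg hR0.le]
    have e1 : R ^ (d : ℝ) ≠ 0 := (Real.rpow_pos_of_pos hR0 _).ne'
    field_simp
  calc boltzQ γ b g v = R ^ ((d : ℝ) + γ) * boltzQ γ b (fun u => g (R • u)) (R⁻¹ • v) := h3
    _ ≤ R ^ ((d : ℝ) + γ) * (K * g v * ∫ z, g (R • z) * wgt γ s (R⁻¹ • v) z) :=
        mul_le_mul_of_nonneg_left h1 (Real.rpow_nonneg hR0.le _)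
    _ = K * g v * ∫ z, g z * (R ^ γ * wgt γ s (R⁻¹ • v) (R⁻¹ • z)) := by
        rw [hsub, hI]
        calc _ = (R ^ ((d : ℝ) + γ) * (R ^ (-(d : ℝ)) * (R ^ γ)⁻¹)) * (K * g v *
              ∫ z, g z * (R ^ γ * wgt γ s (R⁻¹ • v) (R⁻¹ • z))) := by ring
          _ = _ := by rw [hpow, one_mul]
    _ ≤ _ := mul_le_mul_of_nonneg_left hmono (mul_nonneg hK0 (hg0 v))

end Pool.Agent.H82.BK
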