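import Pool.Agent.H82.BK.Defs

/-!
# Module Scale: scaling of the Boltzmann operator

* `nice_scale`: `ContDiff` by composition with the linear map `u ↦ R • u`; decay: `1+‖u‖ ≤ max(1,R⁻¹) (1+‖R•u‖)`, and the
  derivatives of `g(R•u)` are `R` (resp. `R²`) times those of `g` at `R•u` (in norm).
* `cut_scale`: substitute `w = R w'` (`Measure.integral_comp_smul`, `finrank = d`): `post (R•v) (R•w) σ = R • post v w σ`
  (`len_smul`, `smul_sub`), the same for `post'`, `cosTh (R•v) (R•w) σ = cosTh v w σ`, `len (R•v-R•w) ^ γ = R ^ γ * len (v-w) ^ γ`, so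
  `kerB γ b ε (R•v) (R•w) σ = R ^ γ * kerB γ b ε v w σ` (for `R > 0`).
* `boltzQ_scale`: uniqueness of limits with `boltz_tendsto` for `g` at `R•v` and for `fun u => g (R•u)` at `v`.
-/

set_option autoImplicit false

open MeasureTheory Set Filter Topology Pool.Agent.H25.Kin
open scoped ENNReal

namespace Pool.Agent.H82.BK

variable {d : ℕ}

lemma rd_scale {E : Type*} [NormedAddCommGroup E] {h : Vec d → E} (hh : RD h) {R : ℝ} (hR : 0 < R) :
    RD fun u : Vec d => h (R • u) := by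
  intro N
  obtain ⟨C, hC⟩ := hh N
  set m : ℝ := max 1 R⁻¹ with hm
  have hm1 : 1 ≤ m := le_max_left _ _
  have hm2 : R⁻¹ ≤ m := le_max_right _ _
  have hm0 : 0 ≤ m := zero_le_one.trans hm1
  refine ⟨m ^ N * C, fun v => ?_⟩
  have e1 : ‖R • v‖ = R * ‖v‖ := by rw [norm_smul, Real.norm_eq_abs, abs_of_pos hR]
  have e2 : ‖v‖ = R⁻¹ * ‖R • v‖ := by
    rw [e1, ← mul_assoc, inv_mul_cancel₀ hR.ne', one_mul]
  have h1 : 1 + ‖v‖ ≤ m * (1 + ‖R • v‖) := by
    have h2 : R⁻¹ * ‖R • v‖ ≤ m * ‖R • v‖ := mul_le_mul_of_nonneg_right hm2 (norm_nonneg _)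
    rw [mul_add, mul_one]
    linarith
  have h0 := w_pos v
  calc (1 + ‖v‖) ^ N * ‖h (R • v)‖ ≤ (m * (1 + ‖R • v‖)) ^ N * ‖h (R • v)‖ :=
        mul_le_mul_of_nonneg_right (pow_le_pow_left₀ h0.le h1 N) (norm_nonneg _)
    _ = m ^ N * ((1 + ‖R • v‖) ^ N * ‖h (R • v)‖) := by rw [mul_pow]; ring
    _ ≤ m ^ N * C := mul_le_mul_of_nonneg_left (hC _) (pow_nonneg hm0 N)

lemma rd_smul {E : Type*} [NormedAddCommGroup E] [NormedSpace ℝ E] {h : Vec d → E} (hh : RD h)
    (R : ℝ) : RD fun u : Vec d => R • h u :=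
  hh.mono |R| fun v => by rw [norm_smul, Real.norm_eq_abs]

lemma fderiv_scale (g : Vec d → ℝ) (R : ℝ) :
    fderiv ℝ (fun u : Vec d => g (R • u)) = fun u => R • fderiv ℝ g (R • u) := by
  funext u
  exact fderiv_comp_smul R

theorem nice_scale {g : Vec d → ℝ} (hg : Nice g) {R : ℝ} (hR : 0 < R) :
    Nice fun u : Vec d => g (R • u) := by
  refine ⟨?_, ?_, ?_, ?_⟩
  · exact hg.smooth.comp (contDiff_const_smul R)
  · exact rd_scale hg.rd hR
  · rw [fderiv_scale]
    refine (rd_scale hg.rd1 hR).mono R fun v => ?_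
    rw [norm_smul, Real.norm_eq_abs, abs_of_pos hR]
  · have e : fderiv ℝ (fderiv ℝ fun u : Vec d => g (R • u)) =
        fun u => R • R • fderiv ℝ (fderiv ℝ g) (R • u) := by
      rw [fderiv_scale]
      funext u
      have h1 : fderiv ℝ (fun u : Vec d => fderiv ℝ g (R • u)) u =
          R • fderiv ℝ (fderiv ℝ g) (R • u) := fderiv_comp_smul R
      have hdiff : DifferentiableAt ℝ (fun u : Vec d => fderiv ℝ g (R • u)) u :=
        (hg.diff1 (R • u)).comp u ((differentiable_id.const_smul R) u)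
      rw [← h1]
      exact fderiv_const_smul hdiff R
    rw [e]
    exact rd_smul (rd_smul (rd_scale hg.rd2 hR) R) R

lemma post_scale {R : ℝ} (hR : 0 < R) (v w σ : Vec d) :
    post (R • v) (R • w) σ = R • post v w σ := by
  unfold post
  rw [← smul_sub, len_smul hR.le]
  ext i
  simp only [Pi.add_apply, Pi.smul_apply, smul_eq_mul]
  ring

lemma post'_scale {R : ℝ} (hR : 0 < R) (v w σ : Vec d) :
    post' (R • v) (R • w) σ = R • post' v w σ := by
  unfold post'
  rw [← smul_sub, len_smul hR.le]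
  ext i
  simp only [Pi.add_apply, Pi.sub_apply, Pi.smul_apply, smul_eq_mul]
  ring

lemma cosTh_scale {R : ℝ} (hR : 0 < R) (v w σ : Vec d) :
    cosTh (R • v) (R • w) σ = cosTh v w σ := by
  unfold cosTh
  rw [← smul_sub, len_smul hR.le, dot_smul, mul_div_mul_left _ _ hR.ne']

lemma kerB_scale (γ : ℝ) (b : ℝ → ℝ) (ε : ℝ) {R : ℝ} (hR : 0 < R) (v w σ : Vec d) :
    kerB γ b ε (R • v) (R • w) σ = R ^ γ * kerB γ b ε v w σ := by
  unfold kerB
  rw [cosTh_scale hR, ← smul_sub, len_smul hR.le, Real.mul_rpow hR.le (len_nonneg _)]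
  split_ifs <;> ring

theorem cut_scale (γ : ℝ) (b : ℝ → ℝ) (ε : ℝ) (g : Vec d → ℝ) {R : ℝ} (hR : 0 < R) (v : Vec d) :
    boltzCut γ b ε g (R • v) = R ^ ((d : ℝ) + γ) * boltzCut γ b ε (fun u => g (R • u)) v := by
  set F : Vec d → ℝ := fun w => ∫ σ : Vec d, kerB γ b ε (R • v) w σ *
    (g (post' (R • v) w σ) * g (post (R • v) w σ) - g w * g (R • v)) ∂(surf d) with hF
  have h1 : ∀ w : Vec d, F (R • w) = R ^ γ * ∫ σ : Vec d, kerB γ b ε v w σ *
      (g (R • post' v w σ) * g (R • post v w σ) - g (R • w) * g (R • v)) ∂(surf d) := by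
    intro w
    rw [hF]
    simp only
    rw [← integral_const_mul]
    refine integral_congr_ae (Eventually.of_forall fun σ => ?_)
    simp only
    rw [kerB_scale γ b ε hR, post_scale hR, post'_scale hR, mul_assoc]
  have h2 := Measure.integral_comp_smul (volume : Measure (Vec d)) F R
  have h3 : Module.finrank ℝ (Vec d) = d := by simp
  rw [h3, abs_of_nonneg (inv_nonneg.2 (pow_nonneg hR.le d)), smul_eq_mul] at h2
  have hRd : (0 : ℝ) < R ^ d := pow_pos hR d
  have h4 : ∫ w, F w = R ^ d * ∫ w, F (R • w) := by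
    rw [h2, ← mul_assoc, mul_inv_cancel₀ hRd.ne', one_mul]
  have h5 : boltzCut γ b ε g (R • v) = ∫ w, F w := rfl
  rw [h5, h4]
  simp_rw [h1]
  rw [integral_const_mul, ← mul_assoc, Real.rpow_add hR, Real.rpow_natCast]
  rfl

theorem boltzQ_scale {γ s : ℝ} {b : ℝ → ℝ} {C Ca : ℝ} (H : Hyp d γ s b C Ca) {g : Vec d → ℝ}
    (hg : Nice g) {R : ℝ} (hR : 0 < R) (v : Vec d) :
    boltzQ γ b g (R • v) = R ^ ((d : ℝ) + γ) * boltzQ γ b (fun u => g (R • u)) v := by
  have h1 := boltz_tendsto H hg (R • v)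
  have h2 := (boltz_tendsto H (nice_scale hg hR) v).const_mul (R ^ ((d : ℝ) + γ))
  refine tendsto_nhds_unique h1 (h2.congr fun ε => ?_)
  rw [cut_scale γ b ε g hR v]

end Pool.Agent.H82.BK
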