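import Pool.Agent.H82.BK.Loss
import Pool.Agent.H82.BK.Avg
import Pool.Agent.H82.BK.Pw

/-!
# Module Slow: the contribution of a slow background velocity is `≤ 0`

`a = 1+|v|²`, `z = v - m`, `|z|² ≤ δ² a`, `a ≥ a₀`. `g ≤ ψ` with `ψ(u) = g(v) (1+|v|²)^p/(1+|u|²)^p`.
Take `δ₁, η` from `slow_ineq p` and choose `δ ≤ δ₁` and `a₀` so that `(1-η) a ≤ |m|² ≤ (1+η) a`
(`len m ≤ len v + len z ≤ (1+δ)√a`, `len m ≥ len v - len z ≥ √(a-1) - δ√a ≥ √a (√(1-1/a₀) - δ)`;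
or with squares: `|m|² = |v|² - 2 v·z + |z|²`, `|2 v·z| ≤ 2 δ a`, so `||m|² - a| ≤ 1 + 2δa + δ²a ≤ η a` if `2δ+δ² ≤ η/2`,
`a ≥ 2/η` : this is the easy way).
For `|σ| = 1`, `m·σ > 0`, `h = hh σ m`, `X = |h|²/a`, `Y = 2 z·h/a`: `1+|v±h|² = a (1+X±Y)` (`one_add_nsq_add/sub`),
`X = (|m|²/a) (1-c²)/c²` (`nsq_hh`), `|Y| ≤ 2 len z len h/a ≤ 2δ√X`. So `g(v+h)+g(v-h) ≤ g(v) [((1+X+Y)^p)⁻¹+((1+X-Y)^p)⁻¹]
≤ 2 g(v) c^(2p)(1+(1-c²))`. Use `refl_avg` (with `K = ofReal ∘ Kn ..`, `G h = ofReal (g (v+h))`, dropping the indicator in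
`GM`; `Kn ≥ 0` on the sphere by `bt_nonneg`) for `GM` and for `GE`, then `slow_integral` with `hpov := povzner`.
-/

set_option autoImplicit false

open MeasureTheory Set Filter Topology Pool.Agent.H25.Kin
open scoped ENNReal

namespace Pool.Agent.H82.BK

variable {d : ℕ}

/-- the two sided bound of `|m|²` by `a` -/
private lemma slow_nsq {η δ : ℝ} (hη : 0 < η) (hδ : 0 < δ) (hδ1 : δ ≤ 1) (hδη : δ ≤ η / 6)
    {v m : Vec d} (hz : nsq (v - m) ≤ δ ^ 2 * (1 + nsq v)) (ha : 2 / η ≤ 1 + nsq v) :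
    (1 - η) * (1 + nsq v) ≤ nsq m ∧ nsq m ≤ (1 + η) * (1 + nsq v) := by
  have hv : 0 ≤ nsq v := sq_nonneg' v
  have hzz : 0 ≤ nsq (v - m) := sq_nonneg' _
  have e : nsq m = nsq v - 2 * dot v (v - m) + nsq (v - m) := by
    rw [← nsq_sub]; congr 1; abel
  have h1 : dot v (v - m) ^ 2 ≤ (δ * (1 + nsq v)) ^ 2 := by
    refine (dot_sq_le v (v - m)).trans ?_
    have : nsq v * nsq (v - m) ≤ (1 + nsq v) * (δ ^ 2 * (1 + nsq v)) :=
      mul_le_mul (by linarith) hz hzz (by linarith)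
    linarith [this, mul_comm (1 + nsq v) (δ ^ 2 * (1 + nsq v)),
      show (δ * (1 + nsq v)) ^ 2 = (1 + nsq v) * (δ ^ 2 * (1 + nsq v)) by ring]
  have h2 : |dot v (v - m)| ≤ δ * (1 + nsq v) := abs_le_of_sq_le_sq h1 (by positivity)
  obtain ⟨h3, h4⟩ := abs_le.mp h2
  have h5 : δ * (1 + nsq v) ≤ η / 6 * (1 + nsq v) :=
    mul_le_mul_of_nonneg_right hδη (by linarith)
  have h6 : δ ^ 2 * (1 + nsq v) ≤ η / 6 * (1 + nsq v) :=
    mul_le_mul_of_nonneg_right (by nlinarith) (by linarith)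
  have h7 : 2 ≤ η * (1 + nsq v) := by
    rw [div_le_iff₀ hη] at ha
    linarith
  constructor <;> nlinarith

private lemma slow_point {p : ℕ} {δ₁ η δ : ℝ} (hη : 0 < η) (hδ : 0 < δ)
    (hδ1 : δ ≤ 1) (hδη : δ ≤ η / 6) (hδδ : δ ≤ δ₁)
    (hS : ∀ X Y c : ℝ, 0 < c → c ≤ 1 →
      (1 - η) * ((1 - c ^ 2) / c ^ 2) ≤ X → X ≤ (1 + η) * ((1 - c ^ 2) / c ^ 2) →
      |Y| ≤ 2 * δ₁ * Real.sqrt X →
      0 < 1 + X + Y ∧ 0 < 1 + X - Y ∧
      ((1 + X + Y) ^ p)⁻¹ + ((1 + X - Y) ^ p)⁻¹ ≤ 2 * (c ^ (2 * p) * (1 + (1 - c ^ 2))))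
    {g : Vec d → ℝ} (hg0 : ∀ u, 0 ≤ g u) {v m : Vec d}
    (hψ : ∀ u, g u * (1 + nsq u) ^ p ≤ g v * (1 + nsq v) ^ p)
    (hz : nsq (v - m) ≤ δ ^ 2 * (1 + nsq v)) (ha : 2 / η ≤ 1 + nsq v)
    {σ : Vec d} (hσ : nsq σ = 1) (hm : 0 < dot m σ) :
    g (v + hh σ m) + g (v - hh σ m) ≤
      2 * (g v * (co m σ ^ (2 * p) * (1 + (1 - co m σ ^ 2)))) := by
  obtain ⟨hm1, hm2⟩ := slow_nsq hη hδ hδ1 hδη hz ha
  have hv : 0 ≤ nsq v := sq_nonneg' v
  have hc0 := co_pos hm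
  have hc1 : co m σ ≤ 1 := co_le_one hσ
  have hc2 : co m σ ^ 2 ≤ 1 := by nlinarith
  have ha0 : 0 < 1 + nsq v := by linarith
  set a : ℝ := 1 + nsq v with hadef
  set c : ℝ := co m σ with hcdef
  have ht : 0 ≤ (1 - c ^ 2) / c ^ 2 := div_nonneg (by linarith) (by positivity)
  have hh2 : nsq (hh σ m) = nsq m * ((1 - c ^ 2) / c ^ 2) := nsq_hh hσ hm
  have hX1 : (1 - η) * ((1 - c ^ 2) / c ^ 2) ≤ nsq (hh σ m) / a := by
    rw [le_div_iff₀ ha0, hh2]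
    nlinarith [mul_le_mul_of_nonneg_right hm1 ht]
  have hX2 : nsq (hh σ m) / a ≤ (1 + η) * ((1 - c ^ 2) / c ^ 2) := by
    rw [div_le_iff₀ ha0, hh2]
    nlinarith [mul_le_mul_of_nonneg_right hm2 ht]
  have hX0 : 0 ≤ nsq (hh σ m) / a := div_nonneg (sq_nonneg' _) ha0.le
  have hY : |2 * dot (v - m) (hh σ m) / a| ≤ 2 * δ₁ * Real.sqrt (nsq (hh σ m) / a) := by
    have h1 : |2 * dot (v - m) (hh σ m) / a| ≤ 2 * δ * Real.sqrt (nsq (hh σ m) / a) := by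
      apply abs_le_of_sq_le_sq _ (by positivity)
      rw [mul_pow, Real.sq_sqrt hX0, div_pow, mul_pow, div_le_iff₀ (by positivity)]
      have h2 := dot_sq_le (v - m) (hh σ m)
      have h3 : nsq (v - m) * nsq (hh σ m) ≤ δ ^ 2 * a * nsq (hh σ m) :=
        mul_le_mul_of_nonneg_right hz (sq_nonneg' _)
      have e : (2 * δ) ^ 2 * (nsq (hh σ m) / a) * a ^ 2 = 4 * (δ ^ 2 * a * nsq (hh σ m)) := by
        field_simp
        ring
      rw [e]
      linarith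
    refine h1.trans (mul_le_mul_of_nonneg_right (by linarith) (Real.sqrt_nonneg _))
  obtain ⟨hp1, hp2, hsum⟩ := hS _ _ c hc0 hc1 hX1 hX2 hY
  have e1 : 1 + nsq (v + hh σ m) =
      a * (1 + nsq (hh σ m) / a + 2 * dot (v - m) (hh σ m) / a) := by
    rw [one_add_nsq_add v hm]
    field_simp
    ring
  have e2 : 1 + nsq (v - hh σ m) =
      a * (1 + nsq (hh σ m) / a - 2 * dot (v - m) (hh σ m) / a) := by
    rw [one_add_nsq_sub v hm]
    field_simp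
    ring
  have hap : 0 < a ^ p := pow_pos ha0 p
  have g1 : g (v + hh σ m) ≤
      g v * ((1 + nsq (hh σ m) / a + 2 * dot (v - m) (hh σ m) / a) ^ p)⁻¹ := by
    have h1 := hψ (v + hh σ m)
    rw [e1, mul_pow] at h1
    rw [← div_eq_mul_inv, le_div_iff₀ (pow_pos hp1 p)]
    have h2 : (g (v + hh σ m) *
        (1 + nsq (hh σ m) / a + 2 * dot (v - m) (hh σ m) / a) ^ p) * a ^ p ≤ g v * a ^ p := by
      linarith [h1]
    exact le_of_mul_le_mul_right h2 hap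
  have g2 : g (v - hh σ m) ≤
      g v * ((1 + nsq (hh σ m) / a - 2 * dot (v - m) (hh σ m) / a) ^ p)⁻¹ := by
    have h1 := hψ (v - hh σ m)
    rw [e2, mul_pow] at h1
    rw [← div_eq_mul_inv, le_div_iff₀ (pow_pos hp2 p)]
    have h2 : (g (v - hh σ m) *
        (1 + nsq (hh σ m) / a - 2 * dot (v - m) (hh σ m) / a) ^ p) * a ^ p ≤ g v * a ^ p := by
      linarith [h1]
    exact le_of_mul_le_mul_right h2 hap
  have h3 := mul_le_mul_of_nonneg_left hsum (hg0 v)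
  rw [mul_add] at h3
  linarith

private lemma slow_meas_Kn (d : ℕ) (γ : ℝ) {β : ℝ → ℝ} (hβ : Measurable β) :
    Measurable (Kn d γ β) := by
  unfold Kn
  exact ((measurable_const.mul (measurable_id.pow_const _))).mul
    (hβ.comp (by fun_prop))

private lemma slow_part (hd : 1 ≤ d) (γ : ℝ) {p : ℕ} {g : Vec d → ℝ} (hg : Measurable g)
    (hg0 : ∀ u, 0 ≤ g u) {v m : Vec d} (hm : m ≠ 0) {β : ℝ → ℝ} (hβ : Measurable β)
    (hpt : ∀ σ : Vec d, nsq σ = 1 → 0 < dot m σ → g (v + hh σ m) + g (v - hh σ m) ≤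
      2 * (g v * (co m σ ^ (2 * p) * (1 + (1 - co m σ ^ 2))))) :
    ∫⁻ σ in {σ : Vec d | 0 < dot m σ},
        ENNReal.ofReal (Kn d γ β (co m σ) * g (v + hh σ m)) ∂(surf d) ≤
      ENNReal.ofReal (g v) * ∫⁻ σ in {σ : Vec d | 0 < dot m σ}, ENNReal.ofReal (Kn d γ β (co m σ) *
        (co m σ ^ (2 * p) * (1 + (1 - co m σ ^ 2)))) ∂(surf d) := by
  have hK : Measurable fun x => ENNReal.ofReal (Kn d γ β x) :=
    (slow_meas_Kn d γ hβ).ennreal_ofReal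
  have hG : Measurable fun h : Vec d => ENNReal.ofReal (g (v + h)) :=
    (hg.comp (measurable_const.add measurable_id)).ennreal_ofReal
  have hW : Measurable fun x : ℝ => ENNReal.ofReal (x ^ (2 * p) * (1 + (1 - x ^ 2))) := by
    apply Measurable.ennreal_ofReal
    fun_prop
  have hR : Measurable fun x : ℝ => ENNReal.ofReal (g v) *
      ENNReal.ofReal (x ^ (2 * p) * (1 + (1 - x ^ 2))) := hW.const_mul _
  have key := refl_avg hd hm hK hG hR (fun σ hσ hm' => by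
    have h1 := hpt σ hσ hm'
    have e : v + -(hh σ m) = v - hh σ m := by abel
    rw [e, ← ENNReal.ofReal_add (hg0 _) (hg0 _), ← ENNReal.ofReal_mul (hg0 v)]
    have h2 : (2 : ℝ≥0∞) = ENNReal.ofReal 2 := by simp
    rw [h2, ← ENNReal.ofReal_mul (by norm_num)]
    exact ENNReal.ofReal_le_ofReal h1)
  calc ∫⁻ σ in {σ : Vec d | 0 < dot m σ},
        ENNReal.ofReal (Kn d γ β (co m σ) * g (v + hh σ m)) ∂(surf d)
      = ∫⁻ σ in {σ : Vec d | 0 < dot m σ},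
        ENNReal.ofReal (Kn d γ β (co m σ)) * ENNReal.ofReal (g (v + hh σ m)) ∂(surf d) := by
        refine lintegral_congr fun σ => ?_
        rw [ENNReal.ofReal_mul' (hg0 _)]
    _ ≤ _ := key
    _ = ENNReal.ofReal (g v) * ∫⁻ σ in {σ : Vec d | 0 < dot m σ},
        ENNReal.ofReal (Kn d γ β (co m σ)) *
          ENNReal.ofReal (co m σ ^ (2 * p) * (1 + (1 - co m σ ^ 2))) ∂(surf d) := by
        rw [← lintegral_const_mul' _ _ ENNReal.ofReal_ne_top]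
        refine lintegral_congr fun σ => ?_
        ring
    _ ≤ _ := by
        refine mul_le_mul_right ?_ _
        refine lintegral_mono_ae (ae_restrict_of_ae ?_)
        filter_upwards [surf_ae (d := d)] with σ hσ
        have hc : co m σ ^ 2 ≤ 1 := by
          rw [co_eq]
          have := dot_le_one (nsq_dir hm) hσ
          rw [← sq_abs]
          nlinarith [abs_nonneg (dot (dir m) σ)]
        have hw : 0 ≤ co m σ ^ (2 * p) * (1 + (1 - co m σ ^ 2)) := by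
          have e : co m σ ^ (2 * p) = (co m σ ^ 2) ^ p := pow_mul _ _ _
          rw [e]
          exact mul_nonneg (by positivity) (by linarith)
        exact (ENNReal.ofReal_mul' (p := Kn d γ β (co m σ)) hw).ge

theorem slow_bound {γ s : ℝ} {b : ℝ → ℝ} {C Ca : ℝ} (H : Hyp d γ s b C Ca) {p : ℕ}
    (hp : (d : ℝ) + γ + 4 ≤ 2 * p) : ∃ δ > 0, ∃ a₀ : ℝ, 1 ≤ a₀ ∧
    ∀ g : Vec d → ℝ, Measurable g → (∀ u, 0 ≤ g u) → ∀ v : Vec d,
      (∀ u, g u * (1 + nsq u) ^ p ≤ g v * (1 + nsq v) ^ p) →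
      ∀ m : Vec d, m ≠ 0 → nsq (v - m) ≤ δ ^ 2 * (1 + nsq v) → a₀ ≤ 1 + nsq v →
      ∀ ε > 0, GM γ b ε g v m + GE γ b ε g v m ≤ ENNReal.ofReal (g v) * BB b ε (dir m) := by
  obtain ⟨δ₁, hδ₁, η, hη, hη2, hS⟩ := slow_ineq p
  refine ⟨min δ₁ (min 1 (η / 6)), by positivity, 2 / η, ?_, ?_⟩
  · rw [le_div_iff₀ hη]; linarith
  intro g hg hg0 v hψ m hm hz ha ε hε
  have hpt : ∀ σ : Vec d, nsq σ = 1 → 0 < dot m σ → g (v + hh σ m) + g (v - hh σ m) ≤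
      2 * (g v * (co m σ ^ (2 * p) * (1 + (1 - co m σ ^ 2)))) := fun σ hσ hmσ =>
    slow_point hη (by positivity) ((min_le_right _ _).trans (min_le_left _ _))
      ((min_le_right _ _).trans (min_le_right _ _)) (min_le_left _ _) hS hg0 hψ hz ha hσ hmσ
  have hbt : Measurable (bt b ε) := measurable_bt H.bm ε
  have h1 := slow_part (γ := γ) (p := p) H.hd1 hg hg0 hm hbt hpt
  have h2 := slow_part (γ := γ) (p := p) (β := fun x => bt b ε (-x)) H.hd1 hg hg0 hm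
    (hbt.comp measurable_neg) hpt
  have h3 : GM γ b ε g v m ≤ ∫⁻ σ in {σ : Vec d | 0 < dot m σ},
        ENNReal.ofReal (Kn d γ (bt b ε) (co m σ) * g (v + hh σ m)) ∂(surf d) := by
    unfold GM
    refine lintegral_mono fun σ => ?_
    dsimp only
    split_ifs
    · exact le_rfl
    · exact bot_le
  have h4 := slow_integral H.hd γ H.bm H.bd hε hp (fun x y r h4 hx hy h => povzner h4 hx hy h) hm
  have h5 : GM γ b ε g v m + GE γ b ε g v m ≤ _ := add_le_add (h3.trans h1) h2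
  rw [← mul_add] at h5
  exact h5.trans (mul_le_mul_right h4 _)

end Pool.Agent.H82.BK
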